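import Mathlib
import Pool.Agent.Helper99.RingKernel
import Pool.Agent.Helper99.RingTaylor

namespace Pool.Agent.Helper99.Ring9

open Real Pool.Agent.Helper99.Ring

/-! Taylor bounds -/

lemma cos_ge_t6_nonneg : ∀ x : ℝ, 0 ≤ x →
    1 - x ^ 2 / 2 + x ^ 4 / 24 - x ^ 6 / 720 ≤ cos x := by
  apply le_of_deriv_le_nonneg (f' := fun x => - x + x ^ 3 / 6 - x ^ 5 / 120)
    (g' := fun x => - sin x)
  · intro x
    have h := ((((hasDerivAt_const x (1 : ℝ)).sub (((hasDerivAt_id x).pow 2).div_const 2)).add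
      (((hasDerivAt_id x).pow 4).div_const 24)).sub (((hasDerivAt_id x).pow 6).div_const 720))
    convert! h using 1
    simp; ring
  · intro x; exact hasDerivAt_cos x
  · simp
  · intro x hx
    have := sin_le_t5 x hx
    linarith

lemma sin_ge_t7 : ∀ x : ℝ, 0 ≤ x →
    x - x ^ 3 / 6 + x ^ 5 / 120 - x ^ 7 / 5040 ≤ sin x := by
  apply le_of_deriv_le_nonneg (f' := fun x => 1 - x ^ 2 / 2 + x ^ 4 / 24 - x ^ 6 / 720)
    (g' := fun x => cos x)
  · intro x
    have h := ((((hasDerivAt_id x).sub (((hasDerivAt_id x).pow 3).div_const 6)).add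
      (((hasDerivAt_id x).pow 5).div_const 120)).sub (((hasDerivAt_id x).pow 7).div_const 5040))
    convert! h using 1
    simp; ring
  · intro x; exact hasDerivAt_sin x
  · simp
  · intro x hx
    exact cos_ge_t6_nonneg x hx

lemma cos_le_t8_nonneg : ∀ x : ℝ, 0 ≤ x →
    cos x ≤ 1 - x ^ 2 / 2 + x ^ 4 / 24 - x ^ 6 / 720 + x ^ 8 / 40320 := by
  apply le_of_deriv_le_nonneg (f' := fun x => - sin x)
    (g' := fun x => - x + x ^ 3 / 6 - x ^ 5 / 120 + x ^ 7 / 5040)
  · intro x; exact hasDerivAt_cos x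
  · intro x
    have h := (((((hasDerivAt_const x (1 : ℝ)).sub (((hasDerivAt_id x).pow 2).div_const 2)).add
      (((hasDerivAt_id x).pow 4).div_const 24)).sub
      (((hasDerivAt_id x).pow 6).div_const 720)).add (((hasDerivAt_id x).pow 8).div_const 40320))
    convert! h using 1
    simp; ring
  · simp
  · intro x hx
    have := sin_ge_t7 x hx
    linarith

lemma sin_le_t9 : ∀ x : ℝ, 0 ≤ x →
    sin x ≤ x - x ^ 3 / 6 + x ^ 5 / 120 - x ^ 7 / 5040 + x ^ 9 / 362880 := by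
  apply le_of_deriv_le_nonneg (f' := fun x => cos x)
    (g' := fun x => 1 - x ^ 2 / 2 + x ^ 4 / 24 - x ^ 6 / 720 + x ^ 8 / 40320)
  · intro x; exact hasDerivAt_sin x
  · intro x
    have h := (((((hasDerivAt_id x).sub (((hasDerivAt_id x).pow 3).div_const 6)).add
      (((hasDerivAt_id x).pow 5).div_const 120)).sub
      (((hasDerivAt_id x).pow 7).div_const 5040)).add (((hasDerivAt_id x).pow 9).div_const 362880))
    convert! h using 1
    simp; ring
  · simp
  · intro x hx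
    exact cos_le_t8_nonneg x hx

lemma cos_ge_t10_nonneg : ∀ x : ℝ, 0 ≤ x →
    1 - x ^ 2 / 2 + x ^ 4 / 24 - x ^ 6 / 720 + x ^ 8 / 40320 - x ^ 10 / 3628800 ≤ cos x := by
  apply le_of_deriv_le_nonneg
    (f' := fun x => - x + x ^ 3 / 6 - x ^ 5 / 120 + x ^ 7 / 5040 - x ^ 9 / 362880)
    (g' := fun x => - sin x)
  · intro x
    have h := ((((((hasDerivAt_const x (1 : ℝ)).sub (((hasDerivAt_id x).pow 2).div_const 2)).add
      (((hasDerivAt_id x).pow 4).div_const 24)).sub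
      (((hasDerivAt_id x).pow 6).div_const 720)).add
      (((hasDerivAt_id x).pow 8).div_const 40320)).sub
      (((hasDerivAt_id x).pow 10).div_const 3628800))
    convert! h using 1
    simp; ring
  · intro x; exact hasDerivAt_cos x
  · simp
  · intro x hx
    have := sin_le_t9 x hx
    linarith

lemma sin_ge_t11 : ∀ x : ℝ, 0 ≤ x →
    x - x ^ 3 / 6 + x ^ 5 / 120 - x ^ 7 / 5040 + x ^ 9 / 362880 - x ^ 11 / 39916800 ≤ sin x := by
  apply le_of_deriv_le_nonneg
    (f' := fun x => 1 - x ^ 2 / 2 + x ^ 4 / 24 - x ^ 6 / 720 + x ^ 8 / 40320 - x ^ 10 / 3628800)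
    (g' := fun x => cos x)
  · intro x
    have h := ((((((hasDerivAt_id x).sub (((hasDerivAt_id x).pow 3).div_const 6)).add
      (((hasDerivAt_id x).pow 5).div_const 120)).sub
      (((hasDerivAt_id x).pow 7).div_const 5040)).add
      (((hasDerivAt_id x).pow 9).div_const 362880)).sub
      (((hasDerivAt_id x).pow 11).div_const 39916800))
    convert! h using 1
    simp; ring
  · intro x; exact hasDerivAt_sin x
  · simp
  · intro x hx
    exact cos_ge_t10_nonneg x hx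

/-- Pair force in terms of the angle difference. -/
noncomputable def ph (x : ℝ) : ℝ := w (x / 2) / 4

lemma ph_two_pi_sub (x : ℝ) : ph (2 * π - x) = - ph x := by
  unfold ph w
  have : (2 * π - x) / 2 = π - x / 2 := by ring
  rw [this, cos_pi_sub, sin_pi_sub]; ring

lemma ph_lt (a b : ℝ) (ha : 0 < a) (hab : a < b) (hb : b < 2 * π) : ph b < ph a := by
  have h := w_gap_pos (a / 2) (b / 2) (by linarith) (by linarith) (by linarith) (by linarith)
    (by intro h; linarith)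
  unfold ph
  have h2 : 0 < b / 2 - a / 2 := by linarith
  have h3 : 0 < w (a / 2) - w (b / 2) := by
    by_contra hc
    push Not at hc
    nlinarith
  linarith

lemma ph_le (a b : ℝ) (ha : 0 < a) (hab : a ≤ b) (hb : b < 2 * π) : ph b ≤ ph a := by
  rcases hab.eq_or_lt with h | h
  · rw [h]
  · exact (ph_lt a b ha h hb).le

lemma polyE_aux (z : ℝ) (h1 : z ≤ 2.4675) :
    0 ≤ 0.003933 - 0.0061 * z + 0.003235 * z ^ 2 - 0.000522 * z ^ 3 + 0.000036 * z ^ 4 := by
  nlinarith [mul_nonneg (sub_nonneg.2 h1) (sq_nonneg (z - 1.28)), sq_nonneg (z-1.28),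
    sq_nonneg (z^2 - 1.28*z)]

lemma polyE2_aux (z : ℝ) (h1 : z ≤ 2.4675) :
    0 ≤ 0.005428 - 0.0032795 * z + 0.000539 * z ^ 2 - 0.00004234 * z ^ 3 + 0.0000019 * z ^ 4
      - 0.000000062 * z^5 := by
  nlinarith [mul_nonneg (sub_nonneg.2 h1) (sq_nonneg (z - 1.28)), sq_nonneg (z-1.28),
    sq_nonneg (z^2 - 1.28*z)]

lemma polyE (z : ℝ) (h0 : 0 ≤ z) (h1 : z ≤ 2.4675) :
    1 - z / 2 + z ^ 2 / 24 - z ^ 3 / 720 + z ^ 4 / 40320 ≤
      (1 - z / 6 - 0.0544 * z ^ 2 - 0.01504 * z ^ 3) *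
        (1 - z / 6 + z ^ 2 / 120 - z ^ 3 / 5040) ^ 2 := by
  have h2 := polyE_aux z h1
  have key : (1 - z / 6 - 0.0544 * z ^ 2 - 0.01504 * z ^ 3) *
        (1 - z / 6 + z ^ 2 / 120 - z ^ 3 / 5040) ^ 2 -
      (1 - z / 2 + z ^ 2 / 24 - z ^ 3 / 720 + z ^ 4 / 40320) =
      z ^ 2 * ((0.003933 - 0.0061 * z + 0.003235 * z ^ 2 - 0.000522 * z ^ 3 + 0.000036 * z ^ 4) +
        ((59/15000 - 0.003933) + (0.0061 - 57643/9450000) * z + (81533/25200000 - 0.003235) * z ^ 2
          + (0.000522 - 591551/1134000000) * z ^ 3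
          + z ^ 4 * ((4817/117600000 - 0.000036) - 888653/476280000000 * z)
          + z ^ 6 * (1889/39690000000 - 47/79380000000 * z))) := by
    ring
  have h3 : 0 ≤ (4817/117600000 - 0.000036) - 888653/476280000000 * z := by
    norm_num at h1 ⊢; linarith
  have h4 : 0 ≤ 1889/39690000000 - 47/79380000000 * z := by
    norm_num at h1 ⊢; linarith
  have h5 : 0 ≤ z ^ 2 * ((0.003933 - 0.0061 * z + 0.003235 * z ^ 2 - 0.000522 * z ^ 3 +
      0.000036 * z ^ 4) +
        ((59/15000 - 0.003933) + (0.0061 - 57643/9450000) * z + (81533/25200000 - 0.003235) * z ^ 2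
          + (0.000522 - 591551/1134000000) * z ^ 3
          + z ^ 4 * ((4817/117600000 - 0.000036) - 888653/476280000000 * z)
          + z ^ 6 * (1889/39690000000 - 47/79380000000 * z))) := by
    apply mul_nonneg (sq_nonneg z)
    have a1 : 0 ≤ z ^ 4 * ((4817/117600000 - 0.000036) - 888653/476280000000 * z) :=
      mul_nonneg (by positivity) h3
    have a2 : 0 ≤ z ^ 6 * (1889/39690000000 - 47/79380000000 * z) :=
      mul_nonneg (by positivity) h4
    have a3 : 0 ≤ (0.0061 - 57643/9450000) * z := mul_nonneg (by norm_num) h0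
    have a4 : 0 ≤ (81533/25200000 - 0.003235) * z ^ 2 := mul_nonneg (by norm_num) (by positivity)
    have a5 : 0 ≤ (0.000522 - 591551/1134000000) * z ^ 3 :=
      mul_nonneg (by norm_num) (by positivity)
    have a6 : (0 : ℝ) ≤ 59/15000 - 0.003933 := by norm_num
    linarith
  linarith

lemma polyE2 (z : ℝ) (h0 : 0 ≤ z) (h1 : z ≤ 2.4675) :
    (1 - z / 6 - 7 * z ^ 2 / 120 - 0.01568 * z ^ 3) *
        (1 - z / 6 + z ^ 2 / 120 - z ^ 3 / 5040 + z ^ 4 / 362880) ^ 2 ≤
      1 - z / 2 + z ^ 2 / 24 - z ^ 3 / 720 + z ^ 4 / 40320 - z ^ 5 / 3628800 := by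
  have h2 := polyE2_aux z h1
  have key : (1 - z / 2 + z ^ 2 / 24 - z ^ 3 / 720 + z ^ 4 / 40320 - z ^ 5 / 3628800) -
      (1 - z / 6 - 7 * z ^ 2 / 120 - 0.01568 * z ^ 3) *
        (1 - z / 6 + z ^ 2 / 120 - z ^ 3 / 5040 + z ^ 4 / 362880) ^ 2 =
      z ^ 3 * ((0.005428 - 0.0032795 * z + 0.000539 * z ^ 2 - 0.00004234 * z ^ 3 +
        0.0000019 * z ^ 4 - 0.000000062 * z^5) +
        ((51301/9450000 - 0.005428) + (0.0032795 - 743783/226800000) * z
          + (3668507/6804000000 - 0.000539) * z ^ 2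
          + (0.00004234 - 12098521/285768000000) * z ^ 3
          + (808793/408240000000 - 0.0000019) * z ^ 4
          + (0.000000062 - 25295009/411505920000000) * z ^ 5
          + z ^ 6 * (3147833/2469035520000000 - 23567/1410877440000000 * z)
          + 1/8398080000000 * z ^ 8)) := by
    ring
  have h4 : 0 ≤ 3147833/2469035520000000 - 23567/1410877440000000 * z := by
    norm_num at h1 ⊢; linarith
  have h5 : 0 ≤ z ^ 3 * ((0.005428 - 0.0032795 * z + 0.000539 * z ^ 2 - 0.00004234 * z ^ 3 +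
        0.0000019 * z ^ 4 - 0.000000062 * z^5) +
        ((51301/9450000 - 0.005428) + (0.0032795 - 743783/226800000) * z
          + (3668507/6804000000 - 0.000539) * z ^ 2
          + (0.00004234 - 12098521/285768000000) * z ^ 3
          + (808793/408240000000 - 0.0000019) * z ^ 4
          + (0.000000062 - 25295009/411505920000000) * z ^ 5
          + z ^ 6 * (3147833/2469035520000000 - 23567/1410877440000000 * z)
          + 1/8398080000000 * z ^ 8)) := by
    apply mul_nonneg (by positivity)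
    have a2 : 0 ≤ z ^ 6 * (3147833/2469035520000000 - 23567/1410877440000000 * z) :=
      mul_nonneg (by positivity) h4
    have a3 : 0 ≤ (0.0032795 - 743783/226800000) * z := mul_nonneg (by norm_num) h0
    have a4 : 0 ≤ (3668507/6804000000 - 0.000539) * z ^ 2 :=
      mul_nonneg (by norm_num) (by positivity)
    have a5 : 0 ≤ (0.00004234 - 12098521/285768000000) * z ^ 3 :=
      mul_nonneg (by norm_num) (by positivity)
    have a7 : 0 ≤ (808793/408240000000 - 0.0000019) * z ^ 4 :=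
      mul_nonneg (by norm_num) (by positivity)
    have a8 : 0 ≤ (0.000000062 - 25295009/411505920000000) * z ^ 5 :=
      mul_nonneg (by norm_num) (by positivity)
    have a9 : 0 ≤ 1/8398080000000 * z ^ 8 := by positivity
    have a6 : (0 : ℝ) ≤ 51301/9450000 - 0.005428 := by norm_num
    linarith
  linarith

/-- Upper bound for the pair force. -/
lemma ph_upper (x : ℝ) (hx : 0 < x) (hx' : x ≤ π) :
    ph x ≤ 1 / x ^ 2 - (1 / 24 + 0.0034 * x ^ 2 + 0.000235 * x ^ 4) := by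
  have hpi := pi_lt_d4
  set u := x / 2 with hu
  have hu0 : 0 < u := by rw [hu]; linarith
  have hu1 : u ≤ 1.57080 := by rw [hu]; norm_num at hpi ⊢; linarith
  have hz1 : u ^ 2 ≤ 2.4675 := by nlinarith
  have hsin : 0 < sin u := sin_pos_of_pos_of_lt_pi hu0 (by rw [hu]; linarith [pi_pos])
  have h1 := cos_le_t8_nonneg u hu0.le
  have h2 := sin_ge_t7 u hu0.le
  have h3 := polyE (u ^ 2) (by positivity) hz1
  set z := u ^ 2 with hz
  have hz0 : 0 < z := by rw [hz]; positivity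
  have hS : 0 < 1 - z / 6 + z ^ 2 / 120 - z ^ 3 / 5040 := by nlinarith
  have hP : 0 < 1 - z / 6 - 0.0544 * z ^ 2 - 0.01504 * z ^ 3 := by nlinarith
  have h4 : u * (1 - z / 6 + z ^ 2 / 120 - z ^ 3 / 5040) ≤ sin u := by
    refine le_trans (le_of_eq ?_) h2
    rw [hz]; ring
  have h5 : z * (1 - z / 6 + z ^ 2 / 120 - z ^ 3 / 5040) ^ 2 ≤ sin u ^ 2 := by
    have : (u * (1 - z / 6 + z ^ 2 / 120 - z ^ 3 / 5040)) ^ 2 ≤ sin u ^ 2 := by
      apply pow_le_pow_left₀ (by positivity) h4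
    refine le_trans (le_of_eq ?_) this
    rw [hz]; ring
  have h6 : cos u ≤ 1 - z / 2 + z ^ 2 / 24 - z ^ 3 / 720 + z ^ 4 / 40320 := by
    refine h1.trans (le_of_eq ?_)
    rw [hz]; ring
  have h7 : z * cos u ≤ (1 - z / 6 - 0.0544 * z ^ 2 - 0.01504 * z ^ 3) * sin u ^ 2 := by
    calc z * cos u ≤ z * ((1 - z / 6 - 0.0544 * z ^ 2 - 0.01504 * z ^ 3) *
        (1 - z / 6 + z ^ 2 / 120 - z ^ 3 / 5040) ^ 2) :=
          mul_le_mul_of_nonneg_left (h6.trans h3) hz0.le
      _ = (1 - z / 6 - 0.0544 * z ^ 2 - 0.01504 * z ^ 3) *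
          (z * (1 - z / 6 + z ^ 2 / 120 - z ^ 3 / 5040) ^ 2) := by ring
      _ ≤ _ := mul_le_mul_of_nonneg_left h5 hP.le
  have h8 : w u ≤ (1 - z / 6 - 0.0544 * z ^ 2 - 0.01504 * z ^ 3) / z := by
    unfold w
    rw [div_le_div_iff₀ (by positivity) hz0]
    linarith
  have hx2 : x = 2 * u := by rw [hu]; ring
  unfold ph
  rw [← hu]
  have e : 1 / x ^ 2 - (1 / 24 + 0.0034 * x ^ 2 + 0.000235 * x ^ 4) =
      (1 - z / 6 - 0.0544 * z ^ 2 - 0.01504 * z ^ 3) / z / 4 := by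
    rw [hx2, hz]
    field_simp
    ring
  rw [e]
  linarith

/-- Lower bound for the pair force. -/
lemma ph_lower (x : ℝ) (hx : 0 < x) (hx' : x ≤ π) :
    1 / x ^ 2 - (1 / 24 + 7 / 1920 * x ^ 2 + 0.000245 * x ^ 4) ≤ ph x := by
  have hpi := pi_lt_d4
  set u := x / 2 with hu
  have hu0 : 0 < u := by rw [hu]; linarith
  have hu1 : u ≤ 1.57080 := by rw [hu]; norm_num at hpi ⊢; linarith
  have hu2 : u ≤ π / 2 := by rw [hu]; linarith
  have hz1 : u ^ 2 ≤ 2.4675 := by nlinarith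
  have hsin : 0 < sin u := sin_pos_of_pos_of_lt_pi hu0 (by linarith [pi_pos])
  have hcos : 0 ≤ cos u := cos_nonneg_of_neg_pi_div_two_le_of_le (by linarith [pi_pos]) hu2
  have h1 := cos_ge_t10_nonneg u hu0.le
  have h2 := sin_le_t9 u hu0.le
  have h3 := polyE2 (u ^ 2) (by positivity) hz1
  set z := u ^ 2 with hz
  have hz0 : 0 < z := by rw [hz]; positivity
  have h4 : sin u ≤ u * (1 - z / 6 + z ^ 2 / 120 - z ^ 3 / 5040 + z ^ 4 / 362880) := by
    refine h2.trans (le_of_eq ?_)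
    rw [hz]; ring
  have h5 : sin u ^ 2 ≤ z * (1 - z / 6 + z ^ 2 / 120 - z ^ 3 / 5040 + z ^ 4 / 362880) ^ 2 := by
    have : sin u ^ 2 ≤
        (u * (1 - z / 6 + z ^ 2 / 120 - z ^ 3 / 5040 + z ^ 4 / 362880)) ^ 2 := by
      apply pow_le_pow_left₀ hsin.le h4
    refine this.trans (le_of_eq ?_)
    rw [hz]; ring
  have h6 : 1 - z / 2 + z ^ 2 / 24 - z ^ 3 / 720 + z ^ 4 / 40320 - z ^ 5 / 3628800 ≤ cos u := by
    refine le_trans (le_of_eq ?_) h1
    rw [hz]; ring
  have h7 : (1 - z / 6 - 7 * z ^ 2 / 120 - 0.01568 * z ^ 3) * sin u ^ 2 ≤ z * cos u := by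
    rcases le_total 0 (1 - z / 6 - 7 * z ^ 2 / 120 - 0.01568 * z ^ 3) with hP | hP
    · calc (1 - z / 6 - 7 * z ^ 2 / 120 - 0.01568 * z ^ 3) * sin u ^ 2 ≤
          (1 - z / 6 - 7 * z ^ 2 / 120 - 0.01568 * z ^ 3) *
          (z * (1 - z / 6 + z ^ 2 / 120 - z ^ 3 / 5040 + z ^ 4 / 362880) ^ 2) :=
            mul_le_mul_of_nonneg_left h5 hP
        _ = z * ((1 - z / 6 - 7 * z ^ 2 / 120 - 0.01568 * z ^ 3) *
          (1 - z / 6 + z ^ 2 / 120 - z ^ 3 / 5040 + z ^ 4 / 362880) ^ 2) := by ring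
        _ ≤ z * cos u := mul_le_mul_of_nonneg_left (h3.trans h6) hz0.le
    · have a1 : (1 - z / 6 - 7 * z ^ 2 / 120 - 0.01568 * z ^ 3) * sin u ^ 2 ≤ 0 :=
        mul_nonpos_of_nonpos_of_nonneg hP (by positivity)
      have a2 : 0 ≤ z * cos u := by positivity
      linarith
  have h8 : (1 - z / 6 - 7 * z ^ 2 / 120 - 0.01568 * z ^ 3) / z ≤ w u := by
    unfold w
    rw [div_le_div_iff₀ hz0 (by positivity)]
    linarith
  have hx2 : x = 2 * u := by rw [hu]; ring
  unfold ph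
  rw [← hu]
  have e : 1 / x ^ 2 - (1 / 24 + 7 / 1920 * x ^ 2 + 0.000245 * x ^ 4) =
      (1 - z / 6 - 7 * z ^ 2 / 120 - 0.01568 * z ^ 3) / z / 4 := by
    rw [hx2, hz]
    field_simp
    ring
  rw [e]
  linarith

/-- `sin x + x²/2` is convex. -/
lemma sin_add_sq_convex : ConvexOn ℝ Set.univ (fun x : ℝ => sin x + x ^ 2 / 2) := by
  have hd : ∀ x : ℝ, HasDerivAt (fun x : ℝ => sin x + x ^ 2 / 2) (cos x + x) x := by
    intro x
    have h := (hasDerivAt_sin x).add (((hasDerivAt_id x).pow 2).div_const 2)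
    convert! h using 1
    simp
  apply MonotoneOn.convexOn_of_deriv convex_univ
  · exact fun x _ => (hd x).continuousAt.continuousWithinAt
  · exact fun x _ => (hd x).differentiableAt.differentiableWithinAt
  · intro x _ y _ hxy
    rw [(hd x).deriv, (hd y).deriv]
    have h := abs_cos_sub_cos_le x y
    rw [abs_le] at h
    have h2 : |x - y| = y - x := by rw [abs_sub_comm, abs_of_nonneg (by linarith)]
    rw [h2] at h
    linarith [h.2]

lemma sin_chord (a b t : ℝ) (h0 : 0 ≤ t) (h1 : t ≤ 1) :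
    sin ((1 - t) * a + t * b) ≤ (1 - t) * sin a + t * sin b + (a - b) ^ 2 / 8 := by
  have h := sin_add_sq_convex.2 (Set.mem_univ a) (Set.mem_univ b) (sub_nonneg.2 h1) h0
    (by ring)
  simp only [smul_eq_mul] at h
  have e : (1 - t) * (a ^ 2 / 2) + t * (b ^ 2 / 2) - ((1 - t) * a + t * b) ^ 2 / 2 =
      t * (1 - t) * (a - b) ^ 2 / 2 := by ring
  have h2 : t * (1 - t) ≤ 1 / 4 := by nlinarith [sq_nonneg (t - 1 / 2)]
  have h3 : t * (1 - t) * (a - b) ^ 2 / 2 ≤ (a - b) ^ 2 / 8 := by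
    nlinarith [sq_nonneg (a - b)]
  linarith

end Pool.Agent.Helper99.Ring9
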