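import Mathlib
import Pool.Agent.Helper99.Ring9.Trig

namespace Pool.Agent.Helper99.Ring9

open Real Finset

/-- `v k - v j` modulo `2π`. -/
noncomputable def Df (v : ℕ → ℝ) (k j : ℕ) : ℝ := v k - v j + if k < j then 2 * π else 0

/-- Force on site `k`. -/
noncomputable def Fr (N : ℕ) (v : ℕ → ℝ) (k : ℕ) : ℝ := ∑ j ∈ (range N).erase k, ph (Df v k j)

/-- Equilibrium configurations (site `0` need not be in equilibrium). -/
structure Sol (N : ℕ) (m : ℝ) (y : ℕ → ℝ) : Prop where
  mono : ∀ i j, i < j → j < N → y i < y j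
  wrap : ∀ j, j < N → y j < y 0 + 2 * π
  eq : ∀ k, 0 < k → k < N → Fr N y k + m * sin (y k) = 0

lemma Sol.Df_pos {N : ℕ} {m : ℝ} {y : ℕ → ℝ} (hy : Sol N m y) (k j : ℕ) (hk : k < N) (hj : j < N)
    (hkj : j ≠ k) : 0 < Df y k j ∧ Df y k j < 2 * π := by
  have h0j : y 0 ≤ y j := by
    rcases Nat.eq_zero_or_pos j with h | h
    · rw [h]
    · exact (hy.mono 0 j h hj).le
  have h0k : y 0 ≤ y k := by
    rcases Nat.eq_zero_or_pos k with h | h
    · rw [h]
    · exact (hy.mono 0 k h hk).le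
  have hwk := hy.wrap k hk
  have hwj := hy.wrap j hj
  unfold Df
  rcases lt_or_gt_of_ne hkj with h | h
  · have := hy.mono j k h hk
    rw [if_neg (by omega)]
    constructor <;> linarith
  · have := hy.mono k j h hj
    rw [if_pos h]
    constructor <;> linarith

/-- A geometric condition on upper-bound configurations. -/
structure Geo (N : ℕ) (v : ℕ → ℝ) : Prop where
  mono : ∀ i j, i < j → j < N → v i < v j
  wrap : ∀ j, j < N → v j ≤ v 0 + 2 * π

lemma Geo.Df_pos {N : ℕ} {v : ℕ → ℝ} (hv : Geo N v) (k j : ℕ) (hk : k < N) (hj : j < N)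
    (hk0 : 0 < k) (hkj : j ≠ k) : 0 < Df v k j := by
  have h0k : v 0 < v k := hv.mono 0 k hk0 hk
  have hwj := hv.wrap j hj
  unfold Df
  rcases lt_or_gt_of_ne hkj with h | h
  · have := hv.mono j k h hk
    rw [if_neg (by omega)]
    linarith
  · rw [if_pos h]
    linarith

/-- index map used for shifted comparisons -/
def tau (N q z : ℕ) : ℕ := if z = 0 then 0 else if q < z then z - q else z + (N - 1 - q)

/-- Comparison of forces. -/
lemma fr_le {N : ℕ} {m : ℝ} {y : ℕ → ℝ} (hy : Sol N m y) (v : ℕ → ℝ) (hv : Geo N v)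
    (C : ℝ) (q k : ℕ) (hk0 : 0 < k) (hx : k + q < N) (hyv : y k = v (k + q)) (h0 : y 0 ≤ v 0)
    (hj : ∀ j, 0 < j → j + q < N → y j ≤ v (j + q)) (hC : ∀ j, 0 < j → j < N → y j ≤ C)
    (hCv : q = 0 ∨ C ≤ v 0 + 2 * π) :
    (∀ z, z < N → z ≠ k + q → Df v (k + q) z < 2 * π) ∧ Fr N y k ≤ Fr N v (k + q) := by
  have hkN : k < N := by omega
  -- termwise comparison
  have key : ∀ z, z < N → z ≠ k + q →
      tau N q z < N ∧ tau N q z ≠ k ∧ Df v (k + q) z ≤ Df y k (tau N q z) := by
    intro z hz hzx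
    unfold tau
    rcases Nat.eq_zero_or_pos z with hz0 | hz0
    · subst hz0
      refine ⟨by simp; omega, by simp; omega, ?_⟩
      unfold Df
      rw [if_pos rfl, if_neg (by omega), if_neg (by omega), hyv]
      linarith
    · rw [if_neg (by omega)]
      rcases lt_or_ge q z with hqz | hqz
      · rw [if_pos hqz]
        refine ⟨by omega, by omega, ?_⟩
        have hj1 := hj (z - q) (by omega) (by omega)
        have e : z - q + q = z := by omega
        rw [e] at hj1
        unfold Df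
        rcases lt_or_gt_of_ne hzx with h | h
        · rw [if_neg (by omega), if_neg (by omega), hyv]
          linarith
        · rw [if_pos h, if_pos (by omega), hyv]
          linarith
      · rw [if_neg (by omega)]
        refine ⟨by omega, by omega, ?_⟩
        have hj1 := hC (z + (N - 1 - q)) (by omega) (by omega)
        have hq : q ≠ 0 := by omega
        have hC1 := hCv.resolve_left hq
        have hvz := hv.mono 0 z hz0 hz
        unfold Df
        rw [if_neg (by omega), if_pos (by omega), hyv]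
        linarith
  have hlt : ∀ z, z < N → z ≠ k + q → Df v (k + q) z < 2 * π := by
    intro z hz hzx
    obtain ⟨h1, h2, h3⟩ := key z hz hzx
    exact lt_of_le_of_lt h3 (hy.Df_pos k _ hkN h1 h2).2
  refine ⟨hlt, ?_⟩
  -- reindex
  have hre : Fr N y k = ∑ z ∈ (range N).erase (k + q), ph (Df y k (tau N q z)) := by
    unfold Fr
    symm
    refine sum_nbij' (fun z => tau N q z)
      (fun j => if j = 0 then 0 else if j + q < N then j + q else j - (N - 1 - q)) ?_ ?_ ?_ ?_ ?_
    · intro z hz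
      rw [mem_erase, mem_range] at hz
      obtain ⟨h1, h2, _⟩ := key z hz.2 hz.1
      simp only [mem_erase, mem_range]
      exact ⟨h2, h1⟩
    · intro j hj'
      rw [mem_erase, mem_range] at hj'
      simp only [mem_erase, mem_range]
      split_ifs <;> omega
    · intro z hz
      rw [mem_erase, mem_range] at hz
      simp only [tau]
      split_ifs <;> omega
    · intro j hj'
      rw [mem_erase, mem_range] at hj'
      simp only [tau]
      split_ifs <;> omega
    · intro z _
      rfl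
  rw [hre]
  unfold Fr
  apply sum_le_sum
  intro z hz
  rw [mem_erase, mem_range] at hz
  obtain ⟨h1, h2, h3⟩ := key z hz.2 hz.1
  exact ph_le _ _ (hv.Df_pos (k + q) z hx hz.2 (by omega) hz.1) h3 (hy.Df_pos k _ hkN h1 h2).2

/-- linear interpolation -/
noncomputable def itr (a b : ℕ → ℝ) (t : ℝ) (k : ℕ) : ℝ := (1 - t) * a k + t * b k

/-- Negative forces along the segment from `a` to `b`. -/
structure Seg (N : ℕ) (m C : ℝ) (a b : ℕ → ℝ) : Prop where
  le : ∀ k, k < N → b k ≤ a k
  geo : ∀ t, 0 ≤ t → t ≤ 1 → Geo N (itr a b t)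
  neg : ∀ t, 0 ≤ t → t ≤ 1 → ∀ x, 0 < x → x < N →
    (∀ z, z < N → z ≠ x → Df (itr a b t) x z < 2 * π) →
    (a x = C ∧ b x = C) ∨ Fr N (itr a b t) x + m * sin (itr a b t x) < 0

lemma itr_itr (a b : ℕ → ℝ) (s t : ℝ) : itr a (itr a b s) t = itr a b (t * s) := by
  funext k; unfold itr; ring

lemma Seg.sub {N : ℕ} {m C : ℝ} {a b : ℕ → ℝ} (h : Seg N m C a b) (s : ℝ) (h0 : 0 ≤ s)
    (h1 : s ≤ 1) : Seg N m C a (itr a b s) := by
  refine ⟨?_, ?_, ?_⟩
  · intro k hk
    have := h.le k hk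
    unfold itr
    nlinarith
  · intro t ht0 ht1
    rw [itr_itr]
    exact h.geo _ (by positivity) (by nlinarith)
  · intro t ht0 ht1 x hx0 hxN hD
    rw [itr_itr] at hD ⊢
    rcases h.neg (t * s) (by positivity) (by nlinarith) x hx0 hxN hD with h2 | h2
    · left
      refine ⟨h2.1, ?_⟩
      unfold itr
      rw [h2.1, h2.2]; ring
    · right; exact h2

/-- Sliding along one segment. -/
lemma slide {N : ℕ} {m C : ℝ} {y a b : ℕ → ℝ} (hy : Sol N m y) (hs : Seg N m C a b) (q : ℕ)
    (hC : ∀ j, 0 < j → j < N → y j ≤ C) (h0 : y 0 ≤ b 0) (hCv : q = 0 ∨ C ≤ b 0 + 2 * π)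
    (ha : ∀ k, 0 < k → k + q < N → y k ≤ a (k + q)) :
    ∀ k, 0 < k → k + q < N → y k ≤ b (k + q) := by
  classical
  by_contra hcon
  push Not at hcon
  obtain ⟨k1, hk1, hk1N, hk1b⟩ := hcon
  -- violating set
  set S := (range N).filter (fun k => 0 < k ∧ k + q < N ∧ b (k + q) < y k) with hS
  have hSne : S.Nonempty := ⟨k1, by rw [hS, mem_filter, mem_range]; exact ⟨by omega, hk1, hk1N, hk1b⟩⟩
  set T : ℕ → ℝ := fun k => (a (k + q) - y k) / (a (k + q) - b (k + q)) with hT
  obtain ⟨k, hkS, hkmin⟩ := exists_min_image S T hSne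
  rw [hS, mem_filter, mem_range] at hkS
  obtain ⟨_, hk0, hkN, hkb⟩ := hkS
  have hka := ha k hk0 hkN
  have hden : 0 < a (k + q) - b (k + q) := by linarith
  set t := T k with ht
  have ht0 : 0 ≤ t := by
    rw [ht, hT]; exact div_nonneg (by linarith) hden.le
  have ht1 : t ≤ 1 := by
    rw [ht, hT]; simp only; rw [div_le_one hden]; linarith
  have htk : itr a b t (k + q) = y k := by
    have : t * (a (k + q) - b (k + q)) = a (k + q) - y k := by
      rw [ht, hT]; simp only; field_simp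
    unfold itr; linarith
  have hjle : ∀ j, 0 < j → j + q < N → y j ≤ itr a b t (j + q) := by
    intro j hj0 hjN
    have hja := ha j hj0 hjN
    by_cases hjb : y j ≤ b (j + q)
    · unfold itr
      nlinarith
    · push Not at hjb
      have hjS : j ∈ S := by
        rw [hS, mem_filter, mem_range]; exact ⟨by omega, hj0, hjN, hjb⟩
      have h1 := hkmin j hjS
      have hdj : 0 < a (j + q) - b (j + q) := by linarith
      have h2 : t ≤ (a (j + q) - y j) / (a (j + q) - b (j + q)) := h1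
      rw [le_div_iff₀ hdj] at h2
      unfold itr; linarith
  have hb0 : b 0 ≤ a 0 := hs.le 0 (by omega)
  have h0v : y 0 ≤ itr a b t 0 := by unfold itr; nlinarith
  have hCv' : q = 0 ∨ C ≤ itr a b t 0 + 2 * π := by
    rcases hCv with h | h
    · left; exact h
    · right; unfold itr; nlinarith
  obtain ⟨hD, hF⟩ := fr_le hy (itr a b t) (hs.geo t ht0 ht1) C q k hk0 hkN htk.symm h0v hjle hC hCv'
  rcases hs.neg t ht0 ht1 (k + q) (by omega) hkN hD with h | h
  · have := hC k hk0 (by omega)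
    rw [h.2] at hkb
    linarith
  · have h2 := hy.eq k hk0 (by omega)
    rw [htk] at h
    linarith

/-- `Reach a b`: every solution below `a` (shifted by `q`) is below `b`. -/
def Reach (N : ℕ) (m C : ℝ) (a b : ℕ → ℝ) : Prop :=
  b 0 ≤ a 0 ∧ ∀ y, Sol N m y → ∀ q, (∀ j, 0 < j → j < N → y j ≤ C) → y 0 ≤ b 0 →
    (q = 0 ∨ C ≤ b 0 + 2 * π) →
    (∀ k, 0 < k → k + q < N → y k ≤ a (k + q)) → ∀ k, 0 < k → k + q < N → y k ≤ b (k + q)

lemma Reach.refl (N : ℕ) (m C : ℝ) (a : ℕ → ℝ) : Reach N m C a a :=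
  ⟨le_rfl, fun _ _ _ _ _ _ h => h⟩

lemma Reach.trans {N : ℕ} {m C : ℝ} {a b c : ℕ → ℝ} (h1 : Reach N m C a b)
    (h2 : Reach N m C b c) : Reach N m C a c := by
  refine ⟨h2.1.trans h1.1, ?_⟩
  intro y hy q hC h0 hq ha
  refine h2.2 y hy q hC h0 hq (h1.2 y hy q hC (h0.trans h2.1) ?_ ha)
  rcases hq with h | h
  · left; exact h
  · right; linarith [h2.1]

lemma Seg.reach {N : ℕ} {m C : ℝ} {a b : ℕ → ℝ} (hN : 0 < N) (h : Seg N m C a b) :
    Reach N m C a b :=
  ⟨h.le 0 hN, fun _ hy q hC h0 hq ha => slide hy h q hC h0 hq ha⟩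

/-- Train argument. -/
lemma train {N : ℕ} {m C : ℝ} {a b : ℕ → ℝ} (h : Reach N m C a b)
    (hCb : C ≤ b 0 + 2 * π) (hlast : C ≤ a (N - 1))
    (hshift : ∀ x, 0 < x → x + 1 < N → b (x + 1) ≤ a x)
    {y : ℕ → ℝ} (hy : Sol N m y) (hC : ∀ j, 0 < j → j < N → y j ≤ C) (h0 : y 0 ≤ b 0) :
    ∀ k, 0 < k → k < N → y k ≤ b k := by
  have key : ∀ r q : ℕ, q + r = N → ∀ k, 0 < k → k + q < N → y k ≤ b (k + q) := by
    intro r
    induction r with
    | zero => intro q hq k hk hkN; omega
    | succ r ih =>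
      intro q hq
      apply h.2 y hy q hC h0 (Or.inr hCb)
      intro k hk hkN
      rcases Nat.lt_or_ge (k + q + 1) N with h1 | h1
      · have h2 := ih (q + 1) (by omega) k hk (by omega)
        have h3 := hshift (k + q) (by omega) (by omega)
        have e : k + (q + 1) = k + q + 1 := by ring
        rw [e] at h2
        exact h2.trans h3
      · have e : k + q = N - 1 := by omega
        rw [e]
        exact (hC k hk (by omega)).trans hlast
  intro k hk hkN
  have := key N 0 (by omega) k hk (by omega)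
  simpa using this

/-- `v` is a valid upper bound for all solutions below the cap `C` whose pinned coordinate is at
most `v 0`. -/
def Valid (N : ℕ) (m C : ℝ) (v : ℕ → ℝ) : Prop :=
  ∀ y, Sol N m y → (∀ j, 0 < j → j < N → y j ≤ C) → y 0 ≤ v 0 → ∀ k, 0 < k → k < N → y k ≤ v k

lemma Valid.reach {N : ℕ} {m C : ℝ} {a b : ℕ → ℝ} (ha : Valid N m C a) (h : Reach N m C a b) :
    Valid N m C b := by
  intro y hy hC h0
  have := h.2 y hy 0 hC h0 (Or.inl rfl) (fun k hk hkN => ha y hy hC (h0.trans h.1) k hk (by omega))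
  intro k hk hkN
  exact this k hk (by omega)

lemma Valid.mono {N : ℕ} {m C : ℝ} {a b : ℕ → ℝ} (ha : Valid N m C a) (h0 : a 0 = b 0)
    (h : ∀ k, 0 < k → k < N → a k ≤ b k) : Valid N m C b := by
  intro y hy hC hy0 k hk hkN
  exact (ha y hy hC (by rw [h0]; exact hy0) k hk hkN).trans (h k hk hkN)

end Pool.Agent.Helper99.Ring9
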