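/-!
Kernel-evaluable checker for sliding supersolution certificates.
Positions on the circle are integers `p` standing for the angle `(p - 65536) * 2π / 65536`.
All functions are written with recursors and binary `Nat` operations so that the kernel
evaluates them quickly.
-/

namespace Pool.Agent.Helper99.Ring9

/-- `∑_{j<n} f j` -/
noncomputable def sumN (f : Nat → Nat) (n : Nat) : Nat :=
  Nat.rec (motive := fun _ => Nat) (nat_lit 0) (fun j ih => Nat.add (f j) ih) n

/-- `∀ j < n, p j` -/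
noncomputable def allN (p : Nat → Bool) (n : Nat) : Bool :=
  Nat.rec (motive := fun _ => Bool) true
    (fun j ih => Bool.rec (motive := fun _ => Bool) false ih (p j)) n

/-- Boolean conjunction, evaluated lazily. -/
noncomputable def bAnd (a b : Bool) : Bool := Bool.rec (motive := fun _ => Bool) false b a

/-- Boolean disjunction, evaluated lazily. -/
noncomputable def bOr (a b : Bool) : Bool := Bool.rec (motive := fun _ => Bool) b true a

/-- `if b then x else y` -/
noncomputable def bIf (b : Bool) (x y : Nat) : Nat := Bool.rec (motive := fun _ => Nat) y x b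

noncomputable def nmin (a b : Nat) : Nat := bIf (Nat.ble a b) a b

noncomputable def nmax (a b : Nat) : Nat := bIf (Nat.ble a b) b a

/-- `j`-th base `2^18` digit. -/
noncomputable def dig (z j : Nat) : Nat :=
  Nat.mod (Nat.shiftRight z (Nat.mul (nat_lit 18) j)) (nat_lit 262144)

/-- maximum of `f j`, `j < n` -/
noncomputable def maxN (f : Nat → Nat) (n : Nat) : Nat :=
  Nat.rec (motive := fun _ => Nat) (nat_lit 0) (fun j ih => nmax (f j) ih) n

/-- near pair: bound for the scaled force at distance `s` (with `q = s²`, `Q = q / 2^14`) -/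
noncomputable def nearW (q Q : Nat) : Nat :=
  Nat.sub (Nat.add (nat_lit 268433773) (Nat.div (nat_lit 4398046511104) q))
    (Nat.shiftRight (Nat.mul Q (Nat.add (nat_lit 22759247061) (Nat.mul Q (nat_lit 236900)))) (nat_lit 40))

noncomputable def nearQ (q : Nat) : Nat := nearW q (Nat.shiftRight q (nat_lit 14))

noncomputable def nearv (s : Nat) : Nat := nearQ (Nat.mul s s)

noncomputable def farW (Q : Nat) : Nat :=
  Nat.add (nat_lit 268437142) (Nat.shiftRight (Nat.mul Q (Nat.add (nat_lit 24404860950)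
    (Nat.mul Q (nat_lit 246983)))) (nat_lit 40))

noncomputable def farR (q : Nat) : Nat := farW (Nat.succ (Nat.shiftRight q (nat_lit 14)))

noncomputable def farQ (g g' o t c d : Nat) : Nat :=
  Bool.rec (motive := fun _ => Nat)
    (Nat.div (nat_lit 4398046511104) (Nat.mul (nmax g g') (nmax g g')))
    (Nat.div (Nat.mul (nat_lit 17592186044416) (Nat.sub (Nat.mul (nat_lit 3) t) o))
      (Nat.pow c (nat_lit 3)))
    (Nat.ble (Nat.mul (nat_lit 5) d) c)

noncomputable def vfx (g g' o t : Nat) : Nat :=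
  Nat.sub (farR (Nat.mul o o)) (farQ g g' o t (Nat.add g g') (Nat.add (Nat.sub g g') (Nat.sub g' g)))

/-- Bound for the scaled pair force (with offset `2^44`) at the first end point (distance `s`)
of a segment whose other end point has distance `s'`. -/
noncomputable def VA (s s' : Nat) : Nat :=
  Bool.rec (motive := fun _ => Nat)
    (Bool.rec (motive := fun _ => Nat)
      (vfx (Nat.sub (nat_lit 65536) s) (Nat.sub (nat_lit 65536) s') (Nat.sub (nat_lit 65536) s)
        (Nat.sub (nat_lit 65536) s'))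
      (nearv s')
      (Nat.ble s' (nat_lit 32768)))
    (nearv s)
    (Nat.ble s (nat_lit 32768))

/-- The same at the second end point. -/
noncomputable def VB (s s' : Nat) : Nat :=
  Bool.rec (motive := fun _ => Nat)
    (Bool.rec (motive := fun _ => Nat)
      (vfx (Nat.sub (nat_lit 65536) s) (Nat.sub (nat_lit 65536) s') (Nat.sub (nat_lit 65536) s')
        (Nat.sub (nat_lit 65536) s))
      (nearv s)
      (Nat.ble s (nat_lit 32768)))
    (nearv s')
    (Nat.ble s' (nat_lit 32768))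

/-- list of pairs of positions -/
inductive PL where
  | nil : PL
  | cons (a b : Nat) (t : PL) : PL

noncomputable def sumV (X Y : Nat) (l : PL) : Nat :=
  PL.rec (motive := fun _ => Nat) (nat_lit 0)
    (fun a b _ ih => Nat.add (VA (Nat.sub X a) (Nat.sub Y b)) ih) l

noncomputable def sumW (X Y : Nat) (l : PL) : Nat :=
  PL.rec (motive := fun _ => Nat) (nat_lit 0)
    (fun a b _ ih => Nat.add (VB (Nat.sub X a) (Nat.sub Y b)) ih) l

/-- sites `i, i+1, …, i+n-1` -/
noncomputable def mkUp (A B : Nat → Nat) (n : Nat) : Nat → PL :=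
  Nat.rec (motive := fun _ => Nat → PL) (fun _ => PL.nil)
    (fun _ ih i => PL.cons (A i) (B i) (ih (Nat.succ i))) n

/-- sine table, step `2π/4096`, scaled by `2^20` -/
noncomputable def tab (i : Nat) : Nat :=
  Nat.mod (Nat.shiftRight (nat_lit 0x1000001000001000000fffff0ffff90ffff00fffe50fffd80fffc70fffb50fffa00fff880fff6f0fff520fff330fff120ffeee0ffec80ffe9f0ffe740ffe460ffe160ffde30ffdae0ffd770ffd3d0ffd000ffcc10ffc800ffc3c0ffbf60ffbad0ffb620ffb140ffac40ffa710ffa1c0ff9c50ff96b0ff90e0ff8af0ff84e0ff7ea0ff7830ff71b0ff6af0ff6420ff5d10ff55f0ff4ea0ff4720ff3f80ff37b0ff2fc0ff27b0ff1f70ff1710ff0e80ff05d0fefcf0fef3f0feeac0fee170fed800fece60fec490febaa0feb090fea650fe9bf0fe9160fe86b0fe7bd0fe70d0fe65b0fe5a60fe4ee0fe4340fe3780fe2b90fe1f80fe1340fe06e0fdfa60fdedb0fde0d0fdd3d0fdc6b0fdb960fdabf0fd9e50fd9090fd82a0fd7490fd6660fd5800fd4970fd3ad0fd2bf0fd1d00fd0dd0fcfe90fcef20fcdf80fccfd0fcbfe0fcafd0fc9fa0fc8f50fc7ed0fc6e20fc5d50fc4c60fc3b40fc2a00fc1890fc0700fbf550fbe370fbd160fbbf40fb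ace0fb9a70fb87d0fb7500fb6210fb4f00fb3bc0fb2860fb14d0fb0120faed50fad950fac530fab0e0fa9c70fa87d0fa7310fa5e30fa4920fa33f0fa1ea0fa0920f9f370f9dda0f9c7b0f9b190f99b50f984f0f96e60f957b0f940d0f929d0f912b0f8fb60f8e3f0f8cc50f8b490f89ca0f88490f86c60f85410f83b90f822e0f80a10f7f120f7d810f7bed0f7a560f78bd0f77220f75850f73e50f72420f709e0f6ef70f6d4d0f6ba10f69f30f68430f66900f64da0f63230f61690f5fac0f5ded0f5c2c0f5a690f58a30f56da0f55100f53430f51730f4fa20f4dcd0f4bf70f4a1e0f48430f46650f44860f42a30f40bf0f3ed80f3cee0f3b030f39150f37240f35320f333d0f31450f2f4c0f2d500f2b510f29500f274d0f25480f23400f21360f1f2a0f1d1b0f1b0a0f18f60f16e10f14c80f12ae0f10910f0e720f0c510f0a2d0f08070f05df0f03b40f01870eff580efd260efaf20ef8bc0ef6840ef4490ef20c0eefcc0eed8b0eeb470ee9000ee6b80ee46d0ee21f0edfd00edd7e0edb2a0ed8d40ed67b0ed4200ed1c30ecf630ecd010eca9d0ec8370ec5ce0ec3630ec0f60ebe860ebc140eb9a00eb72a0eb4b10eb2370eafb90ead3a0eaab80ea8340ea5ae0ea3260ea09b0e9e0e0e9b7f0e98ed0e965a0e93c40e912c0e8e910e8bf40e89550e86b40e84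110e816b0e7ec30e7c190e796d0e76be0e740d0e715a0e6ea50e6bed0e69340e66780e63ba0e60f90e5e360e5b720e58ab0e55e10e53160e50480e4d780e4aa60e47d20e44fb0e42230e3f480e3c6b0e398b0e36aa0e33c60e30e00e2df80e2b0e0e28220e25330e22420e1f4f0e1c5a0e19630e16690e136e0e10700e0d700e0a6e0e07690e04630e015a0dfe4f0dfb420df8330df5220df20e0deef90debe10de8c70de5ab0de28d0ddf6c0ddc4a0dd9250dd5ff0dd2d60dcfab0dcc7e0dc94e0dc61d0dc2e90dbfb40dbc7c0db9420db6060db2c80daf880dac460da9010da5bb0da2720d9f270d9bda0d988b0d953a0d91e70d8e920d8b3b0d87e10d84860d81280d7dc90d7a670d77030d739d0d70350d6ccb0d695f0d65f10d62800d5f0e0d5b9a0d58230d54ab0d51300d4db40d4a350d46b40d43320d3fad0d3c260d389d0d35120d31850d2df60d2a650d26d20d233d0d1fa60d1c0d0d18720d14d40d11350d0d940d09f10d064c0d02a40cfefb0cfb500cf7a30cf3f30cf0420cec8f0ce8da0ce5220ce1690cddae0cd9f10cd6320cd2700ccead0ccae80cc7210cc3580cbf8d0cbbc00cb7f10cb4200cb04d0cac790ca8a20ca4c90ca0ee0c9d120c99330c95530c91700c8d8c0c89a50c85bd0c81d30c7de70c79f90c76090c72170c6e230c6a2d0c663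60c623c0c5e410c5a430c56440c52430c4e400c4a3b0c46340c422b0c3e210c3a140c36060c31f50c2de30c29cf0c25b90c21a10c1d880c196c0c154f0c112f0c0d0e0c08eb0c04c60c00a00bfc770bf84d0bf4200beff20bebc20be7900be35d0bdf270bdaf00bd6b70bd27c0bce3f0bca010bc5c00bc17e0bbd3a0bb8f40bb4ad0bb0630bac180ba7cb0ba37c0b9f2b0b9ad90b96850b922f0b8dd70b897d0b85220b80c50b7c660b78050b73a30b6f3f0b6ad90b66710b62070b5d9c0b592f0b54c00b50500b4bde0b476a0b42f40b3e7c0b3a030b35880b310c0b2c8d0b280d0b238b0b1f080b1a820b15fb0b11730b0ce80b085c0b03ce0aff3f0afaae0af61b0af1860aecf00ae8580ae3be0adf230ada860ad5e70ad1470acca50ac8010ac35c0abeb50aba0d0ab5620ab0b60aac090aa7590aa2a90a9df60a99420a948c0a8fd50a8b1c0a86610a81a50a7ce70a78270a73660a6ea30a69df0a65190a60510a5b880a56bd0a51f10a4d230a48530a43820a3eaf0a39db0a35050a302e0a2b550a267a0a219e0a1cc00a17e10a13000a0e1e0a093a0a045409ff6d09fa8509f59b09f0af09ebc209e6d309e1e309dcf109d7fe09d30909ce1309c91b09c42109bf2609ba2a09b52c09b02d09ab2c09a62a09a126099c2109971a099212098d080987fd0982f0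097de20978d20973c1096eae09699a096485095f6e095a5609553c095021094b040945e60940c7093ba609368309315f092c3a0927140921ec091cc209179709126b090d3d09080e0902de08fdac08f87908f34408ee0e08e8d708e39e08de6408d92908d3ec08ceae08c96e08c42d08beeb08b9a708b46208af1c08a9d408a48b089f410899f50894a9088f5a088a0b0884ba087f67087a140874bf086f69086a110864b9085f5f085a030854a7084f490849ea084489083f270839c4083460082efb08299408242c081ec20819580813ec080e7f0809100803a107fe3007f8be07f34b07edd607e86107e2ea07dd7207d7f807d27e07cd0207c78507c20707bc8707b70707b18507ac0207a67e07a0f9079b720795eb079062078ad807854d077fc0077a330774a4076f150769840763f2075e5e0758ca075335074d9e07480607426d073cd307373807319c072bff0726600720c1071b2007157f070fdc070a3807049306feed06f94606f39e06edf406e84a06e29f06dcf206d74506d19606cbe606c63606c08406bad106b51d06af6806a9b306a3fc069e4406988b0692d1068d1606875a06819d067bdf067620067060066a9f0664dd065f1a065956065391064dcb06480406423c063c740636aa0630df062b13062547061f790619ab0613db060e0b0608390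6026705fc9405f6c005f0eb05eb1505e53e05df6605d98e05d3b405cdd905c7fe05c22205bc4505b66705b08805aaa805a4c7059ee6059903059320058d3c058757058171057b8a0575a3056fba0569d10563e7055dfc055811055224054c3705464805405a053a6a053479052e880528950522a2051caf0516ba0510c5050acf0504d804fee004f8e804f2ee04ecf404e6fa04e0fe04db0204d50504cf0704c90804c30904bd0904b70904b10704ab0504a502049efe0498fa0492f5048cef0486e90480e2047ada0474d2046ec80468bf0462b4045ca904569d045090044a83044475043e67043857043247042c37042626042014041a020413ef040ddb0407c70401b203fb9c03f58603ef6f03e95803e34003dd2703d70e03d0f403cada03c4bf03bea303b88703b26b03ac4d03a62f03a0110399f20393d3038db3038792038171037b4f03752d036f0a0368e70362c3035c9f03567a035055034a2f034408033de10337ba033192032b6a032541031f180318ee0312c3030c9903066d03004202fa1502f3e902edbc02e78e02e16002db3202d50302ced402c8a402c27402bc4302b61202afe102a9af02a37c029d4a0297170290e3028aaf02847b027e460278110271dc026ba6026570025f390259030252cb024c9402465c0240230239eb0233b2022d7802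273f022105021aca021490020e550208190201de01fba201f56501ef2901e8ec01e2af01dc7101d63401cff601c9b701c37901bd3a01b6fb01b0bc01aa7c01a43c019dfc0197bc01917b018b3a0184f9017eb8017876017234016bf20165b0015f6e01592b0152e8014ca501466201401e0139da013397012d5301270e0120ca011a85011441010dfc0107b701017100fb2c00f4e600eea100e85b00e21500dbcf00d58900cf4200c8fc00c2b500bc6e00b62700afe100a99900a352009d0b0096c400907c008a350083ed007da500775e007116006ace006486005e3e0057f60051ae004b6500451d003ed500388d003244002bfc0025b3001f6b0019220012da000c91000649000000) (Nat.mul (nat_lit 24) i)) (nat_lit 16777216)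

noncomputable def sinJ (i f : Nat) : Nat :=
  Nat.div (Nat.add (Nat.mul (tab i) (Nat.sub (nat_lit 16) f)) (Nat.mul (tab (Nat.succ i)) f))
    (nat_lit 16)

noncomputable def sinQ (z : Nat) : Nat := sinJ (Nat.div z (nat_lit 16)) (Nat.mod z (nat_lit 16))

noncomputable def sinI (y : Nat) : Nat :=
  sinQ (Bool.rec (motive := fun _ => Nat) (Nat.sub (nat_lit 32768) y) y (Nat.ble y (nat_lit 16384)))

noncomputable def sinU (y : Nat) : Nat := Nat.add (sinI y) (nat_lit 2)

noncomputable def sinLo (y : Nat) : Nat := Nat.sub (sinI y) (nat_lit 9)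

noncomputable def fpos (m1 y : Nat) : Nat :=
  Nat.add (nat_lit 268435457)
    (Nat.shiftRight (Nat.mul m1 (Nat.mul (sinU y) (nat_lit 40426))) (nat_lit 30))

noncomputable def fneg (m0 y : Nat) : Nat :=
  Nat.sub (nat_lit 268435456)
    (Nat.shiftRight (Nat.mul m0 (Nat.mul (sinLo y) (nat_lit 40425))) (nat_lit 30))

noncomputable def fieldW (m0 m1 y : Nat) : Nat :=
  Bool.rec (motive := fun _ => Nat)
    (Bool.rec (motive := fun _ => Nat)
      (fpos m1 (Nat.sub y (nat_lit 65536)))
      (fneg m0 (Nat.sub y (nat_lit 32768)))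
      (Nat.ble y (nat_lit 65536)))
    (fpos m1 y)
    (Nat.ble y (nat_lit 32768))

noncomputable def fieldV (m0 m1 p : Nat) : Nat := fieldW m0 m1 (Nat.sub p (nat_lit 65536))

noncomputable def curv (m1 d : Nat) : Nat :=
  Nat.succ (Nat.shiftRight (Nat.mul m1 (Nat.mul (Nat.mul d d) (nat_lit 199494))) (nat_lit 42))

/-- slack constants for one row -/
noncomputable def rowC (N m1 dm a b : Nat) : Nat :=
  Nat.add (curv m1 (Nat.add (Nat.sub a b) (Nat.sub b a)))
    (Nat.mul N (Nat.succ (Nat.shiftRight (Nat.mul (Nat.mul dm dm) (nat_lit 6923)) (nat_lit 32))))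

noncomputable def rowA (N m0 m1 dm a b : Nat) (p t : PL) : Bool :=
  Nat.blt (Nat.add (Nat.add (sumV a b p) (sumV (Nat.add a (nat_lit 65536)) (Nat.add b (nat_lit 65536)) t))
      (Nat.add (fieldV m0 m1 a) (rowC N m1 dm a b)))
    (Nat.mul N (nat_lit 268435456))

noncomputable def rowB (N m0 m1 dm a b : Nat) (p t : PL) : Bool :=
  Nat.blt (Nat.add (Nat.add (sumW a b p) (sumW (Nat.add a (nat_lit 65536)) (Nat.add b (nat_lit 65536)) t))
      (Nat.add (fieldV m0 m1 b) (rowC N m1 dm a b)))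
    (Nat.mul N (nat_lit 268435456))

/-- Forces at all sites of the list are negative along the segment. -/
noncomputable def segRows (N m0 m1 C dm : Nat) (l : PL) : PL → Bool :=
  PL.rec (motive := fun _ => PL → Bool) (fun _ => true)
    (fun a b t ih p =>
      bAnd (bOr (Nat.ble (Nat.add C C) (Nat.add a b))
        (bAnd (rowA N m0 m1 dm a b p t) (rowB N m0 m1 dm a b p t)))
        (ih (PL.cons a b p))) l

noncomputable def segOK (N m0 m1 C : Nat) (A B : Nat → Nat) : Bool :=
  bAnd (allN (fun k => Nat.ble (B k) (A k)) N)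
  (bAnd (allN (fun k => bAnd (Nat.blt (A k) (A (Nat.succ k))) (Nat.blt (B k) (B (Nat.succ k))))
    (Nat.pred N))
  (bAnd (Nat.ble (A (Nat.pred N)) C)
  (bAnd (Nat.ble (A (Nat.pred N)) (Nat.add (A (nat_lit 0)) (nat_lit 65536)))
  (bAnd (Nat.ble (B (Nat.pred N)) (Nat.add (B (nat_lit 0)) (nat_lit 65536)))
  (bAnd (Nat.ble (nat_lit 65536) (B (nat_lit 1)))
  (bAnd (Nat.ble C (nat_lit 163840))
  (segRows N m0 m1 C (maxN (fun k => Nat.sub (A k) (B k)) N)
    (mkUp A B (Nat.pred N) (nat_lit 1)) (PL.cons (A (nat_lit 0)) (B (nat_lit 0)) PL.nil))))))))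

noncomputable def segs (N m0 m1 C : Nat) (l : List Nat) : Nat → Bool :=
  List.rec (motive := fun _ => Nat → Bool) (fun _ => true)
    (fun z' _ ih z => bAnd (segOK N m0 m1 C (dig z) (dig z')) (ih z')) l

noncomputable def segsTo (N m0 m1 C fin : Nat) (l : List Nat) : Nat → Bool :=
  List.rec (motive := fun _ => Nat → Bool) (fun z => segOK N m0 m1 C (dig z) (dig fin))
    (fun z' _ ih z => bAnd (segOK N m0 m1 C (dig z) (dig z')) (ih z')) l

/-- list of groups of configurations -/
inductive GrpL where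
  | nil : GrpL
  | cons (C z0 : Nat) (tr : List Nat) (fin : Nat) (ch : List Nat) (t : GrpL) : GrpL

noncomputable def trainOK (N m0 m1 C z0 : Nat) (tr : List Nat) (fin : Nat) : Bool :=
  bAnd (Nat.ble C (Nat.add (dig fin (nat_lit 0)) (nat_lit 65536)))
  (bAnd (Nat.ble C (dig z0 (Nat.pred N)))
  (bAnd (allN (fun i => Nat.ble (dig fin (Nat.succ (Nat.succ i))) (dig z0 (Nat.succ i)))
    (Nat.sub N (nat_lit 2)))
  (segsTo N m0 m1 C fin tr z0)))

noncomputable def groupsOK (N m0 m1 : Nat) (G : GrpL) : Bool :=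
  GrpL.rec (motive := fun _ => Bool) true
    (fun C z0 tr fin ch _ ih =>
      bAnd (trainOK N m0 m1 C z0 tr fin) (bAnd (segs N m0 m1 C ch fin) ih)) G

/-- list of upper bounds: cap and configuration -/
inductive EntL where
  | nil : EntL
  | cons (C : Nat) (f : Nat → Nat) (t : EntL) : EntL

noncomputable def itp (z z' j D : Nat) : Nat → Nat := fun k =>
  Nat.sub (dig z k) (Nat.div (Nat.mul (Nat.sub (dig z k) (dig z' k)) j) D)

noncomputable def blk (C z z' D : Nat) (tail : EntL) : EntL :=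
  Nat.rec (motive := fun _ => EntL) tail
    (fun i ih => EntL.cons C (itp z z' (Nat.sub (Nat.sub D (nat_lit 1)) i) D) ih) D

noncomputable def entsC (D C : Nat) (last : Bool) (tail : EntL) (l : List Nat) : Nat → EntL :=
  List.rec (motive := fun _ => Nat → EntL)
    (fun z => Bool.rec (motive := fun _ => EntL) tail (EntL.cons C (dig z) tail) last)
    (fun z' _ ih z => blk C z z' D (ih z')) l

noncomputable def isNil (G : GrpL) : Bool :=
  GrpL.rec (motive := fun _ => Bool) true (fun _ _ _ _ _ _ _ => false) G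

noncomputable def ents (D : Nat) (G : GrpL) : EntL :=
  GrpL.rec (motive := fun _ => EntL) EntL.nil
    (fun C _ _ fin ch t ih => entsC D C (isNil t) ih ch fin) G

/-- pinned coordinates must be divisible -/
noncomputable def divC (D : Nat) (l : List Nat) : Nat → Bool :=
  List.rec (motive := fun _ => Nat → Bool) (fun _ => true)
    (fun z' _ ih z => bAnd (Nat.ble (Nat.mod (Nat.sub (dig z (nat_lit 0)) (dig z' (nat_lit 0))) D)
      (nat_lit 0)) (ih z')) l

noncomputable def divG (D : Nat) (G : GrpL) : Bool :=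
  GrpL.rec (motive := fun _ => Bool) true (fun _ _ _ fin ch _ ih => bAnd (divC D ch fin) ih) G

noncomputable def rev (E : EntL) : EntL → EntL :=
  EntL.rec (motive := fun _ => EntL → EntL) (fun acc => acc)
    (fun C f _ ih acc => ih (EntL.cons C f acc)) E

noncomputable def cz (p : Nat) : Nat :=
  Bool.rec (motive := fun _ => Nat)
    (Bool.rec (motive := fun _ => Nat)
      (Nat.sub (nat_lit 1048576) (sinLo (Nat.sub (nat_lit 81920) p)))
      (Nat.add (nat_lit 1048576) (sinU (Nat.sub p (nat_lit 81920))))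
      (Nat.ble (nat_lit 81920) p))
    (nat_lit 2097152)
    (Nat.ble (nat_lit 98304) p)

noncomputable def zz (N : Nat) (u w : Nat → Nat) (k : Nat) : Nat :=
  Nat.rec (motive := fun _ => Nat) (u (nat_lit 0)) (fun k' _ =>
    nmin (u (Nat.succ k')) (w (Nat.sub N (Nat.succ k')))) k

noncomputable def mtest (N m0 : Nat) (u w : Nat → Nat) : Bool :=
  Nat.blt (sumN (fun k => cz (zz N u w k)) N)
    (Nat.add (Nat.mul N (nat_lit 1048576)) (Nat.mul m0 (nat_lit 1024)))

noncomputable def smx (h l : Nat) : Nat :=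
  Bool.rec (motive := fun _ => Nat)
    (Bool.rec (motive := fun _ => Nat) (nat_lit 1048576) (sinU l) (Nat.ble (nat_lit 16384) l))
    (sinU h) (Nat.ble h (nat_lit 16384))

noncomputable def g3 (N h l P Q : Nat) : Nat :=
  Nat.mul (smx h l) (Nat.sub (Nat.add (Nat.mul (Nat.mul N (sinU h)) (nat_lit 1024))
    (Nat.mul (Nat.sub P Q) (nat_lit 102944))) (Nat.mul (Nat.sub Q P) (nat_lit 102943)))

noncomputable def gpos (N c0 hi lo k : Nat) : Nat :=
  g3 N (Nat.sub (nmin hi (nat_lit 98304)) (nat_lit 65536)) (Nat.sub lo (nat_lit 65536))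
    (Nat.mul N (Nat.sub (nmin hi (nat_lit 98304)) (nat_lit 65536)))
    (Nat.add (Nat.mul (nat_lit 65536) k) (Nat.mul N c0))

noncomputable def gneg (N c0 hi lo k : Nat) : Nat :=
  g3 N (Nat.sub (nmin hi (nat_lit 98304)) (nat_lit 65536)) (Nat.sub lo (nat_lit 65536))
    (Nat.add (Nat.mul N (Nat.sub (nmin hi (nat_lit 98304)) (nat_lit 65536))) (Nat.mul N c0))
    (Nat.mul (nat_lit 65536) k)

noncomputable def t2k (N c0 U W k : Nat) : Nat :=
  bIf (Nat.ble U (nat_lit 98304)) (gpos N c0 U (Nat.sub (nat_lit 196608) W) k)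
    (bIf (Nat.ble W (nat_lit 98304)) (gneg N c0 W (Nat.sub (nat_lit 196608) U) (Nat.sub N k))
      (nmax (gpos N c0 U (Nat.sub (nat_lit 196608) W) k)
        (gneg N c0 W (Nat.sub (nat_lit 196608) U) (Nat.sub N k))))

noncomputable def t2f (N c0 : Nat) (u w : Nat → Nat) (k : Nat) : Nat :=
  Nat.rec (motive := fun _ => Nat)
    (gpos N c0 (u (nat_lit 0)) (Nat.sub (nat_lit 131072) (w (nat_lit 0))) (nat_lit 0))
    (fun k' _ => t2k N c0 (u (Nat.succ k')) (w (Nat.sub N (Nat.succ k'))) (Nat.succ k')) k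

noncomputable def lamT (N p : Nat) : Nat :=
  (fun s => Nat.sub (Nat.div (nat_lit 2199023255552) s) s)
    (sinU (Nat.div (Nat.add (Nat.mul (nat_lit 65536) (nmin (Nat.succ p) (Nat.sub N (Nat.succ p))))
      (Nat.sub (Nat.mul (nat_lit 2) N) (nat_lit 1))) (Nat.mul (nat_lit 2) N)))

noncomputable def lamN (N : Nat) : Nat :=
  Nat.div (sumN (lamT N) (Nat.pred N)) (nat_lit 4)

noncomputable def t2test (N : Nat) (u w : Nat → Nat) : Bool :=
  Nat.blt (sumN (t2f N (Nat.div (Nat.sub (u (nat_lit 0)) (w (nat_lit 0))) (nat_lit 2)) u w) N)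
    (Nat.mul (Nat.mul (lamN N) N) (nat_lit 1073741824))

noncomputable def cover (N m0 : Nat) (us : EntL) : EntL → Nat → Bool :=
  EntL.rec (motive := fun _ => EntL → Nat → Bool) (fun _ _ => false)
    (fun Cu u _ ih ws cur => EntL.rec (motive := fun _ => Bool) false
      (fun Cw w wt _ =>
        bAnd (Nat.ble cur (u (nat_lit 0)))
        (bAnd (Nat.ble (Nat.add (w (nat_lit 0)) (nat_lit 65536)) Cu)
        (bAnd (Nat.ble (Nat.add (w (nat_lit 0)) (nat_lit 65536)) Cw)
        (bAnd (bOr (mtest N m0 u w) (t2test N u w))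
        (bOr (Nat.ble (nat_lit 65536) (w (nat_lit 0)))
          (ih wt (Nat.sub (nat_lit 131072) (w (nat_lit 0))))))))) ws) us

/-- terminal check on the last configuration, and covering check. -/
noncomputable def finish (N m0 : Nat) (E R : EntL) : Bool :=
  EntL.rec (motive := fun _ => Bool) false
    (fun C f t _ =>
      bAnd (Nat.blt (Nat.add (f (nat_lit 1)) (f (nat_lit 0))) (nat_lit 131072))
      (bAnd (Nat.ble (Nat.add (f (nat_lit 0)) (nat_lit 65536)) C)
      (cover N m0 E t (Nat.sub (nat_lit 131072) (f (nat_lit 0)))))) R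

noncomputable def cellOK (N m0 m1 D : Nat) (G : GrpL) : Bool :=
  bAnd (Nat.ble (nat_lit 1) D)
  (bAnd (divG D G)
  (bAnd (groupsOK N m0 m1 G)
    (finish N m0 (ents D G) (rev (ents D G) EntL.nil))))

/-- some certificate exists for the cell `(m0, m1] / 1024` -/
def CellEx (N m0 m1 : Nat) : Prop := ∃ D : Nat, ∃ G : GrpL, cellOK N m0 m1 D G = true

end Pool.Agent.Helper99.Ring9
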