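import Mathlib
import Pool.Agent.Helper99.Ring9.Defs
import Pool.Agent.Helper99.Ring9.Comp

namespace Pool.Agent.Helper99.Ring9

open Real Finset

/-- grid step -/
noncomputable def hh : ℝ := π / 32768

/-- force scale -/
noncomputable def FS : ℝ := 4096 * π ^ 2

lemma hh_pos : 0 < hh := by unfold hh; positivity

lemma FS_pos : 0 < FS := by unfold FS; positivity

lemma FS_eq : FS = 4398046511104 * hh ^ 2 := by unfold FS hh; ring

lemma two_pi_eq : 2 * π = 65536 * hh := by unfold hh; ring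

lemma pi_eq : π = 32768 * hh := by unfold hh; ring

lemma bIf_eq (b : Bool) (x y : ℕ) : bIf b x y = if b = true then x else y := by
  cases b <;> rfl

lemma bIf_ble (a b x y : ℕ) : bIf (Nat.ble a b) x y = if a ≤ b then x else y := by
  rw [bIf_eq]; simp only [Nat.ble_eq]

lemma nmax_eq (a b : ℕ) : nmax a b = max a b := by
  have h : nmax a b = bIf (Nat.ble a b) b a := rfl
  rw [h, bIf_ble]
  rcases le_total a b with h1 | h1
  · rw [if_pos h1, max_eq_right h1]
  · split_ifs with h2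
    · rw [max_eq_right h2]
    · rw [max_eq_left h1]

lemma nmin_eq (a b : ℕ) : nmin a b = min a b := by
  have h : nmin a b = bIf (Nat.ble a b) a b := rfl
  rw [h, bIf_ble]
  rcases le_total a b with h1 | h1
  · rw [if_pos h1, min_eq_left h1]
  · split_ifs with h2
    · rw [min_eq_left h2]
    · rw [min_eq_right h1]

lemma VA_eq (s s' : ℕ) : VA s s' = if s ≤ 32768 then nearv s else if s' ≤ 32768 then nearv s'
    else vfx (65536 - s) (65536 - s') (65536 - s) (65536 - s') := by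
  have h : VA s s' = bIf (Nat.ble s 32768) (nearv s) (bIf (Nat.ble s' 32768) (nearv s')
    (vfx (65536 - s) (65536 - s') (65536 - s) (65536 - s'))) := rfl
  rw [h, bIf_ble, bIf_ble]

lemma VB_eq (s s' : ℕ) : VB s s' = if s' ≤ 32768 then nearv s' else if s ≤ 32768 then nearv s
    else vfx (65536 - s) (65536 - s') (65536 - s') (65536 - s) := by
  have h : VB s s' = bIf (Nat.ble s' 32768) (nearv s') (bIf (Nat.ble s 32768) (nearv s)
    (vfx (65536 - s) (65536 - s') (65536 - s') (65536 - s))) := rfl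
  rw [h, bIf_ble, bIf_ble]

lemma nearv_eq (s : ℕ) : nearv s = (268433773 + 4398046511104 / (s * s)) -
    ((s * s / 2 ^ 14) * (22759247061 + (s * s / 2 ^ 14) * 236900)) / 2 ^ 40 := by
  have h : nearv s = (268433773 + 4398046511104 / (s * s)) -
    (((s * s) >>> 14) * (22759247061 + ((s * s) >>> 14) * 236900)) >>> 40 := rfl
  rw [h, Nat.shiftRight_eq_div_pow, Nat.shiftRight_eq_div_pow]

lemma farR_eq (q : ℕ) : farR q = 268437142 +
    ((q / 2 ^ 14 + 1) * (24404860950 + (q / 2 ^ 14 + 1) * 246983)) / 2 ^ 40 := by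
  have h : farR q = 268437142 +
    (((q >>> 14) + 1) * (24404860950 + ((q >>> 14) + 1) * 246983)) >>> 40 := rfl
  rw [h, Nat.shiftRight_eq_div_pow, Nat.shiftRight_eq_div_pow]

lemma farQ_eq (g g' o t c d : ℕ) : farQ g g' o t c d =
    if 5 * d ≤ c then (17592186044416 * (3 * t - o)) / c ^ 3 else
      4398046511104 / (max g g' * max g g') := by
  have h : farQ g g' o t c d = bIf (Nat.ble (5 * d) c) ((17592186044416 * (3 * t - o)) / c ^ 3)
      (4398046511104 / (nmax g g' * nmax g g')) := rfl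
  rw [h, bIf_ble, nmax_eq]

lemma vfx_eq (g g' o t : ℕ) : vfx g g' o t =
    farR (o * o) - farQ g g' o t (g + g') ((g - g') + (g' - g)) := rfl

/-! numeric constants -/

lemma pi_lo : (3.141592 : ℝ) < π := pi_gt_d6
lemma pi_hi : π < (3.141593 : ℝ) := pi_lt_d6

lemma pi2_lo : (9.869604401 : ℝ) < π ^ 2 := by
  have h := pi_gt_d20
  have h1 : (3.14159265358 : ℝ) < π := by norm_num at h ⊢; linarith
  nlinarith
lemma pi2_hi : π ^ 2 < (9.869604402 : ℝ) := by
  have h := pi_lt_d20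
  have h1 : π < (3.14159265359 : ℝ) := by norm_num at h ⊢; linarith
  nlinarith [pi_pos]
lemma pi4_lo : (97.409091 : ℝ) < π ^ 4 := by nlinarith [pi2_lo]
lemma pi4_hi : π ^ 4 < (97.409092 : ℝ) := by nlinarith [pi2_hi, pi2_lo]
lemma pi6_lo : (961.389 : ℝ) < π ^ 6 := by nlinarith [pi2_lo, pi4_lo]
lemma pi6_hi : π ^ 6 < (961.3893 : ℝ) := by nlinarith [pi2_hi, pi4_hi, pi2_lo, pi4_lo]

/-- `ρ` lower polynomial -/
noncomputable def rL (x : ℝ) : ℝ := 1 / 24 + 0.0034 * x ^ 2 + 0.000235 * x ^ 4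
/-- `ρ` upper polynomial -/
noncomputable def rU (x : ℝ) : ℝ := 1 / 24 + 7 / 1920 * x ^ 2 + 0.000245 * x ^ 4

lemma cast_div_le' (a b : ℕ) : ((a / b : ℕ) : ℝ) ≤ (a : ℝ) / b := Nat.cast_div_le

lemma lt_cast_div_add_one (a b : ℕ) (hb : 0 < b) : (a : ℝ) / b < ((a / b : ℕ) : ℝ) + 1 := by
  have hb' : (0 : ℝ) < b := by exact_mod_cast hb
  rw [div_lt_iff₀ hb']
  have h : a < (a / b + 1) * b := by
    have := Nat.lt_div_mul_add hb (a := a)
    calc a < a / b * b + b := this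
      _ = (a / b + 1) * b := by ring
  exact_mod_cast h

lemma le_cast_sub (a b : ℕ) : (a : ℝ) - b ≤ ((a - b : ℕ) : ℝ) := by
  rcases le_total b a with h | h
  · rw [Nat.cast_sub h]
  · have h1 : (a : ℝ) ≤ b := by exact_mod_cast h
    have h2 : (0 : ℝ) ≤ ((a - b : ℕ) : ℝ) := by positivity
    linarith

lemma near_bound (s : ℕ) (hs : 0 < s) :
    FS * (1 / ((s : ℝ) * hh) ^ 2 - rL ((s : ℝ) * hh)) ≤ (nearv s : ℝ) - 268435456 := by
  rw [nearv_eq]
  set q : ℕ := s * s with hq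
  have hq0 : 0 < q := by positivity
  have hq0' : (0 : ℝ) < q := by exact_mod_cast hq0
  have hqr : (q : ℝ) = (s : ℝ) ^ 2 := by rw [hq]; push_cast; ring
  set Q : ℕ := q / 2 ^ 14 with hQ
  have hQle : (Q : ℝ) ≤ (q : ℝ) / 16384 := by
    have := cast_div_le' q (2 ^ 14)
    rw [← hQ] at this
    refine this.trans (le_of_eq ?_)
    norm_num
  have hQ0 : (0 : ℝ) ≤ Q := by positivity
  have h1 := le_cast_sub (268433773 + 4398046511104 / q)
    ((Q * (22759247061 + Q * 236900)) / 2 ^ 40)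
  have h2 := lt_cast_div_add_one 4398046511104 q hq0
  have h3 := cast_div_le' (Q * (22759247061 + Q * 236900)) (2 ^ 40)
  push_cast at h1 h2 h3
  have h4 : (Q : ℝ) * (22759247061 + Q * 236900) ≤
      (q : ℝ) / 16384 * (22759247061 + (q : ℝ) / 16384 * 236900) := by
    gcongr
  have hFS : FS * (1 / ((s : ℝ) * hh) ^ 2) = 4398046511104 / q := by
    rw [FS_eq, hqr]
    have := hh_pos.ne'
    have hs' : (s : ℝ) ≠ 0 := by positivity
    field_simp
  have e2 : ((s : ℝ) * hh) ^ 2 = q * (π ^ 2 / 2 ^ 30) := by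
    rw [hqr]; unfold hh; ring
  have e4 : ((s : ℝ) * hh) ^ 4 = q ^ 2 * (π ^ 4 / 2 ^ 60) := by
    rw [hqr]; unfold hh; ring
  have hR : 1684 + (q : ℝ) / 16384 * (22759247061 + (q : ℝ) / 16384 * 236900) / 2 ^ 40 ≤
      FS * rL ((s : ℝ) * hh) := by
    unfold rL FS
    rw [e2, e4]
    have a1 : (1684 : ℝ) ≤ 4096 * π ^ 2 * (1 / 24) := by nlinarith [pi2_lo]
    have a2 : (22759247061 / 16384 / 2 ^ 40 : ℝ) ≤ 4096 * 0.0034 / 2 ^ 30 * π ^ 4 := by
      have := pi4_lo
      norm_num at this ⊢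
      linarith
    have a3 : (236900 / 16384 / 16384 / 2 ^ 40 : ℝ) ≤ 4096 * 0.000235 / 2 ^ 60 * π ^ 6 := by
      have := pi6_lo
      norm_num at this ⊢
      linarith
    have b2 := mul_le_mul_of_nonneg_left a2 hq0'.le
    have b3 := mul_le_mul_of_nonneg_left a3 (sq_nonneg (q : ℝ))
    nlinarith
  have h5 : ((q : ℝ) / 16384 * (22759247061 + (q : ℝ) / 16384 * 236900)) / 2 ^ 40 ≥
      ((Q : ℝ) * (22759247061 + Q * 236900)) / 2 ^ 40 := by
    apply div_le_div_of_nonneg_right h4 (by positivity)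
  rw [mul_sub, hFS]
  push_cast
  linarith

lemma farR_bound (o : ℕ) :
    FS * rU ((o : ℝ) * hh) ≤ (farR (o * o) : ℝ) - 268435456 := by
  rw [farR_eq]
  set q : ℕ := o * o with hq
  have hq0' : (0 : ℝ) ≤ q := by positivity
  have hqr : (q : ℝ) = (o : ℝ) ^ 2 := by rw [hq]; push_cast; ring
  set Q : ℕ := q / 2 ^ 14 with hQ
  have hQle : (q : ℝ) / 16384 ≤ (Q : ℝ) + 1 := by
    have := lt_cast_div_add_one q (2 ^ 14) (by norm_num)
    rw [← hQ] at this
    refine le_trans (le_of_eq ?_) this.le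
    norm_num
  have h3 := lt_cast_div_add_one ((Q + 1) * (24404860950 + (Q + 1) * 246983)) (2 ^ 40)
    (by norm_num)
  push_cast at h3
  have h4 : (q : ℝ) / 16384 * (24404860950 + (q : ℝ) / 16384 * 246983) ≤
      ((Q : ℝ) + 1) * (24404860950 + ((Q : ℝ) + 1) * 246983) := by
    gcongr
  have e2 : ((o : ℝ) * hh) ^ 2 = q * (π ^ 2 / 2 ^ 30) := by
    rw [hqr]; unfold hh; ring
  have e4 : ((o : ℝ) * hh) ^ 4 = q ^ 2 * (π ^ 4 / 2 ^ 60) := by
    rw [hqr]; unfold hh; ring
  have hR : FS * rU ((o : ℝ) * hh) ≤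
      1685 + (q : ℝ) / 16384 * (24404860950 + (q : ℝ) / 16384 * 246983) / 2 ^ 40 := by
    unfold rU FS
    rw [e2, e4]
    have a1 : 4096 * π ^ 2 * (1 / 24) ≤ (1685 : ℝ) := by nlinarith [pi2_hi]
    have a2 : 4096 * (7 / 1920) / 2 ^ 30 * π ^ 4 ≤ (24404860950 / 16384 / 2 ^ 40 : ℝ) := by
      have := pi4_hi
      norm_num at this ⊢
      linarith
    have a3 : 4096 * 0.000245 / 2 ^ 60 * π ^ 6 ≤ (246983 / 16384 / 16384 / 2 ^ 40 : ℝ) := by
      have := pi6_hi
      norm_num at this ⊢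
      linarith
    have b2 := mul_le_mul_of_nonneg_left a2 hq0'
    have b3 := mul_le_mul_of_nonneg_left a3 (sq_nonneg (q : ℝ))
    nlinarith
  have h5 : ((q : ℝ) / 16384 * (24404860950 + (q : ℝ) / 16384 * 246983)) / 2 ^ 40 ≤
      (((Q : ℝ) + 1) * (24404860950 + ((Q : ℝ) + 1) * 246983)) / 2 ^ 40 := by
    apply div_le_div_of_nonneg_right h4 (by positivity)
  push_cast
  linarith

lemma tangent_inv_sq (a x : ℝ) (ha : 0 < a) (hx : 0 < x) : (3 * x - 2 * a) / x ^ 3 ≤ 1 / a ^ 2 := by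
  rw [div_le_div_iff₀ (by positivity) (by positivity)]
  nlinarith [mul_nonneg (sq_nonneg (x - a)) (by positivity : 0 ≤ x + 2 * a)]

lemma chord_inv_sq (a b t : ℝ) (ha : 0 < a) (hb : 0 < b) (h0 : 0 ≤ t) (h1 : t ≤ 1) :
    1 / ((1 - t) * a + t * b) ^ 2 ≤ (1 - t) * (1 / a ^ 2) + t * (1 / b ^ 2) := by
  have hx : 0 < (1 - t) * a + t * b := by
    rcases h0.eq_or_lt with h | h
    · rw [← h]; simpa using ha
    · have := mul_pos h hb
      have := mul_nonneg (sub_nonneg.2 h1) ha.le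
      linarith
  set x := (1 - t) * a + t * b with hxd
  have k1 := mul_le_mul_of_nonneg_left (tangent_inv_sq a x ha hx) (sub_nonneg.2 h1)
  have k2 := mul_le_mul_of_nonneg_left (tangent_inv_sq b x hb hx) h0
  have e : (1 - t) * ((3 * x - 2 * a) / x ^ 3) + t * ((3 * x - 2 * b) / x ^ 3) = 1 / x ^ 2 := by
    have : (1 - t) * (3 * x - 2 * a) + t * (3 * x - 2 * b) = x := by rw [hxd]; ring
    calc _ = ((1 - t) * (3 * x - 2 * a) + t * (3 * x - 2 * b)) / x ^ 3 := by ring
      _ = x / x ^ 3 := by rw [this]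
      _ = _ := by field_simp
  linarith

lemma rL_chord (a b t : ℝ) (ha : 0 ≤ a) (hb : 0 ≤ b) (ha' : a ≤ π) (hb' : b ≤ π) (h0 : 0 ≤ t)
    (h1 : t ≤ 1) :
    (1 - t) * rL a + t * rL b ≤ rL ((1 - t) * a + t * b) + 0.0347 * (a - b) ^ 2 / 8 := by
  unfold rL
  set x := (1 - t) * a + t * b with hx
  have hx0 : 0 ≤ x := by
    have := mul_nonneg (sub_nonneg.2 h1) ha
    have := mul_nonneg h0 hb
    linarith
  have hxp : x ≤ π := by
    have := mul_le_mul_of_nonneg_left ha' (sub_nonneg.2 h1)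
    have := mul_le_mul_of_nonneg_left hb' h0
    linarith
  have e2 : (1 - t) * a ^ 2 + t * b ^ 2 - x ^ 2 = t * (1 - t) * (a - b) ^ 2 := by
    rw [hx]; ring
  have e4 : (1 - t) * a ^ 4 + t * b ^ 4 - x ^ 4 = t * (1 - t) * (a - b) ^ 2 *
      (a ^ 2 + x ^ 2 + b ^ 2 + a * x + a * b + x * b) := by
    rw [hx]; ring
  have hpi := pi2_hi
  have hM : a ^ 2 + x ^ 2 + b ^ 2 + a * x + a * b + x * b ≤ 6 * 9.869604402 := by
    have ha2 : a ^ 2 ≤ π ^ 2 := pow_le_pow_left₀ ha ha' 2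
    have hb2 : b ^ 2 ≤ π ^ 2 := pow_le_pow_left₀ hb hb' 2
    have hx2 : x ^ 2 ≤ π ^ 2 := pow_le_pow_left₀ hx0 hxp 2
    have hax : a * x ≤ π ^ 2 := by
      rw [sq]; exact mul_le_mul ha' hxp hx0 pi_pos.le
    have hab : a * b ≤ π ^ 2 := by
      rw [sq]; exact mul_le_mul ha' hb' hb pi_pos.le
    have hxb : x * b ≤ π ^ 2 := by
      rw [sq]; exact mul_le_mul hxp hb' hb pi_pos.le
    linarith
  have ht : t * (1 - t) ≤ 1 / 4 := by nlinarith [sq_nonneg (t - 1 / 2)]
  have ht0 : 0 ≤ t * (1 - t) := mul_nonneg h0 (sub_nonneg.2 h1)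
  have hs : 0 ≤ (a - b) ^ 2 := sq_nonneg _
  have k1 : t * (1 - t) * (a - b) ^ 2 ≤ 1 / 4 * (a - b) ^ 2 := mul_le_mul_of_nonneg_right ht hs
  have k2 : t * (1 - t) * (a - b) ^ 2 * (a ^ 2 + x ^ 2 + b ^ 2 + a * x + a * b + x * b) ≤
      1 / 4 * (a - b) ^ 2 * (6 * 9.869604402) := by
    apply mul_le_mul k1 hM
    · positivity
    · positivity
  nlinarith

lemma rU_chord (a b t : ℝ) (ha : 0 ≤ a) (hb : 0 ≤ b) (h0 : 0 ≤ t) (h1 : t ≤ 1) :
    rU ((1 - t) * a + t * b) ≤ (1 - t) * rU a + t * rU b := by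
  unfold rU
  set x := (1 - t) * a + t * b with hx
  have hx0 : 0 ≤ x := by
    have := mul_nonneg (sub_nonneg.2 h1) ha
    have := mul_nonneg h0 hb
    linarith
  have e2 : (1 - t) * a ^ 2 + t * b ^ 2 - x ^ 2 = t * (1 - t) * (a - b) ^ 2 := by
    rw [hx]; ring
  have e4 : (1 - t) * a ^ 4 + t * b ^ 4 - x ^ 4 = t * (1 - t) * (a - b) ^ 2 *
      (a ^ 2 + x ^ 2 + b ^ 2 + a * x + a * b + x * b) := by
    rw [hx]; ring
  have ht0 : 0 ≤ t * (1 - t) := mul_nonneg h0 (sub_nonneg.2 h1)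
  have k1 : 0 ≤ t * (1 - t) * (a - b) ^ 2 := by positivity
  have k2 : 0 ≤ t * (1 - t) * (a - b) ^ 2 *
      (a ^ 2 + x ^ 2 + b ^ 2 + a * x + a * b + x * b) := by positivity
  nlinarith

lemma near_single (x : ℝ) (s : ℕ) (hs : 0 < s) (hs' : s ≤ 32768) (hx : (s : ℝ) * hh ≤ x)
    (hx' : x < 2 * π) : FS * ph x ≤ (nearv s : ℝ) - 268435456 := by
  have hp : 0 < (s : ℝ) * hh := by
    have := hh_pos
    positivity
  have h1 := ph_le _ _ hp hx hx'
  have hsr : (s : ℝ) ≤ 32768 := by exact_mod_cast hs'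
  have h2 := ph_upper ((s : ℝ) * hh) hp (by
    rw [pi_eq]; exact mul_le_mul_of_nonneg_right hsr hh_pos.le)
  have h3 := near_bound s hs
  have h4 := mul_le_mul_of_nonneg_left (h1.trans h2) FS_pos.le
  unfold rL at h3
  linarith

lemma near_pair (s s' : ℕ) (t : ℝ) (hs : 0 < s) (hs' : 0 < s') (hS : s ≤ 32768)
    (hS' : s' ≤ 32768) (h0 : 0 ≤ t) (h1 : t ≤ 1) :
    FS * ph (((1 - t) * s + t * s') * hh) ≤ (1 - t) * ((nearv s : ℝ) - 268435456) +
      t * ((nearv s' : ℝ) - 268435456) + FS * (0.0347 * (((s : ℝ) - s') * hh) ^ 2 / 8) := by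
  have hp : 0 < hh := hh_pos
  have ha : 0 < (s : ℝ) * hh := by positivity
  have hb : 0 < (s' : ℝ) * hh := by positivity
  have hsr : (s : ℝ) ≤ 32768 := by exact_mod_cast hS
  have hsr' : (s' : ℝ) ≤ 32768 := by exact_mod_cast hS'
  have ha' : (s : ℝ) * hh ≤ π := by rw [pi_eq]; exact mul_le_mul_of_nonneg_right hsr hp.le
  have hb' : (s' : ℝ) * hh ≤ π := by rw [pi_eq]; exact mul_le_mul_of_nonneg_right hsr' hp.le
  have ex : ((1 - t) * s + t * s') * hh = (1 - t) * ((s : ℝ) * hh) + t * ((s' : ℝ) * hh) := by ring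
  rw [ex]
  have hx : 0 < (1 - t) * ((s : ℝ) * hh) + t * ((s' : ℝ) * hh) := by
    rcases h0.eq_or_lt with h | h
    · rw [← h]; simpa using ha
    · have := mul_pos h hb
      have := mul_nonneg (sub_nonneg.2 h1) ha.le
      linarith
  have hx' : (1 - t) * ((s : ℝ) * hh) + t * ((s' : ℝ) * hh) ≤ π := by
    have := mul_le_mul_of_nonneg_left ha' (sub_nonneg.2 h1)
    have := mul_le_mul_of_nonneg_left hb' h0
    linarith
  have k1 := ph_upper _ hx hx'
  have k2 := chord_inv_sq _ _ t ha hb h0 h1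
  have k3 := rL_chord _ _ t ha.le hb.le ha' hb' h0 h1
  have k4 := near_bound s hs
  have k5 := near_bound s' hs'
  have k6 : ph ((1 - t) * ((s : ℝ) * hh) + t * ((s' : ℝ) * hh)) ≤
      (1 - t) * (1 / ((s : ℝ) * hh) ^ 2 - rL ((s : ℝ) * hh)) +
      t * (1 / ((s' : ℝ) * hh) ^ 2 - rL ((s' : ℝ) * hh)) +
        0.0347 * ((s : ℝ) * hh - (s' : ℝ) * hh) ^ 2 / 8 := by
    have k1' : ph ((1 - t) * ((s : ℝ) * hh) + t * ((s' : ℝ) * hh)) ≤
        1 / ((1 - t) * ((s : ℝ) * hh) + t * ((s' : ℝ) * hh)) ^ 2 -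
          rL ((1 - t) * ((s : ℝ) * hh) + t * ((s' : ℝ) * hh)) := k1
    linarith
  have k7 := mul_le_mul_of_nonneg_left k6 FS_pos.le
  have k8 := mul_le_mul_of_nonneg_left k4 (sub_nonneg.2 h1)
  have k9 := mul_le_mul_of_nonneg_left k5 h0
  have e : ((s : ℝ) * hh - (s' : ℝ) * hh) ^ 2 = (((s : ℝ) - s') * hh) ^ 2 := by ring
  rw [e] at k7
  linarith

lemma far_pair (g g' : ℕ) (t : ℝ) (hg : g ≤ 32768) (hg' : g' ≤ 32768) (h0 : 0 ≤ t) (h1 : t ≤ 1)
    (hpos : 0 < (1 - t) * g + t * g') :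
    FS * ph (2 * π - ((1 - t) * g + t * g') * hh) ≤
      (1 - t) * ((vfx g g' g g' : ℝ) - 268435456) +
      t * ((vfx g g' g' g : ℝ) - 268435456) := by
  have hp : 0 < hh := hh_pos
  rw [ph_two_pi_sub]
  have hgr : (g : ℝ) ≤ 32768 := by exact_mod_cast hg
  have hgr' : (g' : ℝ) ≤ 32768 := by exact_mod_cast hg'
  set X := ((1 - t) * (g : ℝ) + t * g') with hX
  have hXle : X ≤ 32768 := by
    have := mul_le_mul_of_nonneg_left hgr (sub_nonneg.2 h1)
    have := mul_le_mul_of_nonneg_left hgr' h0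
    linarith
  have hx : 0 < X * hh := by positivity
  have hx' : X * hh ≤ π := by rw [pi_eq]; exact mul_le_mul_of_nonneg_right hXle hp.le
  have k1 := ph_lower _ hx hx'
  have k1' : 1 / (X * hh) ^ 2 - rU (X * hh) ≤ ph (X * hh) := k1
  have k2 := rU_chord ((g : ℝ) * hh) ((g' : ℝ) * hh) t (by positivity) (by positivity) h0 h1
  have ex : X * hh = (1 - t) * ((g : ℝ) * hh) + t * ((g' : ℝ) * hh) := by rw [hX]; ring
  have k3 := farR_bound g
  have k4 := farR_bound g'
  have hFS : FS * (1 / (X * hh) ^ 2) = 4398046511104 / X ^ 2 := by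
    rw [FS_eq]
    have := hh_pos.ne'
    have hs' : X ≠ 0 := hpos.ne'
    field_simp
  -- main inequality for the reciprocal part
  have key : (1 - t) * ((farQ g g' g g' (g + g') ((g - g') + (g' - g)) : ℕ) : ℝ) +
      t * ((farQ g g' g' g (g + g') ((g - g') + (g' - g)) : ℕ) : ℝ) ≤ 4398046511104 / X ^ 2 := by
    rw [farQ_eq, farQ_eq]
    split_ifs with hc
    · have hc0 : 0 < g + g' := by
        by_contra hcon
        have h2 : g = 0 := by omega
        have h3 : g' = 0 := by omega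
        rw [h2, h3] at hX
        rw [hX] at hpos
        simp at hpos
      have hr1 : g ≤ 3 * g' := by omega
      have hr2 : g' ≤ 3 * g := by omega
      have c1 := cast_div_le' (17592186044416 * (3 * g' - g)) ((g + g') ^ 3)
      have c2 := cast_div_le' (17592186044416 * (3 * g - g')) ((g + g') ^ 3)
      push_cast [Nat.cast_sub hr1, Nat.cast_sub hr2] at c1 c2
      have hcr : (0 : ℝ) < (g : ℝ) + g' := by exact_mod_cast hc0
      have hm : 0 < ((g : ℝ) + g') / 2 := by positivity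
      have c3 := tangent_inv_sq X (((g : ℝ) + g') / 2) hpos hm
      have e3 : 4398046511104 * ((3 * (((g : ℝ) + g') / 2) - 2 * X) / (((g : ℝ) + g') / 2) ^ 3) =
          (1 - t) * (17592186044416 * (3 * (g' : ℝ) - g) / ((g : ℝ) + g') ^ 3) +
          t * (17592186044416 * (3 * (g : ℝ) - g') / ((g : ℝ) + g') ^ 3) := by
        rw [hX]
        field_simp
        ring
      have c4 := mul_le_mul_of_nonneg_left c3 (by norm_num : (0 : ℝ) ≤ 4398046511104)
      rw [e3] at c4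
      have c5 := mul_le_mul_of_nonneg_left c1 (sub_nonneg.2 h1)
      have c6 := mul_le_mul_of_nonneg_left c2 h0
      push_cast
      have e4 : 4398046511104 * (1 / X ^ 2) = 4398046511104 / X ^ 2 := by ring
      rw [e4] at c4
      linarith
    · set M := max g g' with hM
      have hXM : X ≤ M := by
        have a1 : (g : ℝ) ≤ M := by exact_mod_cast le_max_left g g'
        have a2 : (g' : ℝ) ≤ M := by exact_mod_cast le_max_right g g'
        have := mul_le_mul_of_nonneg_left a1 (sub_nonneg.2 h1)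
        have := mul_le_mul_of_nonneg_left a2 h0
        linarith
      have c1 := cast_div_le' 4398046511104 (M * M)
      push_cast at c1 ⊢
      have hMpos : (0 : ℝ) < M := lt_of_lt_of_le hpos hXM
      have c2 : 4398046511104 / ((M : ℝ) * M) ≤ 4398046511104 / X ^ 2 := by
        apply div_le_div_of_nonneg_left (by norm_num) (by positivity)
        rw [← sq]
        exact pow_le_pow_left₀ hpos.le hXM 2
      have e : (1 - t) * ((4398046511104 / (M * M) : ℕ) : ℝ) + t * ((4398046511104 / (M * M) : ℕ) : ℝ)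
        = ((4398046511104 / (M * M) : ℕ) : ℝ) := by ring
      push_cast at e
      linarith
  rw [vfx_eq, vfx_eq]
  have d1 := le_cast_sub (farR (g * g)) (farQ g g' g g' (g + g') ((g - g') + (g' - g)))
  have d2 := le_cast_sub (farR (g' * g')) (farQ g g' g' g (g + g') ((g - g') + (g' - g)))
  have d3 := mul_le_mul_of_nonneg_left d1 (sub_nonneg.2 h1)
  have d4 := mul_le_mul_of_nonneg_left d2 h0
  have d5 := mul_le_mul_of_nonneg_left k3 (sub_nonneg.2 h1)
  have d6 := mul_le_mul_of_nonneg_left k4 h0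
  have d7 := mul_le_mul_of_nonneg_left k1' FS_pos.le
  rw [← ex] at k2
  have d8 := mul_le_mul_of_nonneg_left k2 FS_pos.le
  rw [mul_sub, hFS] at d7
  have e5 : FS * -ph (X * hh) = - (FS * ph (X * hh)) := by ring
  rw [e5]
  nlinarith

/-- The pair bound. -/
lemma pairAB (s s' dm : ℕ) (t : ℝ) (hs : 0 < s) (hs' : 0 < s')
    (hS : s ≤ 65536) (hS' : s' ≤ 65536) (h0 : 0 ≤ t) (h1 : t ≤ 1)
    (hlt : ((1 - t) * s + t * s') * hh < 2 * π) (hd : |(s : ℝ) - s'| ≤ dm) :
    FS * ph (((1 - t) * s + t * s') * hh) ≤ (1 - t) * ((VA s s' : ℝ) - 268435456) +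
      t * ((VB s s' : ℝ) - 268435456) + FS * (0.0347 * ((dm : ℝ) * hh) ^ 2 / 8) := by
  have hp := hh_pos
  have hcr : 0 ≤ FS * (0.0347 * ((dm : ℝ) * hh) ^ 2 / 8) := by
    have := FS_pos
    positivity
  rw [VA_eq, VB_eq]
  by_cases c1 : s ≤ 32768
  · by_cases c2 : s' ≤ 32768
    · rw [if_pos c1, if_pos c2]
      have k := near_pair s s' t hs hs' c1 c2 h0 h1
      have k2 : (((s : ℝ) - s') * hh) ^ 2 ≤ ((dm : ℝ) * hh) ^ 2 := by
        rw [mul_pow, mul_pow]
        apply mul_le_mul_of_nonneg_right _ (by positivity)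
        rw [← sq_abs ((s : ℝ) - s')]
        exact pow_le_pow_left₀ (abs_nonneg _) hd 2
      have k3 : FS * (0.0347 * (((s : ℝ) - s') * hh) ^ 2 / 8) ≤
          FS * (0.0347 * ((dm : ℝ) * hh) ^ 2 / 8) := by
        apply mul_le_mul_of_nonneg_left _ FS_pos.le
        linarith
      linarith
    · rw [if_pos c1, if_neg c2, if_pos c1]
      have h2 : (s : ℝ) ≤ s' := by
        have : s ≤ s' := by omega
        exact_mod_cast this
      have h3 : (s : ℝ) * hh ≤ ((1 - t) * s + t * s') * hh := by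
        apply mul_le_mul_of_nonneg_right _ hp.le
        nlinarith
      have := near_single _ s hs c1 h3 hlt
      linarith
  · by_cases c2 : s' ≤ 32768
    · rw [if_neg c1, if_pos c2, if_pos c2]
      have h2 : (s' : ℝ) ≤ s := by
        have : s' ≤ s := by omega
        exact_mod_cast this
      have h3 : (s' : ℝ) * hh ≤ ((1 - t) * s + t * s') * hh := by
        apply mul_le_mul_of_nonneg_right _ hp.le
        nlinarith
      have := near_single _ s' hs' c2 h3 hlt
      linarith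
    · rw [if_neg c1, if_neg c2, if_neg c2, if_neg c1]
      have e1 : (s : ℝ) = 65536 - ((65536 - s : ℕ) : ℝ) := by
        rw [Nat.cast_sub hS]; push_cast; ring
      have e2 : (s' : ℝ) = 65536 - ((65536 - s' : ℕ) : ℝ) := by
        rw [Nat.cast_sub hS']; push_cast; ring
      set g := 65536 - s with hg
      set g' := 65536 - s' with hg'
      have e3 : ((1 - t) * (s : ℝ) + t * s') * hh = 2 * π - ((1 - t) * g + t * g') * hh := by
        rw [e1, e2, two_pi_eq]; ring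
      rw [e3] at hlt ⊢
      have hpos : 0 < (1 - t) * (g : ℝ) + t * g' := by
        by_contra hcon
        push Not at hcon
        have := mul_nonpos_of_nonpos_of_nonneg hcon hp.le
        linarith
      have := far_pair g g' t (by omega) (by omega) h0 h1 hpos
      linarith

end Pool.Agent.Helper99.Ring9
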