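import Mathlib
import Pool.Agent.Helper99.Ring9.Pair

namespace Pool.Agent.Helper99.Ring9

open Real Finset

lemma bAnd_eq (a b : Bool) : bAnd a b = (a && b) := by cases a <;> rfl

lemma bOr_eq (a b : Bool) : bOr a b = (a || b) := by cases a <;> rfl

lemma allN_iff (p : ℕ → Bool) (n : ℕ) : allN p n = true ↔ ∀ j < n, p j = true := by
  induction n with
  | zero =>
    constructor
    · intro _ j hj; omega
    · intro _; rfl
  | succ n ih =>
    have h : allN p (n+1) = bAnd (p n) (allN p n) := rfl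
    rw [h, bAnd_eq, Bool.and_eq_true, ih]
    constructor
    · rintro ⟨h1, h2⟩ j hj
      rcases Nat.lt_succ_iff_lt_or_eq.1 hj with h3 | h3
      · exact h2 j h3
      · rw [h3]; exact h1
    · intro h1
      exact ⟨h1 n (by omega), fun j hj => h1 j (by omega)⟩

/-- upper check at node `i` -/
noncomputable def upChk (i : ℕ) : Bool :=
  bOr (Nat.ble 1048576 (tab i))
    (Nat.ble (1048576 * ((i * 3141593) * 362880 * 2048000000 ^ 8 +
        (i * 3141593) ^ 5 * 3024 * 2048000000 ^ 4 + (i * 3141593) ^ 9))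
      (tab i * (362880 * 2048000000 ^ 9) + 1048576 * ((i * 3141593) ^ 3 * 60480 * 2048000000 ^ 6 +
        (i * 3141593) ^ 7 * 72 * 2048000000 ^ 2)))

/-- lower check at node `i` -/
noncomputable def loChk (i : ℕ) : Bool :=
  Nat.ble (tab i * (39916800 * 2048000000 ^ 11) +
      1048576 * ((i * 3141592) ^ 3 * 6652800 * 2048000000 ^ 8 +
        (i * 3141592) ^ 7 * 7920 * 2048000000 ^ 4 + (i * 3141592) ^ 11))
    (1048576 * ((i * 3141592) * 39916800 * 2048000000 ^ 10 +
        (i * 3141592) ^ 5 * 332640 * 2048000000 ^ 6 +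
        (i * 3141592) ^ 9 * 110 * 2048000000 ^ 2) + 7 * (39916800 * 2048000000 ^ 11))

lemma tab_checks : allN (fun i => bAnd (upChk i) (loChk i)) 1024 = true := by decide +kernel

lemma tab_top : tab 1024 = 1048576 := by decide +kernel

lemma tab_upper (i : ℕ) (hi : i ≤ 1024) :
    1048576 * sin ((i : ℝ) * (16 * hh)) ≤ (tab i : ℝ) := by
  rcases hi.eq_or_lt with h | h
  · rw [h, tab_top]
    have := sin_le_one ((1024 : ℕ) * (16 * hh) : ℝ)
    push_cast at this ⊢
    linarith
  · have h1 := (allN_iff _ _).1 tab_checks i h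
    simp only [bAnd_eq, Bool.and_eq_true] at h1
    have h2 := h1.1
    unfold upChk at h2
    rw [bOr_eq, Bool.or_eq_true, Nat.ble_eq, Nat.ble_eq] at h2
    rcases h2 with h2 | h2
    · have := sin_le_one ((i : ℝ) * (16 * hh))
      have h3 : (1048576 : ℝ) ≤ tab i := by exact_mod_cast h2
      linarith
    · have hi' : (i : ℝ) ≤ 1023 := by exact_mod_cast (by omega : i ≤ 1023)
      have hi0 : (0 : ℝ) ≤ i := by positivity
      set a : ℝ := (i : ℝ) * 3141593 with ha
      set x : ℝ := a / 2048000000 with hx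
      have hx0 : 0 ≤ x := by rw [hx, ha]; positivity
      have hle : (i : ℝ) * (16 * hh) ≤ x := by
        rw [hx, ha]; unfold hh
        have := pi_hi
        nlinarith
      have hxpi : x ≤ π / 2 := by
        rw [hx, ha]
        have := pi_lo
        linarith
      have hmono : sin ((i : ℝ) * (16 * hh)) ≤ sin x := by
        apply sin_le_sin_of_le_of_le_pi_div_two _ hxpi hle
        have : 0 ≤ (i : ℝ) * (16 * hh) := by
          have := hh_pos
          positivity
        have := pi_pos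
        linarith
      have h4 := sin_le_t9 x hx0
      have h5 : (1048576 : ℝ) * (a * 362880 * 2048000000 ^ 8 +
        a ^ 5 * 3024 * 2048000000 ^ 4 + a ^ 9) ≤
        tab i * (362880 * 2048000000 ^ 9) + 1048576 * (a ^ 3 * 60480 * 2048000000 ^ 6 +
        a ^ 7 * 72 * 2048000000 ^ 2) := by
        rw [ha]
        exact_mod_cast h2
      have h6 : 1048576 * (x - x ^ 3 / 6 + x ^ 5 / 120 - x ^ 7 / 5040 + x ^ 9 / 362880) ≤ tab i := by
        have e : 1048576 * (x - x ^ 3 / 6 + x ^ 5 / 120 - x ^ 7 / 5040 + x ^ 9 / 362880) =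
          (1048576 * (a * 362880 * 2048000000 ^ 8 +
        a ^ 5 * 3024 * 2048000000 ^ 4 + a ^ 9) - 1048576 * (a ^ 3 * 60480 * 2048000000 ^ 6 +
        a ^ 7 * 72 * 2048000000 ^ 2)) / (362880 * 2048000000 ^ 9) := by
          rw [hx]; ring
        rw [e, div_le_iff₀ (by positivity)]
        linarith
      linarith

lemma tab_lower (i : ℕ) (hi : i ≤ 1024) :
    (tab i : ℝ) - 7 ≤ 1048576 * sin ((i : ℝ) * (16 * hh)) := by
  rcases hi.eq_or_lt with h | h
  · rw [h, tab_top]
    have e : (((1024 : ℕ) : ℝ) * (16 * hh)) = π / 2 := by unfold hh; push_cast; ring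
    rw [e, sin_pi_div_two]
    norm_num
  · have h1 := (allN_iff _ _).1 tab_checks i h
    simp only [bAnd_eq, Bool.and_eq_true] at h1
    have h2 := h1.2
    unfold loChk at h2
    rw [Nat.ble_eq] at h2
    have hi' : (i : ℝ) ≤ 1023 := by exact_mod_cast (by omega : i ≤ 1023)
    have hi0 : (0 : ℝ) ≤ i := by positivity
    set a : ℝ := (i : ℝ) * 3141592 with ha
    set x : ℝ := a / 2048000000 with hx
    have hx0 : 0 ≤ x := by rw [hx, ha]; positivity
    have hle : x ≤ (i : ℝ) * (16 * hh) := by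
      rw [hx, ha]; unfold hh
      have := pi_lo
      nlinarith
    have hxpi : (i : ℝ) * (16 * hh) ≤ π / 2 := by
      unfold hh
      have := pi_pos
      nlinarith
    have hmono : sin x ≤ sin ((i : ℝ) * (16 * hh)) := by
      apply sin_le_sin_of_le_of_le_pi_div_two _ hxpi hle
      have := pi_pos
      linarith
    have h4 := sin_ge_t11 x hx0
    have h5 : (tab i : ℝ) * (39916800 * 2048000000 ^ 11) +
        1048576 * (a ^ 3 * 6652800 * 2048000000 ^ 8 +
        a ^ 7 * 7920 * 2048000000 ^ 4 + a ^ 11) ≤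
        1048576 * (a * 39916800 * 2048000000 ^ 10 +
        a ^ 5 * 332640 * 2048000000 ^ 6 +
        a ^ 9 * 110 * 2048000000 ^ 2) + 7 * (39916800 * 2048000000 ^ 11) := by
      rw [ha]
      exact_mod_cast h2
    have h6 : (tab i : ℝ) - 7 ≤ 1048576 * (x - x ^ 3 / 6 + x ^ 5 / 120 - x ^ 7 / 5040 +
        x ^ 9 / 362880 - x ^ 11 / 39916800) := by
      have e : 1048576 * (x - x ^ 3 / 6 + x ^ 5 / 120 - x ^ 7 / 5040 + x ^ 9 / 362880
          - x ^ 11 / 39916800) =
        (1048576 * (a * 39916800 * 2048000000 ^ 10 +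
        a ^ 5 * 332640 * 2048000000 ^ 6 +
        a ^ 9 * 110 * 2048000000 ^ 2) - 1048576 * (a ^ 3 * 6652800 * 2048000000 ^ 8 +
        a ^ 7 * 7920 * 2048000000 ^ 4 + a ^ 11)) / (39916800 * 2048000000 ^ 11) := by
        rw [hx]; ring
      rw [e, le_div_iff₀ (by positivity)]
      linarith
    linarith

lemma sinQ_bounds (z : ℕ) (hz : z ≤ 16384) :
    1048576 * sin ((z : ℝ) * hh) ≤ (sinQ z : ℝ) + 2 ∧
      (sinQ z : ℝ) - 7 ≤ 1048576 * sin ((z : ℝ) * hh) := by
  have hdef : sinQ z = (tab (z / 16) * (16 - z % 16) + tab (z / 16 + 1) * (z % 16)) / 16 := rfl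
  set i := z / 16 with hi
  set f := z % 16 with hf
  have hzif : z = 16 * i + f := by omega
  have hf16 : f < 16 := by omega
  have hi1024 : i ≤ 1024 := by omega
  have hcase : f = 0 ∨ i + 1 ≤ 1024 := by omega
  have c1 := cast_div_le' (tab i * (16 - f) + tab (i + 1) * f) 16
  have c2 := lt_cast_div_add_one (tab i * (16 - f) + tab (i + 1) * f) 16 (by norm_num)
  rw [← hdef] at c1 c2
  push_cast [Nat.cast_sub hf16.le] at c1 c2
  set t : ℝ := (f : ℝ) / 16 with ht
  have ht0 : 0 ≤ t := by positivity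
  have ht1 : t ≤ 1 := by
    rw [ht, div_le_one (by norm_num)]
    exact_mod_cast hf16.le
  have e1 : ((tab i : ℝ) * (16 - f) + tab (i + 1) * f) / 16 = (1 - t) * tab i + t * tab (i + 1) := by
    rw [ht]; ring
  rw [e1] at c1 c2
  have ez : (z : ℝ) * hh = (1 - t) * ((i : ℝ) * (16 * hh)) + t * (((i + 1 : ℕ) : ℝ) * (16 * hh)) := by
    rw [hzif, ht]; push_cast; ring
  have hu1 := tab_upper i hi1024
  have hl1 := tab_lower i hi1024
  have hpp := hh_pos
  have hA0 : 0 ≤ (i : ℝ) * (16 * hh) := by positivity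
  have hApi : (i : ℝ) * (16 * hh) ≤ π := by
    rw [pi_eq]
    have : (i : ℝ) ≤ 1024 := by exact_mod_cast hi1024
    nlinarith
  rcases hcase with hc | hc
  · have ht0' : t = 0 := by rw [ht, hc]; simp
    rw [ez, ht0'] 
    rw [ht0'] at c1 c2
    simp only [sub_zero, one_mul, zero_mul, add_zero] at c1 c2 ⊢
    constructor <;> linarith
  · have hu2 := tab_upper (i + 1) hc
    have hl2 := tab_lower (i + 1) hc
    have hB0 : 0 ≤ ((i + 1 : ℕ) : ℝ) * (16 * hh) := by positivity
    have hBpi : ((i + 1 : ℕ) : ℝ) * (16 * hh) ≤ π := by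
      rw [pi_eq]
      have : ((i + 1 : ℕ) : ℝ) ≤ 1024 := by exact_mod_cast hc
      nlinarith
    constructor
    · have k := sin_chord ((i : ℝ) * (16 * hh)) (((i + 1 : ℕ) : ℝ) * (16 * hh)) t ht0 ht1
      rw [← ez] at k
      have e2 : ((i : ℝ) * (16 * hh) - ((i + 1 : ℕ) : ℝ) * (16 * hh)) ^ 2 / 8 = 32 * hh ^ 2 := by
        push_cast; ring
      rw [e2] at k
      have e3 : 32 * hh ^ 2 ≤ 0.0000003 := by
        unfold hh
        have := pi2_hi
        nlinarith
      have k1 := mul_le_mul_of_nonneg_left hu1 (sub_nonneg.2 ht1)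
      have k2 := mul_le_mul_of_nonneg_left hu2 ht0
      linarith
    · have k := strictConcaveOn_sin_Icc.concaveOn.2 ⟨hA0, hApi⟩ ⟨hB0, hBpi⟩
        (sub_nonneg.2 ht1) ht0 (by ring)
      simp only [smul_eq_mul] at k
      rw [← ez] at k
      have k1 := mul_le_mul_of_nonneg_left hl1 (sub_nonneg.2 ht1)
      have k2 := mul_le_mul_of_nonneg_left hl2 ht0
      linarith

lemma sinI_bounds (y : ℕ) (hy : y ≤ 32768) :
    1048576 * sin ((y : ℝ) * hh) ≤ (sinI y : ℝ) + 2 ∧
      (sinI y : ℝ) - 7 ≤ 1048576 * sin ((y : ℝ) * hh) := by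
  have hdef : sinI y = sinQ (bIf (Nat.ble y 16384) y (32768 - y)) := rfl
  rw [bIf_ble] at hdef
  split_ifs at hdef with h
  · rw [hdef]; exact sinQ_bounds y h
  · have k := sinQ_bounds (32768 - y) (by omega)
    have e : ((32768 - y : ℕ) : ℝ) * hh = π - (y : ℝ) * hh := by
      rw [Nat.cast_sub hy, pi_eq]; push_cast; ring
    rw [e, sin_pi_sub] at k
    rw [hdef]
    exact k

lemma sinU_bound (y : ℕ) (hy : y ≤ 32768) : 1048576 * sin ((y : ℝ) * hh) ≤ (sinU y : ℝ) := by
  have h := (sinI_bounds y hy).1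
  have hdef : sinU y = sinI y + 2 := rfl
  rw [hdef]
  push_cast
  exact h

lemma sin_nonneg_grid (y : ℕ) (hy : y ≤ 32768) : 0 ≤ sin ((y : ℝ) * hh) := by
  have := hh_pos
  apply sin_nonneg_of_nonneg_of_le_pi (by positivity)
  rw [pi_eq]
  have : (y : ℝ) ≤ 32768 := by exact_mod_cast hy
  nlinarith

lemma sinLo_bound (y : ℕ) (hy : y ≤ 32768) : (sinLo y : ℝ) ≤ 1048576 * sin ((y : ℝ) * hh) := by
  have h := (sinI_bounds y hy).2
  have hdef : sinLo y = sinI y - 9 := rfl
  rcases le_total (sinI y) 9 with h1 | h1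
  · rw [hdef, Nat.sub_eq_zero_of_le h1]
    have := sin_nonneg_grid y hy
    push_cast
    linarith
  · rw [hdef, Nat.cast_sub h1]
    push_cast
    linarith

end Pool.Agent.Helper99.Ring9
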