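import Mathlib
import Pool.Agent.Helper99.Ring9.Table

namespace Pool.Agent.Helper99.Ring9

open Real Finset

/-- the angle of a grid position -/
noncomputable def P (p : ℕ) : ℝ := ((p : ℝ) - 65536) * hh

lemma P_le {p q : ℕ} (h : p ≤ q) : P p ≤ P q := by
  unfold P
  have : (p : ℝ) ≤ q := by exact_mod_cast h
  have := hh_pos
  nlinarith

lemma P_lt {p q : ℕ} (h : p < q) : P p < P q := by
  unfold P
  have : (p : ℝ) < q := by exact_mod_cast h
  have := hh_pos
  nlinarith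

lemma P_add_two_pi (p : ℕ) : P p + 2 * π = P (p + 65536) := by
  unfold P; rw [two_pi_eq]; push_cast; ring

lemma fieldW_eq (m0 m1 y : ℕ) : fieldW m0 m1 y =
    if y ≤ 32768 then fpos m1 y else
      if y ≤ 65536 then fneg m0 (y - 32768) else fpos m1 (y - 65536) := by
  have h : fieldW m0 m1 y = bIf (Nat.ble y 32768) (fpos m1 y)
    (bIf (Nat.ble y 65536) (fneg m0 (y - 32768)) (fpos m1 (y - 65536))) := rfl
  rw [h, bIf_ble, bIf_ble]

lemma fpos_eq (m1 y : ℕ) : fpos m1 y = 268435457 + (m1 * (sinU y * 40426)) / 2 ^ 30 := by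
  have h : fpos m1 y = 268435457 + (m1 * (sinU y * 40426)) >>> 30 := rfl
  rw [h, Nat.shiftRight_eq_div_pow]

lemma fneg_eq (m0 y : ℕ) : fneg m0 y = 268435456 - (m0 * (sinLo y * 40425)) / 2 ^ 30 := by
  have h : fneg m0 y = 268435456 - (m0 * (sinLo y * 40425)) >>> 30 := rfl
  rw [h, Nat.shiftRight_eq_div_pow]

lemma curv_eq (m1 d : ℕ) : curv m1 d = (m1 * (d * d * 199494)) / 2 ^ 42 + 1 := by
  have h : curv m1 d = (m1 * (d * d * 199494)) >>> 42 + 1 := rfl
  rw [h, Nat.shiftRight_eq_div_pow]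

lemma rowC_eq (N m1 dm a b : ℕ) : rowC N m1 dm a b =
    curv m1 ((a - b) + (b - a)) + N * ((dm * dm * 6923) / 2 ^ 32 + 1) := by
  have h : rowC N m1 dm a b = curv m1 ((a - b) + (b - a)) + N * ((dm * dm * 6923) >>> 32 + 1) := rfl
  rw [h, Nat.shiftRight_eq_div_pow]

lemma fpos_bound (m1 y : ℕ) (m : ℝ) (hm0 : 0 ≤ m) (h1 : m ≤ (m1 : ℝ) / 1024) (hy : y ≤ 32768) :
    FS * (m * sin ((y : ℝ) * hh)) ≤ (fpos m1 y : ℝ) - 268435456 := by
  rw [fpos_eq]
  have h := lt_cast_div_add_one (m1 * (sinU y * 40426)) (2 ^ 30) (by norm_num)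
  push_cast at h ⊢
  have h2 := sinU_bound y hy
  have h3 := sin_nonneg_grid y hy
  have h4 : m * sin ((y : ℝ) * hh) ≤ (m1 : ℝ) / 1024 * ((sinU y : ℝ) / 1048576) := by
    apply mul_le_mul h1 _ h3 (by positivity)
    linarith
  have h5 : FS ≤ 4096 * (40426 / 4096) := by
    unfold FS
    have := pi2_hi
    nlinarith
  have h6 : FS * (m * sin ((y : ℝ) * hh)) ≤
      (4096 * (40426 / 4096)) * ((m1 : ℝ) / 1024 * ((sinU y : ℝ) / 1048576)) := by
    apply mul_le_mul h5 h4 (mul_nonneg hm0 h3) (by norm_num)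
  have e : (4096 * (40426 / 4096) : ℝ) * ((m1 : ℝ) / 1024 * ((sinU y : ℝ) / 1048576)) =
      (m1 : ℝ) * ((sinU y : ℝ) * 40426) / 2 ^ 30 := by
    ring
  rw [e] at h6
  linarith

lemma fneg_bound (m0 y : ℕ) (m : ℝ) (h0 : (m0 : ℝ) / 1024 ≤ m) (hy : y ≤ 32768) :
    FS * (m * (-sin ((y : ℝ) * hh))) ≤ (fneg m0 y : ℝ) - 268435456 := by
  rw [fneg_eq]
  have h := cast_div_le' (m0 * (sinLo y * 40425)) (2 ^ 30)
  have h' := le_cast_sub 268435456 ((m0 * (sinLo y * 40425)) / 2 ^ 30)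
  push_cast at h h' ⊢
  have h2 := sinLo_bound y hy
  have h3 := sin_nonneg_grid y hy
  have h4 : (m0 : ℝ) / 1024 * ((sinLo y : ℝ) / 1048576) ≤ m * sin ((y : ℝ) * hh) := by
    apply mul_le_mul h0 _ (by positivity)
    · have : (0 : ℝ) ≤ (m0 : ℝ) / 1024 := by positivity
      linarith
    · linarith
  have h5 : (40425 : ℝ) ≤ FS := by
    unfold FS
    have := pi2_lo
    nlinarith
  have h6 : 40425 * ((m0 : ℝ) / 1024 * ((sinLo y : ℝ) / 1048576)) ≤
      FS * (m * sin ((y : ℝ) * hh)) := by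
    apply mul_le_mul h5 h4 (by positivity) FS_pos.le
  have e : (40425 : ℝ) * ((m0 : ℝ) / 1024 * ((sinLo y : ℝ) / 1048576)) =
      (m0 : ℝ) * ((sinLo y : ℝ) * 40425) / 2 ^ 30 := by
    ring
  rw [e] at h6
  have e2 : FS * (m * (-sin ((y : ℝ) * hh))) = - (FS * (m * sin ((y : ℝ) * hh))) := by ring
  rw [e2]
  linarith

lemma field_bound (m0 m1 p : ℕ) (m : ℝ) (h0 : (m0 : ℝ) / 1024 ≤ m) (h1 : m ≤ (m1 : ℝ) / 1024)
    (hp : 65536 ≤ p) (hp' : p ≤ 163840) :
    FS * (m * sin (P p)) ≤ (fieldV m0 m1 p : ℝ) - 268435456 := by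
  have hm0 : 0 ≤ m := le_trans (by positivity) h0
  obtain ⟨y, rfl⟩ : ∃ y, p = y + 65536 := ⟨p - 65536, by omega⟩
  have hW : fieldV m0 m1 (y + 65536) = fieldW m0 m1 y := by
    have h : fieldV m0 m1 (y + 65536) = fieldW m0 m1 (y + 65536 - 65536) := rfl
    rw [h, Nat.add_sub_cancel]
  have hP : P (y + 65536) = (y : ℝ) * hh := by unfold P; push_cast; ring
  have hy : y ≤ 98304 := by omega
  rw [hW, hP, fieldW_eq]
  split_ifs with c1 c2
  · exact fpos_bound m1 y m hm0 h1 c1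
  · obtain ⟨z, rfl⟩ : ∃ z, y = z + 32768 := ⟨y - 32768, by omega⟩
    rw [Nat.add_sub_cancel]
    have := fneg_bound m0 z m h0 (by omega)
    have e : ((z + 32768 : ℕ) : ℝ) * hh = (z : ℝ) * hh + π := by
      rw [pi_eq]; push_cast; ring
    rw [e, sin_add_pi]; exact this
  · obtain ⟨z, rfl⟩ : ∃ z, y = z + 65536 := ⟨y - 65536, by omega⟩
    rw [Nat.add_sub_cancel]
    have := fpos_bound m1 z m hm0 h1 (by omega)
    have e : ((z + 65536 : ℕ) : ℝ) * hh = (z : ℝ) * hh + 2 * π := by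
      rw [two_pi_eq]; push_cast; ring
    rw [e, sin_add_two_pi]; exact this

lemma curv_bound (m1 a b : ℕ) (m : ℝ) (hm0 : 0 ≤ m) (h1 : m ≤ (m1 : ℝ) / 1024) :
    FS * (m * ((P a - P b) ^ 2 / 8)) ≤ (curv m1 ((a - b) + (b - a)) : ℝ) := by
  rw [curv_eq]
  set d := (a - b) + (b - a) with hd
  have hd2 : (P a - P b) ^ 2 = (d : ℝ) ^ 2 * hh ^ 2 := by
    unfold P
    rcases le_total a b with h | h
    · have e : (d : ℝ) = (b : ℝ) - a := by
        rw [hd, Nat.sub_eq_zero_of_le h, zero_add, Nat.cast_sub h]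
      rw [e]; ring
    · have e : (d : ℝ) = (a : ℝ) - b := by
        rw [hd, Nat.sub_eq_zero_of_le h, add_zero, Nat.cast_sub h]
      rw [e]; ring
  rw [hd2]
  have h := lt_cast_div_add_one (m1 * (d * d * 199494)) (2 ^ 42) (by norm_num)
  push_cast at h ⊢
  have h5 : FS * (hh ^ 2 / 8) ≤ 1024 * 199494 / 2 ^ 42 := by
    unfold FS hh
    have := pi4_hi
    have e : 4096 * π ^ 2 * ((π / 32768) ^ 2 / 8) = π ^ 4 / 2097152 := by ring
    rw [e]
    norm_num
    linarith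
  have h6 : m * (d : ℝ) ^ 2 ≤ (m1 : ℝ) / 1024 * (d : ℝ) ^ 2 :=
    mul_le_mul_of_nonneg_right h1 (by positivity)
  have h7 : (m * (d : ℝ) ^ 2) * (FS * (hh ^ 2 / 8)) ≤
      ((m1 : ℝ) / 1024 * (d : ℝ) ^ 2) * (1024 * 199494 / 2 ^ 42) := by
    apply mul_le_mul h6 h5 _ (by positivity)
    have := FS_pos
    positivity
  have e : FS * (m * ((d : ℝ) ^ 2 * hh ^ 2 / 8)) = (m * (d : ℝ) ^ 2) * (FS * (hh ^ 2 / 8)) := by ring
  rw [e]
  have e2 : ((m1 : ℝ) / 1024 * (d : ℝ) ^ 2) * (1024 * 199494 / 2 ^ 42) =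
    (m1 : ℝ) * ((d : ℝ) * d * 199494) / 2 ^ 42 := by ring
  rw [e2] at h7
  linarith

lemma dm_bound (dm : ℕ) : FS * (0.0347 * ((dm : ℝ) * hh) ^ 2 / 8) ≤
    (((dm * dm * 6923) / 2 ^ 32 + 1 : ℕ) : ℝ) := by
  have h := lt_cast_div_add_one (dm * dm * 6923) (2 ^ 32) (by norm_num)
  push_cast at h ⊢
  have h5 : FS * (0.0347 * hh ^ 2 / 8) ≤ 6923 / 2 ^ 32 := by
    unfold FS hh
    have := pi4_hi
    have e : 4096 * π ^ 2 * (0.0347 * (π / 32768) ^ 2 / 8) = 0.0347 * π ^ 4 / 2097152 := by ring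
    rw [e]
    norm_num
    linarith
  have h6 := mul_le_mul_of_nonneg_left h5 (by positivity : 0 ≤ (dm : ℝ) ^ 2)
  have e : FS * (0.0347 * ((dm : ℝ) * hh) ^ 2 / 8) = (dm : ℝ) ^ 2 * (FS * (0.0347 * hh ^ 2 / 8)) := by
    ring
  rw [e]
  have e2 : (dm : ℝ) ^ 2 * (6923 / 2 ^ 32) = (dm : ℝ) * dm * 6923 / 2 ^ 32 := by ring
  rw [e2] at h6
  linarith

/-- geometric hypotheses of a segment -/
structure GS (N C dm : ℕ) (A B : ℕ → ℕ) : Prop where
  le : ∀ k, k < N → B k ≤ A k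
  monoA : ∀ i j, i < j → j < N → A i < A j
  monoB : ∀ i j, i < j → j < N → B i < B j
  capA : ∀ k, k < N → A k ≤ C
  wrapA : ∀ k, k < N → A k ≤ A 0 + 65536
  wrapB : ∀ k, k < N → B k ≤ B 0 + 65536
  low : ∀ k, 0 < k → k < N → 65536 ≤ B k
  cap : C ≤ 163840
  dm : ∀ k, k < N → A k - B k ≤ dm

lemma row_neg {N m0 m1 C dm : ℕ} {A B : ℕ → ℕ} {m : ℝ} (hg : GS N C dm A B)
    (h0 : (m0 : ℝ) / 1024 ≤ m) (h1 : m ≤ (m1 : ℝ) / 1024) (x : ℕ) (hx0 : 0 < x) (hxN : x < N)
    (hA : ∑ j ∈ range x, VA (A x - A j) (B x - B j) +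
      ∑ j ∈ Ico (x + 1) N, VA (A x + 65536 - A j) (B x + 65536 - B j) +
      (fieldV m0 m1 (A x) + rowC N m1 dm (A x) (B x)) < N * 268435456)
    (hB : ∑ j ∈ range x, VB (A x - A j) (B x - B j) +
      ∑ j ∈ Ico (x + 1) N, VB (A x + 65536 - A j) (B x + 65536 - B j) +
      (fieldV m0 m1 (B x) + rowC N m1 dm (A x) (B x)) < N * 268435456)
    (t : ℝ) (ht0 : 0 ≤ t) (ht1 : t ≤ 1)
    (hD : ∀ z, z < N → z ≠ x → Df (itr (fun k => P (A k)) (fun k => P (B k)) t) x z < 2 * π) :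
    Fr N (itr (fun k => P (A k)) (fun k => P (B k)) t) x +
      m * sin (itr (fun k => P (A k)) (fun k => P (B k)) t x) < 0 := by
  have hm0 : 0 ≤ m := le_trans (by positivity) h0
  set v := itr (fun k => P (A k)) (fun k => P (B k)) t with hv
  have hvk : ∀ k, v k = (1 - t) * P (A k) + t * P (B k) := fun k => rfl
  have hset : (range N).erase x = range x ∪ Ico (x + 1) N := by
    ext j
    simp only [mem_erase, mem_range, mem_union, mem_Ico]
    omega
  have hdisj : Disjoint (range x) (Ico (x + 1) N) := by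
    rw [disjoint_left]
    intro j h1 h2
    rw [mem_range] at h1
    rw [mem_Ico] at h2
    omega
  have hFr : Fr N v x = ∑ j ∈ range x, ph (Df v x j) + ∑ j ∈ Ico (x + 1) N, ph (Df v x j) := by
    unfold Fr
    rw [hset, sum_union hdisj]
  set κ : ℝ := FS * (0.0347 * ((dm : ℝ) * hh) ^ 2 / 8) with hκ
  have hκb := dm_bound dm
  rw [← hκ] at hκb
  -- difference bound
  have hdd : ∀ j, j < N → |((A x : ℝ) - A j) - ((B x : ℝ) - B j)| ≤ dm := by
    intro j hj
    have a1 := hg.dm x hxN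
    have a2 := hg.dm j hj
    have a3 := hg.le x hxN
    have a4 := hg.le j hj
    have b1 : (A x : ℝ) ≤ dm + B x := by exact_mod_cast (by omega : A x ≤ dm + B x)
    have b2 : (A j : ℝ) ≤ dm + B j := by exact_mod_cast (by omega : A j ≤ dm + B j)
    have b3 : (B x : ℝ) ≤ A x := by exact_mod_cast a3
    have b4 : (B j : ℝ) ≤ A j := by exact_mod_cast a4
    rw [abs_le]
    constructor <;> linarith
  have hlow : ∀ j ∈ range x, FS * ph (Df v x j) ≤
      (1 - t) * ((VA (A x - A j) (B x - B j) : ℝ) - 268435456) +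
      t * ((VB (A x - A j) (B x - B j) : ℝ) - 268435456) + κ := by
    intro j hj
    rw [mem_range] at hj
    have hjN : j < N := by omega
    have mA := hg.monoA j x hj hxN
    have mB := hg.monoB j x hj hxN
    have wA := hg.wrapA x hxN
    have wB := hg.wrapB x hxN
    have a0 : A 0 ≤ A j := by
      rcases Nat.eq_zero_or_pos j with h | h
      · rw [h]
      · exact (hg.monoA 0 j h hjN).le
    have b0 : B 0 ≤ B j := by
      rcases Nat.eq_zero_or_pos j with h | h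
      · rw [h]
      · exact (hg.monoB 0 j h hjN).le
    have cA : ((A x - A j : ℕ) : ℝ) = (A x : ℝ) - A j := by rw [Nat.cast_sub mA.le]
    have cB : ((B x - B j : ℕ) : ℝ) = (B x : ℝ) - B j := by rw [Nat.cast_sub mB.le]
    have eD : Df v x j = ((1 - t) * ((A x - A j : ℕ) : ℝ) + t * ((B x - B j : ℕ) : ℝ)) * hh := by
      unfold Df
      rw [if_neg (by omega), hvk, hvk, cA, cB]
      unfold P
      ring
    have hlt := hD j hjN (by omega)
    rw [eD] at hlt ⊢
    exact pairAB (A x - A j) (B x - B j) dm t (by omega) (by omega) (by omega) (by omega) ht0 ht1 hlt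
      (by rw [cA, cB]; exact hdd j hjN)
  have hhigh : ∀ j ∈ Ico (x + 1) N, FS * ph (Df v x j) ≤
      (1 - t) * ((VA (A x + 65536 - A j) (B x + 65536 - B j) : ℝ) - 268435456) +
      t * ((VB (A x + 65536 - A j) (B x + 65536 - B j) : ℝ) - 268435456) + κ := by
    intro j hj
    rw [mem_Ico] at hj
    have hjN : j < N := hj.2
    have mA := hg.monoA x j (by omega) hjN
    have mB := hg.monoB x j (by omega) hjN
    have m0A := hg.monoA 0 x hx0 hxN
    have m0B := hg.monoB 0 x hx0 hxN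
    have wA := hg.wrapA j hjN
    have wB := hg.wrapB j hjN
    have cA : ((A x + 65536 - A j : ℕ) : ℝ) = (A x : ℝ) + 65536 - A j := by
      rw [Nat.cast_sub (by omega)]; push_cast; ring
    have cB : ((B x + 65536 - B j : ℕ) : ℝ) = (B x : ℝ) + 65536 - B j := by
      rw [Nat.cast_sub (by omega)]; push_cast; ring
    have eD : Df v x j = ((1 - t) * ((A x + 65536 - A j : ℕ) : ℝ) +
        t * ((B x + 65536 - B j : ℕ) : ℝ)) * hh := by
      unfold Df
      rw [if_pos (by omega), hvk, hvk, cA, cB, two_pi_eq]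
      unfold P
      ring
    have hlt := hD j hjN (by omega)
    rw [eD] at hlt ⊢
    exact pairAB (A x + 65536 - A j) (B x + 65536 - B j) dm t (by omega) (by omega) (by omega)
      (by omega) ht0 ht1 hlt
      (by
        rw [cA, cB]
        have := hdd j hjN
        have e : (A x : ℝ) + 65536 - A j - ((B x : ℝ) + 65536 - B j) =
          ((A x : ℝ) - A j) - ((B x : ℝ) - B j) := by ring
        rw [e]; exact this)
  have s1 := sum_le_sum hlow
  have s2 := sum_le_sum hhigh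
  -- field
  have fA := field_bound m0 m1 (A x) m h0 h1 ((hg.low x hx0 hxN).trans (hg.le x hxN))
    ((hg.capA x hxN).trans hg.cap)
  have fB := field_bound m0 m1 (B x) m h0 h1 (hg.low x hx0 hxN)
    ((hg.le x hxN).trans ((hg.capA x hxN).trans hg.cap))
  have cv := curv_bound m1 (A x) (B x) m hm0 h1
  have sc := sin_chord (P (A x)) (P (B x)) t ht0 ht1
  have sc2 : FS * (m * sin (v x)) ≤ (1 - t) * (FS * (m * sin (P (A x)))) +
      t * (FS * (m * sin (P (B x)))) + FS * (m * ((P (A x) - P (B x)) ^ 2 / 8)) := by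
    rw [hvk]
    have h3 := mul_le_mul_of_nonneg_left sc (mul_nonneg FS_pos.le hm0)
    calc FS * (m * sin ((1 - t) * P (A x) + t * P (B x))) =
        FS * m * sin ((1 - t) * P (A x) + t * P (B x)) := by ring
      _ ≤ _ := h3
      _ = _ := by ring
  have fA' := mul_le_mul_of_nonneg_left fA (sub_nonneg.2 ht1)
  have fB' := mul_le_mul_of_nonneg_left fB ht0
  -- sums
  rw [← mul_sum] at s1 s2
  have e1 : ∑ j ∈ range x, ((1 - t) * ((VA (A x - A j) (B x - B j) : ℝ) - 268435456) +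
      t * ((VB (A x - A j) (B x - B j) : ℝ) - 268435456) + κ) =
      (1 - t) * ((∑ j ∈ range x, (VA (A x - A j) (B x - B j) : ℝ)) - x * 268435456) +
      t * ((∑ j ∈ range x, (VB (A x - A j) (B x - B j) : ℝ)) - x * 268435456) + x * κ := by
    rw [sum_add_distrib, sum_add_distrib, ← mul_sum, ← mul_sum, sum_sub_distrib, sum_sub_distrib]
    simp
  have e2 : ∑ j ∈ Ico (x + 1) N,
      ((1 - t) * ((VA (A x + 65536 - A j) (B x + 65536 - B j) : ℝ) - 268435456) +
      t * ((VB (A x + 65536 - A j) (B x + 65536 - B j) : ℝ) - 268435456) + κ) =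
      (1 - t) * ((∑ j ∈ Ico (x + 1) N, (VA (A x + 65536 - A j) (B x + 65536 - B j) : ℝ))
        - ((N : ℝ) - x - 1) * 268435456) +
      t * ((∑ j ∈ Ico (x + 1) N, (VB (A x + 65536 - A j) (B x + 65536 - B j) : ℝ))
        - ((N : ℝ) - x - 1) * 268435456) + ((N : ℝ) - x - 1) * κ := by
    rw [sum_add_distrib, sum_add_distrib, ← mul_sum, ← mul_sum, sum_sub_distrib, sum_sub_distrib]
    have : ((N - (x + 1) : ℕ) : ℝ) = (N : ℝ) - x - 1 := by
      rw [Nat.cast_sub (by omega)]; push_cast; ring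
    simp [this]
  rw [e1] at s1
  rw [e2] at s2
  have hAr : ∑ j ∈ range x, (VA (A x - A j) (B x - B j) : ℝ) +
      ∑ j ∈ Ico (x + 1) N, (VA (A x + 65536 - A j) (B x + 65536 - B j) : ℝ) +
      ((fieldV m0 m1 (A x) : ℝ) + rowC N m1 dm (A x) (B x)) < N * 268435456 := by
    exact_mod_cast hA
  have hBr : ∑ j ∈ range x, (VB (A x - A j) (B x - B j) : ℝ) +
      ∑ j ∈ Ico (x + 1) N, (VB (A x + 65536 - A j) (B x + 65536 - B j) : ℝ) +
      ((fieldV m0 m1 (B x) : ℝ) + rowC N m1 dm (A x) (B x)) < N * 268435456 := by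
    exact_mod_cast hB
  have hrc : (curv m1 ((A x - B x) + (B x - A x)) : ℝ) + N * κ ≤ rowC N m1 dm (A x) (B x) := by
    rw [rowC_eq]
    push_cast at hκb ⊢
    have hN0 : (0 : ℝ) ≤ N := by positivity
    have := mul_le_mul_of_nonneg_left hκb hN0
    linarith
  have hκ0 : 0 ≤ κ := by
    rw [hκ]
    have := FS_pos
    positivity
  have hfin : FS * (Fr N v x + m * sin (v x)) < 0 := by
    have e3 : FS * (Fr N v x + m * sin (v x)) = FS * (∑ j ∈ range x, ph (Df v x j)) +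
        FS * (∑ j ∈ Ico (x + 1) N, ph (Df v x j)) + FS * (m * sin (v x)) := by
      rw [hFr]; ring
    rw [e3]
    -- combine
    set SA1 := ∑ j ∈ range x, (VA (A x - A j) (B x - B j) : ℝ)
    set SB1 := ∑ j ∈ range x, (VB (A x - A j) (B x - B j) : ℝ)
    set SA2 := ∑ j ∈ Ico (x + 1) N, (VA (A x + 65536 - A j) (B x + 65536 - B j) : ℝ)
    set SB2 := ∑ j ∈ Ico (x + 1) N, (VB (A x + 65536 - A j) (B x + 65536 - B j) : ℝ)
    set R : ℝ := (rowC N m1 dm (A x) (B x) : ℝ)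
    set FA : ℝ := (fieldV m0 m1 (A x) : ℝ)
    set FB : ℝ := (fieldV m0 m1 (B x) : ℝ)
    have g1 : (1 - t) * (SA1 + SA2 + FA + R - N * 268435456) ≤ 0 :=
      mul_nonpos_of_nonneg_of_nonpos (sub_nonneg.2 ht1) (by linarith)
    have g2 : t * (SB1 + SB2 + FB + R - N * 268435456) ≤ 0 :=
      mul_nonpos_of_nonneg_of_nonpos ht0 (by linarith)
    have g3 : (1 - t) * (SA1 + SA2 + FA + R - N * 268435456) +
        t * (SB1 + SB2 + FB + R - N * 268435456) < 0 := by
      rcases ht0.eq_or_lt with h | h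
      · rw [← h]; linarith
      · have : t * (SB1 + SB2 + FB + R - N * 268435456) < 0 :=
          mul_neg_of_pos_of_neg h (by linarith)
        linarith
    linarith
  by_contra hcon
  push Not at hcon
  have := mul_nonneg FS_pos.le hcon
  linarith

end Pool.Agent.Helper99.Ring9
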