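import Mathlib
import Pool.Agent.Helper99.Ring9.Seg

namespace Pool.Agent.Helper99.Ring9

open Real Finset

/-- sites `i-1, …, 0` -/
noncomputable def mkDown (A B : ℕ → ℕ) : ℕ → PL
  | 0 => PL.nil
  | i + 1 => PL.cons (A i) (B i) (mkDown A B i)

lemma mkUp_succ (A B : ℕ → ℕ) (n i : ℕ) :
    mkUp A B (n + 1) i = PL.cons (A i) (B i) (mkUp A B n (i + 1)) := rfl

lemma mkUp_zero (A B : ℕ → ℕ) (i : ℕ) : mkUp A B 0 i = PL.nil := rfl

lemma sumV_cons (X Y a b : ℕ) (t : PL) :
    sumV X Y (PL.cons a b t) = VA (X - a) (Y - b) + sumV X Y t := rfl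

lemma sumW_cons (X Y a b : ℕ) (t : PL) :
    sumW X Y (PL.cons a b t) = VB (X - a) (Y - b) + sumW X Y t := rfl

lemma sumV_down (A B : ℕ → ℕ) (X Y i : ℕ) :
    sumV X Y (mkDown A B i) = ∑ j ∈ range i, VA (X - A j) (Y - B j) := by
  induction i with
  | zero => simp; rfl
  | succ i ih =>
    have h : mkDown A B (i + 1) = PL.cons (A i) (B i) (mkDown A B i) := rfl
    rw [h, sumV_cons, ih, sum_range_succ, add_comm]

lemma sumW_down (A B : ℕ → ℕ) (X Y i : ℕ) :
    sumW X Y (mkDown A B i) = ∑ j ∈ range i, VB (X - A j) (Y - B j) := by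
  induction i with
  | zero => simp; rfl
  | succ i ih =>
    have h : mkDown A B (i + 1) = PL.cons (A i) (B i) (mkDown A B i) := rfl
    rw [h, sumW_cons, ih, sum_range_succ, add_comm]

lemma sumV_up (A B : ℕ → ℕ) (X Y n : ℕ) : ∀ i,
    sumV X Y (mkUp A B n i) = ∑ j ∈ Ico i (i + n), VA (X - A j) (Y - B j) := by
  induction n with
  | zero => intro i; simp; rfl
  | succ n ih =>
    intro i
    rw [mkUp_succ, sumV_cons, ih]
    have e : i + (n + 1) = (i + 1) + n := by ring
    have hlt : i < i + 1 + n := by omega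
    rw [e, sum_eq_sum_Ico_succ_bot hlt]

lemma sumW_up (A B : ℕ → ℕ) (X Y n : ℕ) : ∀ i,
    sumW X Y (mkUp A B n i) = ∑ j ∈ Ico i (i + n), VB (X - A j) (Y - B j) := by
  induction n with
  | zero => intro i; simp; rfl
  | succ n ih =>
    intro i
    rw [mkUp_succ, sumW_cons, ih]
    have e : i + (n + 1) = (i + 1) + n := by ring
    have hlt : i < i + 1 + n := by omega
    rw [e, sum_eq_sum_Ico_succ_bot hlt]

lemma nat_blt_eq (a b : ℕ) : (Nat.blt a b = true) ↔ a < b := by
  unfold Nat.blt; rw [Nat.ble_eq]; exact Iff.rfl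

lemma rowA_iff (N m0 m1 dm a b : ℕ) (p t : PL) : rowA N m0 m1 dm a b p t = true ↔
    sumV a b p + sumV (a + 65536) (b + 65536) t + (fieldV m0 m1 a + rowC N m1 dm a b) <
      N * 268435456 := nat_blt_eq _ _

lemma rowB_iff (N m0 m1 dm a b : ℕ) (p t : PL) : rowB N m0 m1 dm a b p t = true ↔
    sumW a b p + sumW (a + 65536) (b + 65536) t + (fieldV m0 m1 b + rowC N m1 dm a b) <
      N * 268435456 := nat_blt_eq _ _

lemma segRows_cons (N m0 m1 C dm a b : ℕ) (t p : PL) :
    segRows N m0 m1 C dm (PL.cons a b t) p =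
      bAnd (bOr (Nat.ble (C + C) (a + b))
        (bAnd (rowA N m0 m1 dm a b p t) (rowB N m0 m1 dm a b p t)))
        (segRows N m0 m1 C dm t (PL.cons a b p)) := rfl

lemma segRows_spec (N m0 m1 C dm : ℕ) (A B : ℕ → ℕ) (n : ℕ) : ∀ i,
    segRows N m0 m1 C dm (mkUp A B n i) (mkDown A B i) = true →
    ∀ x, i ≤ x → x < i + n → (C + C ≤ A x + B x) ∨
      ((∑ j ∈ range x, VA (A x - A j) (B x - B j) +
      ∑ j ∈ Ico (x + 1) (i + n), VA (A x + 65536 - A j) (B x + 65536 - B j) +
      (fieldV m0 m1 (A x) + rowC N m1 dm (A x) (B x)) < N * 268435456) ∧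
      (∑ j ∈ range x, VB (A x - A j) (B x - B j) +
      ∑ j ∈ Ico (x + 1) (i + n), VB (A x + 65536 - A j) (B x + 65536 - B j) +
      (fieldV m0 m1 (B x) + rowC N m1 dm (A x) (B x)) < N * 268435456)) := by
  induction n with
  | zero => intro i _ x h1 h2; omega
  | succ n ih =>
    intro i h x h1 h2
    rw [mkUp_succ, segRows_cons, bAnd_eq, Bool.and_eq_true, bOr_eq, Bool.or_eq_true, bAnd_eq,
      Bool.and_eq_true, rowA_iff, rowB_iff, Nat.ble_eq] at h
    obtain ⟨h3, h4⟩ := h
    rcases h1.eq_or_lt with h5 | h5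
    · subst h5
      rcases h3 with h3 | h3
      · left; exact h3
      · right
        rw [sumV_down, sumW_down, sumV_up, sumW_up] at h3
        have e : i + (n + 1) = (i + 1) + n := by ring
        rw [e]
        exact h3
    · have h6 := ih (i + 1) h4 x (by omega) (by omega)
      have e : i + (n + 1) = (i + 1) + n := by ring
      rw [e]
      exact h6

lemma maxN_spec (f : ℕ → ℕ) (n : ℕ) : ∀ j, j < n → f j ≤ maxN f n := by
  induction n with
  | zero => intro j hj; omega
  | succ n ih =>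
    intro j hj
    have h : maxN f (n + 1) = nmax (f n) (maxN f n) := rfl
    rw [h, nmax_eq]
    rcases Nat.lt_succ_iff_lt_or_eq.1 hj with h1 | h1
    · exact (ih j h1).trans (le_max_right _ _)
    · rw [h1]; exact le_max_left _ _

lemma strictMono_of_step {N : ℕ} {A : ℕ → ℕ} (h : ∀ k, k < N - 1 → A k < A (k + 1)) :
    ∀ i j, i < j → j < N → A i < A j := by
  intro i j hij
  induction j with
  | zero => omega
  | succ j ih =>
    intro hj
    rcases Nat.lt_succ_iff_lt_or_eq.1 hij with h1 | h1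
    · exact (ih h1 (by omega)).trans (h j (by omega))
    · rw [h1]; exact h j (by omega)

lemma segOK_iff (N m0 m1 C : ℕ) (A B : ℕ → ℕ) : segOK N m0 m1 C A B = true ↔
    (∀ k, k < N → B k ≤ A k) ∧ (∀ k, k < N - 1 → A k < A (k + 1) ∧ B k < B (k + 1)) ∧
    A (N - 1) ≤ C ∧ A (N - 1) ≤ A 0 + 65536 ∧ B (N - 1) ≤ B 0 + 65536 ∧ 65536 ≤ B 1 ∧
    C ≤ 163840 ∧ segRows N m0 m1 C (maxN (fun k => A k - B k) N) (mkUp A B (N - 1) 1)
      (mkDown A B 1) = true := by
  have h : segOK N m0 m1 C A B = bAnd (allN (fun k => Nat.ble (B k) (A k)) N)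
    (bAnd (allN (fun k => bAnd (Nat.blt (A k) (A (k + 1))) (Nat.blt (B k) (B (k + 1))))
      (N - 1))
    (bAnd (Nat.ble (A (N - 1)) C)
    (bAnd (Nat.ble (A (N - 1)) (A 0 + 65536))
    (bAnd (Nat.ble (B (N - 1)) (B 0 + 65536))
    (bAnd (Nat.ble 65536 (B 1))
    (bAnd (Nat.ble C 163840)
    (segRows N m0 m1 C (maxN (fun k => A k - B k) N)
      (mkUp A B (N - 1) 1) (mkDown A B 1)))))))) := rfl
  rw [h]
  simp only [bAnd_eq, Bool.and_eq_true, allN_iff, Nat.ble_eq, nat_blt_eq]

lemma segOK_GS {N m0 m1 C : ℕ} {A B : ℕ → ℕ} (h : segOK N m0 m1 C A B = true) :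
    GS N C (maxN (fun k => A k - B k) N) A B := by
  rw [segOK_iff] at h
  obtain ⟨h1, h2, h3, h4, h5, h6, h7, _⟩ := h
  have mA := strictMono_of_step (N := N) (fun k hk => (h2 k hk).1)
  have mB := strictMono_of_step (N := N) (fun k hk => (h2 k hk).2)
  have lA : ∀ k, k < N → A k ≤ A (N - 1) := by
    intro k hk
    rcases Nat.lt_or_ge k (N - 1) with h | h
    · exact (mA k (N - 1) h (by omega)).le
    · have : k = N - 1 := by omega
      rw [this]
  have lB : ∀ k, k < N → B k ≤ B (N - 1) := by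
    intro k hk
    rcases Nat.lt_or_ge k (N - 1) with h | h
    · exact (mB k (N - 1) h (by omega)).le
    · have : k = N - 1 := by omega
      rw [this]
  refine ⟨h1, mA, mB, fun k hk => (lA k hk).trans h3, fun k hk => (lA k hk).trans h4,
    fun k hk => (lB k hk).trans h5, ?_, h7, fun k hk => maxN_spec (fun k => A k - B k) N k hk⟩
  intro k hk0 hk
  rcases Nat.lt_or_ge 1 k with h | h
  · exact h6.trans (mB 1 k h hk).le
  · have : k = 1 := by omega
    rw [this]; exact h6

/-- the real configuration of a grid configuration -/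
noncomputable def PP (A : ℕ → ℕ) : ℕ → ℝ := fun k => P (A k)

lemma segOK_seg {N m0 m1 C : ℕ} {A B : ℕ → ℕ} {m : ℝ} (h : segOK N m0 m1 C A B = true)
    (h0 : (m0 : ℝ) / 1024 ≤ m) (h1 : m ≤ (m1 : ℝ) / 1024) :
    Seg N m (P C) (PP A) (PP B) := by
  have hg := segOK_GS h
  refine ⟨fun k hk => P_le (hg.le k hk), ?_, ?_⟩
  · intro t ht0 ht1
    constructor
    · intro i j hij hj
      have a := P_lt (hg.monoA i j hij hj)
      have b := P_lt (hg.monoB i j hij hj)
      unfold itr PP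
      rcases ht0.eq_or_lt with h2 | h2
      · rw [← h2]; linarith
      · have c1 := mul_lt_mul_of_pos_left b h2
        have c2 := mul_le_mul_of_nonneg_left a.le (sub_nonneg.2 ht1)
        linarith
    · intro j hj
      have a := P_le (hg.wrapA j hj)
      have b := P_le (hg.wrapB j hj)
      rw [← P_add_two_pi] at a b
      unfold itr PP
      have c1 := mul_le_mul_of_nonneg_left b ht0
      have c2 := mul_le_mul_of_nonneg_left a (sub_nonneg.2 ht1)
      linarith
  · intro t ht0 ht1 x hx0 hxN hD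
    have h2 := h
    rw [segOK_iff] at h2
    obtain ⟨_, _, _, _, _, _, _, h3⟩ := h2
    have h4 := segRows_spec N m0 m1 C (maxN (fun k => A k - B k) N) A B (N - 1) 1 h3 x (by omega)
      (by omega)
    have e : 1 + (N - 1) = N := by omega
    rw [e] at h4
    rcases h4 with h4 | ⟨h4, h5⟩
    · left
      have a1 := hg.capA x hxN
      have a2 := hg.le x hxN
      have a3 : A x = C := by omega
      have a4 : B x = C := by omega
      unfold PP
      rw [a3, a4]
      exact ⟨rfl, rfl⟩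
    · right
      exact row_neg hg h0 h1 x hx0 hxN h4 h5 t ht0 ht1 hD

lemma segOK_reach {N m0 m1 C : ℕ} {A B : ℕ → ℕ} {m : ℝ} (hN : 0 < N)
    (h : segOK N m0 m1 C A B = true)
    (h0 : (m0 : ℝ) / 1024 ≤ m) (h1 : m ≤ (m1 : ℝ) / 1024) :
    Reach N m (P C) (PP A) (PP B) := (segOK_seg h h0 h1).reach hN

end Pool.Agent.Helper99.Ring9
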