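import Mathlib
import Pool.Agent.Helper99.Ring9.SegOK
import Pool.Agent.Helper99.RingLambda

namespace Pool.Agent.Helper99.Ring9

open Real Finset

lemma sumN_eq (f : ℕ → ℕ) (n : ℕ) : sumN f n = ∑ j ∈ range n, f j := by
  induction n with
  | zero => simp; rfl
  | succ n ih =>
    have h : sumN f (n + 1) = f n + sumN f n := rfl
    rw [h, ih, sum_range_succ, add_comm]

/-- Two-sided bounds for a configuration. -/
structure PairH (N : ℕ) (u w : ℕ → ℕ) (y : ℕ → ℝ) : Prop where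
  y0 : 0 ≤ y 0
  y0' : y 0 ≤ π
  pos : ∀ k, 0 < k → k < N → 0 ≤ y k ∧ y k ≤ 2 * π
  up : ∀ k, k < N → y k ≤ P (u k)
  lo0 : - y 0 ≤ P (w 0)
  lo : ∀ k, 0 < k → k < N → 2 * π - y k ≤ P (w (N - k))

lemma cz_eq (p : ℕ) : cz p = if 98304 ≤ p then 2097152 else
    if 81920 ≤ p then 1048576 + sinU (p - 81920) else 1048576 - sinLo (81920 - p) := by
  have h : cz p = bIf (Nat.ble 98304 p) 2097152
    (bIf (Nat.ble 81920 p) (1048576 + sinU (p - 81920)) (1048576 - sinLo (81920 - p))) := rfl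
  rw [h, bIf_ble, bIf_ble]

lemma P_nonneg_iff (p : ℕ) : 0 ≤ P p ↔ 65536 ≤ p := by
  unfold P
  have := hh_pos
  constructor
  · intro h
    by_contra hcon
    push Not at hcon
    have h1 : (p : ℝ) < 65536 := by exact_mod_cast hcon
    nlinarith
  · intro h
    have h1 : (65536 : ℝ) ≤ p := by exact_mod_cast h
    exact mul_nonneg (by linarith) this.le

lemma cz_bound (p : ℕ) (y : ℝ) (hy : 0 ≤ y) (h : y ≤ P p) :
    1048576 * (1 - cos y) ≤ (cz p : ℝ) := by
  have hp : 65536 ≤ p := (P_nonneg_iff p).1 (hy.trans h)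
  have hpos := hh_pos
  rw [cz_eq]
  split_ifs with c1 c2
  · have := neg_one_le_cos y
    push_cast
    linarith
  · obtain ⟨z, rfl⟩ : ∃ z, p = z + 81920 := ⟨p - 81920, by omega⟩
    rw [Nat.add_sub_cancel]
    have hz : z ≤ 32768 := by omega
    have e : P (z + 81920) = (z : ℝ) * hh + π / 2 := by
      unfold P; rw [pi_eq]; push_cast; ring
    have hle : P (z + 81920) ≤ π := by
      have : P (z + 81920) ≤ P 98304 := P_le (by omega)
      have e2 : P 98304 = π := by unfold P; rw [pi_eq]; push_cast; ring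
      linarith
    have hc := cos_le_cos_of_nonneg_of_le_pi hy hle h
    rw [e, cos_add_pi_div_two] at hc
    have := sinU_bound z hz
    push_cast
    linarith
  · obtain ⟨z, hz⟩ : ∃ z, z + p = 81920 := ⟨81920 - p, by omega⟩
    have e0 : 81920 - p = z := by omega
    rw [e0]
    have hz' : z ≤ 32768 := by omega
    have e : P p = π / 2 - (z : ℝ) * hh := by
      have : (z : ℝ) + p = 81920 := by exact_mod_cast hz
      unfold P; rw [pi_eq]
      have : (p : ℝ) = 81920 - z := by linarith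
      rw [this]; ring
    have hle : P p ≤ π := by
      rw [e]
      have : 0 ≤ (z : ℝ) * hh := by positivity
      have := pi_pos
      linarith
    have hc := cos_le_cos_of_nonneg_of_le_pi hy hle h
    rw [e, cos_pi_div_two_sub] at hc
    have h1 := sinLo_bound z hz'
    have h2 := le_cast_sub 1048576 (sinLo z)
    push_cast at h2 ⊢
    linarith

lemma mtest_sound {N m0 : ℕ} {u w : ℕ → ℕ} {y : ℕ → ℝ} (hy : PairH N u w y)
    (h : mtest N m0 u w = true) : - ∑ k ∈ range N, cos (y k) < (m0 : ℝ) / 1024 := by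
  have h1 : ∑ k ∈ range N, cz (zz N u w k) < N * 1048576 + m0 * 1024 := by
    have h2 : mtest N m0 u w = Nat.blt (sumN (fun k => cz (zz N u w k)) N)
      (N * 1048576 + m0 * 1024) := rfl
    rw [h2, nat_blt_eq, sumN_eq] at h
    exact h
  have h3 : ∑ k ∈ range N, 1048576 * (1 - cos (y k)) ≤ ∑ k ∈ range N, (cz (zz N u w k) : ℝ) := by
    apply sum_le_sum
    intro k hk
    rw [mem_range] at hk
    rcases Nat.eq_zero_or_pos k with h0 | h0
    · subst h0
      have e : zz N u w 0 = u 0 := rfl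
      rw [e]
      exact cz_bound _ _ hy.y0 (hy.up 0 hk)
    · obtain ⟨k', rfl⟩ : ∃ k', k = k' + 1 := ⟨k - 1, by omega⟩
      have e : zz N u w (k' + 1) = nmin (u (k' + 1)) (w (N - (k' + 1))) := rfl
      rw [e, nmin_eq]
      have hp := hy.pos (k' + 1) h0 hk
      rcases min_choice (u (k' + 1)) (w (N - (k' + 1))) with h4 | h4
      · rw [h4]
        exact cz_bound _ _ hp.1 (hy.up _ hk)
      · rw [h4]
        have := cz_bound _ (2 * π - y (k' + 1)) (by linarith) (hy.lo _ h0 hk)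
        rw [cos_two_pi_sub] at this
        exact this
  have h4 : (∑ k ∈ range N, (cz (zz N u w k) : ℝ)) < N * 1048576 + m0 * 1024 := by
    exact_mod_cast h1
  rw [← mul_sum, sum_sub_distrib] at h3
  simp only [sum_const, card_range, nsmul_eq_mul, mul_one] at h3
  linarith

lemma smx_eq (h l : ℕ) : smx h l = if h ≤ 16384 then sinU h else
    if 16384 ≤ l then sinU l else 1048576 := by
  have e : smx h l = bIf (Nat.ble h 16384) (sinU h)
    (bIf (Nat.ble 16384 l) (sinU l) 1048576) := rfl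
  rw [e, bIf_ble, bIf_ble]

lemma grid_le (a b : ℕ) (h : (a : ℝ) * hh ≤ (b : ℝ) * hh) : a ≤ b := by
  have := le_of_mul_le_mul_right h hh_pos
  exact_mod_cast this

lemma smx_bound (h l : ℕ) (z : ℝ) (hh32 : h ≤ 32768) (hz0 : 0 ≤ z) (hz : (l : ℝ) * hh ≤ z)
    (hz' : z ≤ (h : ℝ) * hh) : 1048576 * sin z ≤ (smx h l : ℝ) := by
  have hpos := hh_pos
  have hlh : l ≤ h := grid_le l h (hz.trans hz')
  have hzpi : z ≤ π := by
    refine hz'.trans ?_
    rw [pi_eq]
    have : (h : ℝ) ≤ 32768 := by exact_mod_cast hh32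
    nlinarith
  rw [smx_eq]
  split_ifs with c1 c2
  · have h1 : (h : ℝ) * hh ≤ π / 2 := by
      rw [pi_eq]
      have : (h : ℝ) ≤ 16384 := by exact_mod_cast c1
      nlinarith
    have h2 : sin z ≤ sin ((h : ℝ) * hh) :=
      sin_le_sin_of_le_of_le_pi_div_two (by have := pi_pos; linarith) h1 hz'
    have h3 := sinU_bound h hh32
    linarith
  · have h1 : π / 2 ≤ (l : ℝ) * hh := by
      rw [pi_eq]
      have : (16384 : ℝ) ≤ l := by exact_mod_cast c2
      nlinarith
    have h2 : sin z ≤ sin ((l : ℝ) * hh) := by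
      rw [← sin_pi_sub z, ← sin_pi_sub ((l : ℝ) * hh)]
      exact sin_le_sin_of_le_of_le_pi_div_two (by linarith) (by linarith) (by linarith)
    have h3 := sinU_bound l (by omega)
    linarith
  · have := sin_le_one z
    push_cast
    linarith

lemma g3_eq (N h l p q : ℕ) : g3 N h l p q =
    smx h l * (N * sinU h * 1024 + (p - q) * 102944 - (q - p) * 102943) := rfl

lemma g3_bound (N h l p q : ℕ) (z a : ℝ) (hh32 : h ≤ 32768) (hz0 : 0 ≤ z)
    (hz : (l : ℝ) * hh ≤ z) (hz' : z ≤ (h : ℝ) * hh)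
    (ha : (N : ℝ) * ((h : ℝ) * hh - a) = ((p : ℝ) - q) * hh) :
    (N : ℝ) * 2 ^ 50 * (sin z * (sin z + z - a)) ≤ (g3 N h l p q : ℝ) := by
  have hpos := hh_pos
  have hs := smx_bound h l z hh32 hz0 hz hz'
  have hU := sinU_bound h hh32
  have hhpi : (h : ℝ) * hh ≤ π := by
    rw [pi_eq]
    have : (h : ℝ) ≤ 32768 := by exact_mod_cast hh32
    nlinarith
  have hs0 : 0 ≤ sin z := sin_nonneg_of_nonneg_of_le_pi hz0 (hz'.trans hhpi)
  rw [g3_eq]
  set Y : ℕ := N * sinU h * 1024 + (p - q) * 102944 - (q - p) * 102943 with hY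
  have hY1 := le_cast_sub (N * sinU h * 1024 + (p - q) * 102944) ((q - p) * 102943)
  rw [← hY] at hY1
  -- monotonicity of `sin z + z`
  have hmono : sin z + z ≤ sin ((h : ℝ) * hh) + (h : ℝ) * hh := by
    have h1 : sin z - sin ((h : ℝ) * hh) ≤ |z - (h : ℝ) * hh| := by
      refine (le_abs_self _).trans ?_
      have e : sin z - sin ((h : ℝ) * hh) = 2 * sin ((z - (h : ℝ) * hh) / 2) *
        cos ((z + (h : ℝ) * hh) / 2) := sin_sub_sin _ _
      rw [e, abs_mul, abs_mul, abs_two]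
      have h2 := abs_cos_le_one ((z + (h : ℝ) * hh) / 2)
      have h3 := abs_sin_le_abs (x := (z - (h : ℝ) * hh) / 2)
      rw [abs_div, abs_two] at h3
      have h4 := abs_nonneg (sin ((z - (h : ℝ) * hh) / 2))
      have h5 : 0 ≤ |cos ((z + (h : ℝ) * hh) / 2)| := abs_nonneg _
      nlinarith
    rw [abs_of_nonpos (by linarith)] at h1
    linarith
  have h230 : (102943 : ℝ) ≤ 2 ^ 30 * hh ∧ 2 ^ 30 * hh ≤ 102944 := by
    unfold hh
    have := pi_lo
    have := pi_hi
    constructor <;> linarith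
  have hX : (N : ℝ) * 2 ^ 30 * (sin z + z - a) ≤ (Y : ℝ) := by
    have hN0 : (0 : ℝ) ≤ (N : ℝ) := by positivity
    have k1 : (N : ℝ) * 2 ^ 30 * (sin z + z - a) ≤
        (N : ℝ) * 2 ^ 30 * (sin ((h : ℝ) * hh) + (h : ℝ) * hh - a) := by
      apply mul_le_mul_of_nonneg_left _ (by positivity)
      linarith
    have k2 : (N : ℝ) * 2 ^ 30 * (sin ((h : ℝ) * hh) + (h : ℝ) * hh - a) =
        (N : ℝ) * 1024 * (1048576 * sin ((h : ℝ) * hh)) + ((p : ℝ) - q) * (2 ^ 30 * hh) := by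
      have : (N : ℝ) * 2 ^ 30 * (sin ((h : ℝ) * hh) + (h : ℝ) * hh - a) =
        (N : ℝ) * 1024 * (1048576 * sin ((h : ℝ) * hh)) +
          2 ^ 30 * ((N : ℝ) * ((h : ℝ) * hh - a)) := by ring
      rw [this, ha]; ring
    have k3 : (N : ℝ) * 1024 * (1048576 * sin ((h : ℝ) * hh)) ≤ (N : ℝ) * 1024 * (sinU h : ℝ) :=
      mul_le_mul_of_nonneg_left hU (by positivity)
    have k4 : ((p : ℝ) - q) * (2 ^ 30 * hh) ≤
        ((p - q : ℕ) : ℝ) * 102944 - ((q - p : ℕ) : ℝ) * 102943 := by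
      rcases le_total q p with h1 | h1
      · rw [Nat.cast_sub h1, Nat.sub_eq_zero_of_le h1]
        have : (0 : ℝ) ≤ (p : ℝ) - q := by
          have : (q : ℝ) ≤ p := by exact_mod_cast h1
          linarith
        push_cast
        nlinarith [h230.2]
      · rw [Nat.cast_sub h1, Nat.sub_eq_zero_of_le h1]
        have : (0 : ℝ) ≤ (q : ℝ) - p := by
          have : (p : ℝ) ≤ q := by exact_mod_cast h1
          linarith
        push_cast
        nlinarith [h230.1]
    push_cast at hY1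
    linarith
  have hY0 : (0 : ℝ) ≤ (Y : ℝ) := by positivity
  have e : (N : ℝ) * 2 ^ 50 * (sin z * (sin z + z - a)) =
      (1048576 * sin z) * ((N : ℝ) * 2 ^ 30 * (sin z + z - a)) := by ring
  rw [e]
  push_cast
  calc (1048576 * sin z) * ((N : ℝ) * 2 ^ 30 * (sin z + z - a)) ≤ (1048576 * sin z) * (Y : ℝ) :=
        mul_le_mul_of_nonneg_left hX (by positivity)
    _ ≤ (smx h l : ℝ) * (Y : ℝ) := mul_le_mul_of_nonneg_right hs hY0

lemma gpos_eq (N c0 hi lo k : ℕ) : gpos N c0 hi lo k =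
    g3 N (min hi 98304 - 65536) (lo - 65536) (N * (min hi 98304 - 65536))
      (65536 * k + N * c0) := by
  have e : gpos N c0 hi lo k = g3 N (nmin hi 98304 - 65536) (lo - 65536)
    (N * (nmin hi 98304 - 65536)) (65536 * k + N * c0) := rfl
  rw [e, nmin_eq]

lemma gneg_eq (N c0 hi lo k : ℕ) : gneg N c0 hi lo k =
    g3 N (min hi 98304 - 65536) (lo - 65536) (N * (min hi 98304 - 65536) + N * c0)
      (65536 * k) := by
  have e : gneg N c0 hi lo k = g3 N (nmin hi 98304 - 65536) (lo - 65536)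
    (N * (nmin hi 98304 - 65536) + N * c0) (65536 * k) := rfl
  rw [e, nmin_eq]

lemma hi_grid (hi : ℕ) (z : ℝ) (hz0 : 0 ≤ z) (hzpi : z ≤ π) (hz : z ≤ P hi) :
    z ≤ ((min hi 98304 - 65536 : ℕ) : ℝ) * hh := by
  have hp : 65536 ≤ hi := (P_nonneg_iff hi).1 (hz0.trans hz)
  rcases le_total hi 98304 with h | h
  · rw [min_eq_left h, Nat.cast_sub hp]
    push_cast
    exact hz
  · rw [min_eq_right h]
    have e : ((98304 - 65536 : ℕ) : ℝ) * hh = π := by rw [pi_eq]; norm_num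
    rw [e]; exact hzpi

lemma lo_grid (lo : ℕ) (z : ℝ) (hz0 : 0 ≤ z) (hz : P lo ≤ z) :
    ((lo - 65536 : ℕ) : ℝ) * hh ≤ z := by
  rcases le_total 65536 lo with h | h
  · rw [Nat.cast_sub h]
    push_cast
    exact hz
  · rw [Nat.sub_eq_zero_of_le h]
    simpa using hz0

lemma gpos_alg (N c0 k H : ℕ) (hN : 0 < N) :
    (N : ℝ) * ((H : ℝ) * hh - (2 * π * k / N + c0 * hh)) =
      (((N * H : ℕ) : ℝ) - ((65536 * k + N * c0 : ℕ) : ℝ)) * hh := by
  have hN' : (N : ℝ) ≠ 0 := by positivity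
  rw [two_pi_eq]
  push_cast
  field_simp

lemma gneg_alg (N c0 k H : ℕ) (hN : 0 < N) (hk : k ≤ N) :
    (N : ℝ) * ((H : ℝ) * hh - (2 * π * (N - k) / N - c0 * hh)) =
      (((N * H + N * c0 : ℕ) : ℝ) - ((65536 * (N - k) : ℕ) : ℝ)) * hh := by
  have hN' : (N : ℝ) ≠ 0 := by positivity
  rw [two_pi_eq]
  push_cast [Nat.cast_sub hk]
  field_simp
  ring

lemma gpos_bound (N c0 hi lo k : ℕ) (hN : 0 < N) (y : ℝ) (hy0 : 0 ≤ y) (hypi : y ≤ π)
    (hhi : y ≤ P hi) (hlo : P lo ≤ y) :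
    (N : ℝ) * 2 ^ 50 * (sin y ^ 2 + (y - 2 * π * k / N - c0 * hh) * sin y) ≤
      (gpos N c0 hi lo k : ℝ) := by
  have hN' : (N : ℝ) ≠ 0 := by positivity
  rw [gpos_eq]
  have hle : min hi 98304 - 65536 ≤ 32768 := by
    have := min_le_right hi 98304
    omega
  have := g3_bound N (min hi 98304 - 65536) (lo - 65536) (N * (min hi 98304 - 65536))
    (65536 * k + N * c0) y (2 * π * k / N + c0 * hh) hle hy0 (lo_grid lo y hy0 hlo)
    (hi_grid hi y hy0 hypi hhi) (gpos_alg N c0 k _ hN)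
  refine le_trans (le_of_eq ?_) this
  ring

lemma gneg_bound (N c0 hi lo k : ℕ) (hk : k ≤ N) (hN : 0 < N) (y : ℝ) (hy0 : 0 ≤ 2 * π - y)
    (hypi : 2 * π - y ≤ π)
    (hhi : 2 * π - y ≤ P hi) (hlo : P lo ≤ 2 * π - y) :
    (N : ℝ) * 2 ^ 50 * (sin y ^ 2 + (y - 2 * π * k / N - c0 * hh) * sin y) ≤
      (gneg N c0 hi lo (N - k) : ℝ) := by
  have hN' : (N : ℝ) ≠ 0 := by positivity
  rw [gneg_eq]
  have hle : min hi 98304 - 65536 ≤ 32768 := by
    have := min_le_right hi 98304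
    omega
  have := g3_bound N (min hi 98304 - 65536) (lo - 65536) (N * (min hi 98304 - 65536) + N * c0)
    (65536 * (N - k)) (2 * π - y) (2 * π * (N - k) / N - c0 * hh) hle hy0
    (lo_grid lo _ hy0 hlo)
    (hi_grid hi _ hy0 hypi hhi) (gneg_alg N c0 k _ hN hk)
  refine le_trans (le_of_eq ?_) this
  rw [sin_two_pi_sub]
  have e : 2 * π * ((N : ℝ) - k) / N = 2 * π - 2 * π * k / N := by
    field_simp
  rw [e]
  ring

lemma P_two_pi_sub (W : ℕ) (z : ℝ) (hz : 0 ≤ z) (h : 2 * π - z ≤ P W) : P (196608 - W) ≤ z := by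
  rcases le_total W 196608 with h1 | h1
  · have e : P (196608 - W) = 2 * π - P W := by
      unfold P
      rw [Nat.cast_sub h1, two_pi_eq]
      push_cast; ring
    rw [e]; linarith
  · rw [Nat.sub_eq_zero_of_le h1]
    have : P 0 ≤ 0 := by
      unfold P
      have := hh_pos
      push_cast
      nlinarith
    linarith

lemma P_neg (W : ℕ) (z : ℝ) (hz : 0 ≤ z) (h : - z ≤ P W) : P (131072 - W) ≤ z := by
  rcases le_total W 131072 with h1 | h1
  · have e : P (131072 - W) = - P W := by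
      unfold P
      rw [Nat.cast_sub h1]
      push_cast; ring
    rw [e]; linarith
  · rw [Nat.sub_eq_zero_of_le h1]
    have : P 0 ≤ 0 := by
      unfold P
      have := hh_pos
      push_cast
      nlinarith
    linarith

lemma t2k_eq (N c0 U W k : ℕ) : t2k N c0 U W k =
    if U ≤ 98304 then gpos N c0 U (196608 - W) k else
      if W ≤ 98304 then gneg N c0 W (196608 - U) (N - k) else
        max (gpos N c0 U (196608 - W) k) (gneg N c0 W (196608 - U) (N - k)) := by
  have e : t2k N c0 U W k = bIf (Nat.ble U 98304) (gpos N c0 U (196608 - W) k)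
    (bIf (Nat.ble W 98304) (gneg N c0 W (196608 - U) (N - k))
      (nmax (gpos N c0 U (196608 - W) k) (gneg N c0 W (196608 - U) (N - k)))) := rfl
  rw [e, bIf_ble, bIf_ble, nmax_eq]

lemma P_98304 : P 98304 = π := by
  unfold P; rw [pi_eq]; push_cast; ring

lemma t2k_bound (N c0 U W k : ℕ) (hk : k ≤ N) (hN : 0 < N) (y : ℝ) (hy0 : 0 ≤ y)
    (hy2 : y ≤ 2 * π) (hU : y ≤ P U) (hW : 2 * π - y ≤ P W) :
    (N : ℝ) * 2 ^ 50 * (sin y ^ 2 + (y - 2 * π * k / N - c0 * hh) * sin y) ≤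
      (t2k N c0 U W k : ℝ) := by
  have hlo := P_two_pi_sub W y hy0 hW
  have hlo' := P_two_pi_sub U (2 * π - y) (by linarith) (by linarith)
  rw [t2k_eq]
  split_ifs with c1 c2
  · have h1 : P U ≤ π := by rw [← P_98304]; exact P_le c1
    exact gpos_bound N c0 U _ k hN y hy0 (by linarith) hU hlo
  · have h1 : P W ≤ π := by rw [← P_98304]; exact P_le c2
    exact gneg_bound N c0 W _ k hk hN y (by linarith) (by linarith) hW hlo'
  · rcases le_total y π with h1 | h1
    · have := gpos_bound N c0 U _ k hN y hy0 h1 hU hlo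
      refine this.trans ?_
      exact_mod_cast le_max_left _ _
    · have := gneg_bound N c0 W _ k hk hN y (by linarith) (by linarith) hW hlo'
      refine this.trans ?_
      exact_mod_cast le_max_right _ _

lemma lamT_bound (N p : ℕ) (hp : p + 1 < N) :
    (lamT N p : ℝ) ≤ 1048576 * Ring.fA (π * ((p + 1 : ℕ) : ℝ) / N) := by
  have hpos := hh_pos
  have hN0 : (0 : ℝ) < N := by
    have : 0 < N := by omega
    exact_mod_cast this
  set s : ℕ := sinU ((65536 * min (p + 1) (N - (p + 1)) + (2 * N - 1)) / (2 * N)) with hs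
  have e : lamT N p = 2199023255552 / s - s := by
    have e1 : lamT N p = (fun s => 2199023255552 / s - s)
      (sinU ((65536 * nmin (p + 1) (N - (p + 1)) + (2 * N - 1)) / (2 * N))) := rfl
    rw [e1, nmin_eq]
  set mn := min (p + 1) (N - (p + 1)) with hmn
  have hmn2 : 2 * mn ≤ N := by omega
  set x : ℕ := (65536 * mn + (2 * N - 1)) / (2 * N) with hx
  have hxub : x ≤ 16384 := by
    rw [hx]
    have : 65536 * mn + (2 * N - 1) < (16384 + 1) * (2 * N) := by omega
    have h3 : (65536 * mn + (2 * N - 1)) / (2 * N) < 16384 + 1 :=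
      Nat.div_lt_of_lt_mul (by omega)
    omega
  have hxlb : 65536 * mn ≤ 2 * N * x := by
    rw [hx]
    have h1 := Nat.lt_mul_div_succ (65536 * mn + (2 * N - 1)) (by omega : 0 < 2 * N)
    set q := (65536 * mn + (2 * N - 1)) / (2 * N)
    have h2 : 2 * N * (q + 1) = 2 * N * q + 2 * N := by ring
    rw [h2] at h1
    omega
  -- sine
  set σ : ℝ := sin (π * ((p + 1 : ℕ) : ℝ) / N) with hσ
  have hang : 0 < π * ((p + 1 : ℕ) : ℝ) / N := by positivity
  have hang' : π * ((p + 1 : ℕ) : ℝ) / N < π := by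
    rw [div_lt_iff₀ hN0]
    apply mul_lt_mul_of_pos_left _ pi_pos
    exact_mod_cast hp
  have hσpos : 0 < σ := sin_pos_of_pos_of_lt_pi hang hang'
  have hσmn : σ = sin (π * (mn : ℝ) / N) := by
    rw [hσ, hmn]
    rcases le_total (p + 1) (N - (p + 1)) with h | h
    · rw [min_eq_left h]
    · rw [min_eq_right h, Nat.cast_sub hp.le]
      rw [← sin_pi_sub]
      congr 1
      push_cast
      field_simp
  have hxr : π * (mn : ℝ) / N ≤ (x : ℝ) * hh := by
    rw [div_le_iff₀ hN0, pi_eq]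
    have : (65536 * mn : ℝ) ≤ 2 * N * x := by exact_mod_cast hxlb
    nlinarith
  have hxpi : (x : ℝ) * hh ≤ π / 2 := by
    rw [pi_eq]
    have : (x : ℝ) ≤ 16384 := by exact_mod_cast hxub
    nlinarith
  have hmono : σ ≤ sin ((x : ℝ) * hh) := by
    rw [hσmn]
    apply sin_le_sin_of_le_of_le_pi_div_two _ hxpi hxr
    have : 0 ≤ π * (mn : ℝ) / N := by positivity
    have := pi_pos
    linarith
  have hsU := sinU_bound x (by omega)
  rw [← hs] at hsU
  have hσs : 1048576 * σ ≤ (s : ℝ) := by linarith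
  have hs0 : (0 : ℝ) < s := by linarith [mul_pos (by norm_num : (0 : ℝ) < 1048576) hσpos]
  have hfA : Ring.fA (π * ((p + 1 : ℕ) : ℝ) / N) = 2 / σ - σ := by
    unfold Ring.fA
    rw [← hσ, cos_sq', ← hσ]
    field_simp
    ring
  rw [e, hfA]
  have hdiv : (2199023255552 : ℝ) / s ≤ 1048576 * (2 / σ) := by
    rw [div_le_iff₀ hs0]
    have : 1048576 * (2 / σ) * (1048576 * σ) = 2199023255552 := by
      field_simp; norm_num
    calc (2199023255552 : ℝ) = 1048576 * (2 / σ) * (1048576 * σ) := this.symm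
      _ ≤ 1048576 * (2 / σ) * s := mul_le_mul_of_nonneg_left hσs (by positivity)
  rcases le_total s (2199023255552 / s) with h | h
  · rw [Nat.cast_sub h]
    have := cast_div_le' 2199023255552 s
    push_cast at this ⊢
    linarith
  · rw [Nat.sub_eq_zero_of_le h]
    have hσ1 : σ ≤ 1 := sin_le_one _
    have : 1 ≤ 2 / σ := by rw [le_div_iff₀ hσpos]; linarith
    push_cast
    nlinarith

lemma lamN_bound (N : ℕ) (hN : 2 ≤ N) : (lamN N : ℝ) ≤ 1048576 * (Ring.LA N / 4) := by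
  have e : lamN N = (sumN (lamT N) (N - 1)) / 4 := rfl
  rw [e, sumN_eq]
  have h1 := cast_div_le' (∑ j ∈ range (N - 1), lamT N j) 4
  push_cast at h1
  have h2 : ∑ j ∈ range (N - 1), (lamT N j : ℝ) ≤
      ∑ j ∈ range (N - 1), 1048576 * Ring.fA (π * ((j + 1 : ℕ) : ℝ) / N) := by
    apply sum_le_sum
    intro j hj
    rw [mem_range] at hj
    exact lamT_bound N j (by omega)
  have h3 : Ring.LA N = ∑ j ∈ range (N - 1), Ring.fA (π * ((j + 1 : ℕ) : ℝ) / N) := by
    rw [Ring.LA_eq]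
    obtain ⟨n, rfl⟩ : ∃ n, N = n + 1 := ⟨N - 1, by omega⟩
    rw [sum_range_succ', Nat.add_sub_cancel]
    simp
  rw [← mul_sum, ← h3] at h2
  push_cast
  linarith

lemma t2_sound {N : ℕ} (hN : 2 ≤ N) {u w : ℕ → ℕ} {y : ℕ → ℝ} (hy : PairH N u w y)
    (h : t2test N u w = true) : ∃ c : ℝ,
    ∑ k ∈ range N, (sin (y k) ^ 2 + (y k - 2 * π * k / N - c) * sin (y k)) < Ring.LA N / 4 := by
  set c0 := (u 0 - w 0) / 2 with hc0
  refine ⟨c0 * hh, ?_⟩
  have hN0 : (0 : ℝ) < N := by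
    have : 0 < N := by omega
    exact_mod_cast this
  have h1 : ∑ k ∈ range N, t2f N c0 u w k < lamN N * N * 1073741824 := by
    have h2 : t2test N u w = Nat.blt (sumN (t2f N c0 u w) N) (lamN N * N * 1073741824) := rfl
    rw [h2, nat_blt_eq, sumN_eq] at h
    exact h
  have h2 : ∑ k ∈ range N, (N : ℝ) * 2 ^ 50 *
      (sin (y k) ^ 2 + (y k - 2 * π * k / N - c0 * hh) * sin (y k)) ≤
      ∑ k ∈ range N, (t2f N c0 u w k : ℝ) := by
    apply sum_le_sum
    intro k hk
    rw [mem_range] at hk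
    rcases Nat.eq_zero_or_pos k with h0 | h0
    · subst h0
      have e : t2f N c0 u w 0 = gpos N c0 (u 0) (131072 - w 0) 0 := rfl
      rw [e]
      exact gpos_bound N c0 (u 0) _ 0 (by omega) (y 0) hy.y0 hy.y0' (hy.up 0 hk)
        (P_neg (w 0) (y 0) hy.y0 hy.lo0)
    · obtain ⟨k', rfl⟩ : ∃ k', k = k' + 1 := ⟨k - 1, by omega⟩
      have e : t2f N c0 u w (k' + 1) =
        t2k N c0 (u (k' + 1)) (w (N - (k' + 1))) (k' + 1) := rfl
      rw [e]
      have hp := hy.pos (k' + 1) h0 hk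
      exact t2k_bound N c0 _ _ (k' + 1) hk.le (by omega) (y (k' + 1)) hp.1 hp.2
        (hy.up _ hk) (hy.lo _ h0 hk)
  have h3 : (∑ k ∈ range N, (t2f N c0 u w k : ℝ)) < lamN N * N * 1073741824 := by
    exact_mod_cast h1
  rw [← mul_sum] at h2
  have h4 := lamN_bound N hN
  have h5 : (N : ℝ) * 2 ^ 50 *
      ∑ k ∈ range N, (sin (y k) ^ 2 + (y k - 2 * π * k / N - c0 * hh) * sin (y k)) <
      (N : ℝ) * 2 ^ 50 * (Ring.LA N / 4) := by
    have h6 : (lamN N : ℝ) * N * 1073741824 ≤ 1048576 * (Ring.LA N / 4) * N * 1073741824 := by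
      gcongr
    have e : 1048576 * (Ring.LA N / 4) * N * 1073741824 = (N : ℝ) * 2 ^ 50 * (Ring.LA N / 4) := by
      ring
    linarith
  exact lt_of_mul_lt_mul_left h5 (by positivity)

end Pool.Agent.Helper99.Ring9
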