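import Mathlib
import Pool.Agent.Helper99.Ring9.Tests

namespace Pool.Agent.Helper99.Ring9

open Real Finset

lemma segsTo_nil (N m0 m1 C fin z : ℕ) :
    segsTo N m0 m1 C fin [] z = segOK N m0 m1 C (dig z) (dig fin) := rfl

lemma segsTo_cons (N m0 m1 C fin z z' : ℕ) (l : List ℕ) :
    segsTo N m0 m1 C fin (z' :: l) z =
      bAnd (segOK N m0 m1 C (dig z) (dig z')) (segsTo N m0 m1 C fin l z') := rfl

lemma segs_cons (N m0 m1 C z z' : ℕ) (l : List ℕ) :
    segs N m0 m1 C (z' :: l) z =
      bAnd (segOK N m0 m1 C (dig z) (dig z')) (segs N m0 m1 C l z') := rfl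

lemma segsTo_reach {N m0 m1 C fin : ℕ} {m : ℝ} (hN : 0 < N)
    (h0 : (m0 : ℝ) / 1024 ≤ m) (h1 : m ≤ (m1 : ℝ) / 1024) (l : List ℕ) :
    ∀ z, segsTo N m0 m1 C fin l z = true → Reach N m (P C) (PP (dig z)) (PP (dig fin)) := by
  induction l with
  | nil =>
    intro z h
    rw [segsTo_nil] at h
    exact segOK_reach hN h h0 h1
  | cons z' l ih =>
    intro z h
    rw [segsTo_cons, bAnd_eq, Bool.and_eq_true] at h
    exact (segOK_reach hN h.1 h0 h1).trans (ih z' h.2)

lemma trainOK_valid {N m0 m1 C z0 fin : ℕ} {tr : List ℕ} {m : ℝ} (hN : 2 ≤ N)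
    (h0 : (m0 : ℝ) / 1024 ≤ m) (h1 : m ≤ (m1 : ℝ) / 1024)
    (h : trainOK N m0 m1 C z0 tr fin = true) : Valid N m (P C) (PP (dig fin)) := by
  have e : trainOK N m0 m1 C z0 tr fin = bAnd (Nat.ble C (dig fin 0 + 65536))
    (bAnd (Nat.ble C (dig z0 (N - 1)))
    (bAnd (allN (fun i => Nat.ble (dig fin (i + 1 + 1)) (dig z0 (i + 1))) (N - 2))
    (segsTo N m0 m1 C fin tr z0))) := rfl
  rw [e] at h
  simp only [bAnd_eq, Bool.and_eq_true, allN_iff, Nat.ble_eq] at h
  obtain ⟨h2, h3, h4, h5⟩ := h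
  have hr := segsTo_reach (by omega : 0 < N) h0 h1 tr z0 h5
  intro y hy hC hy0
  refine train hr ?_ (P_le h3) ?_ hy hC hy0
  · have := P_le h2
    rw [← P_add_two_pi] at this
    exact this
  · intro x hx0 hxN
    obtain ⟨i, rfl⟩ : ∃ i, x = i + 1 := ⟨x - 1, by omega⟩
    exact P_le (h4 i (by omega))

/-- all entries are valid upper bounds -/
def AllV (N : ℕ) (m : ℝ) : EntL → Prop
  | EntL.nil => True
  | EntL.cons C f t => Valid N m (P C) (PP f) ∧ AllV N m t

lemma itp_valid {N m0 m1 C z z' D j : ℕ} {m : ℝ} (hN : 2 ≤ N) (hD : 1 ≤ D) (hj : j ≤ D)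
    (h0 : (m0 : ℝ) / 1024 ≤ m) (h1 : m ≤ (m1 : ℝ) / 1024)
    (hs : segOK N m0 m1 C (dig z) (dig z') = true)
    (hd : (dig z 0 - dig z' 0) % D = 0) (hv : Valid N m (P C) (PP (dig z))) :
    Valid N m (P C) (PP (itp z z' j D)) := by
  have hg := segOK_GS hs
  have hD0 : (0 : ℝ) < D := by exact_mod_cast hD
  set t : ℝ := (j : ℝ) / D with ht
  have ht0 : 0 ≤ t := by positivity
  have ht1 : t ≤ 1 := by
    rw [ht, div_le_one hD0]; exact_mod_cast hj
  have hseg := (segOK_seg hs h0 h1).sub t ht0 ht1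
  have hval := hv.reach (hseg.reach (by omega : 0 < N))
  have hdef : ∀ k, itp z z' j D k = dig z k - ((dig z k - dig z' k) * j) / D := fun k => rfl
  -- general formula
  have hform : ∀ k, k < N → PP (itp z z' j D) k = P (dig z k) -
      ((((dig z k - dig z' k) * j) / D : ℕ) : ℝ) * hh ∧
      itr (PP (dig z)) (PP (dig z')) t k = P (dig z k) -
      (((dig z k - dig z' k) * j : ℕ) : ℝ) / D * hh := by
    intro k hk
    have hle := hg.le k hk
    have hq : ((dig z k - dig z' k) * j) / D ≤ dig z k := by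
      have h2 : (dig z k - dig z' k) * j ≤ (dig z k - dig z' k) * D := Nat.mul_le_mul_left _ hj
      have h3 : ((dig z k - dig z' k) * j) / D ≤ dig z k - dig z' k := by
        apply Nat.div_le_of_le_mul
        rw [mul_comm D]
        exact h2
      omega
    constructor
    · unfold PP
      rw [hdef]
      unfold P
      rw [Nat.cast_sub hq]
      ring
    · unfold itr PP P
      push_cast [Nat.cast_sub hle]
      rw [ht]
      field_simp
      ring
  refine hval.mono ?_ ?_
  · obtain ⟨e1, e2⟩ := hform 0 (by omega)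
    rw [e1, e2]
    obtain ⟨e, he⟩ : D ∣ (dig z 0 - dig z' 0) := Nat.dvd_of_mod_eq_zero hd
    rw [he]
    have h3 : D * e * j / D = e * j := by
      rw [mul_assoc, Nat.mul_div_cancel_left _ hD]
    rw [h3]
    push_cast
    field_simp
  · intro k _ hk
    obtain ⟨e1, e2⟩ := hform k hk
    rw [e1, e2]
    have := cast_div_le' ((dig z k - dig z' k) * j) D
    have h2 := mul_le_mul_of_nonneg_right this hh_pos.le
    linarith

lemma blk_valid {N m0 m1 C z z' D : ℕ} {m : ℝ} {tail : EntL} (hN : 2 ≤ N) (hD : 1 ≤ D)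
    (h0 : (m0 : ℝ) / 1024 ≤ m) (h1 : m ≤ (m1 : ℝ) / 1024)
    (hs : segOK N m0 m1 C (dig z) (dig z') = true)
    (hd : (dig z 0 - dig z' 0) % D = 0) (hv : Valid N m (P C) (PP (dig z)))
    (ht : AllV N m tail) : AllV N m (blk C z z' D tail) := by
  have key : ∀ n : ℕ, AllV N m (Nat.rec (motive := fun _ => EntL) tail
      (fun i ih => EntL.cons C (itp z z' (Nat.sub (Nat.sub D 1) i) D) ih) n) := by
    intro n
    induction n with
    | zero => exact ht
    | succ n ih =>
      refine ⟨?_, ih⟩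
      refine itp_valid hN hD ?_ h0 h1 hs hd hv
      have : Nat.sub (Nat.sub D 1) n = D - 1 - n := rfl
      rw [this]; omega
  exact key D

lemma divC_cons (D z z' : ℕ) (l : List ℕ) :
    divC D (z' :: l) z = bAnd (Nat.ble ((dig z 0 - dig z' 0) % D) 0) (divC D l z') := rfl

lemma entsC_valid {N m0 m1 C D : ℕ} {m : ℝ} {last : Bool} {tail : EntL} (hN : 2 ≤ N)
    (hD : 1 ≤ D)
    (h0 : (m0 : ℝ) / 1024 ≤ m) (h1 : m ≤ (m1 : ℝ) / 1024) (ht : AllV N m tail) (l : List ℕ) :
    ∀ z, segs N m0 m1 C l z = true → divC D l z = true → Valid N m (P C) (PP (dig z)) →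
      AllV N m (entsC D C last tail l z) := by
  induction l with
  | nil =>
    intro z _ _ hv
    have e : entsC D C last tail [] z =
      Bool.rec (motive := fun _ => EntL) tail (EntL.cons C (dig z) tail) last := rfl
    rw [e]
    cases last
    · exact ht
    · exact ⟨hv, ht⟩
  | cons z' l ih =>
    intro z hs hd hv
    rw [segs_cons, bAnd_eq, Bool.and_eq_true] at hs
    rw [divC_cons, bAnd_eq, Bool.and_eq_true, Nat.ble_eq] at hd
    have e : entsC D C last tail (z' :: l) z = blk C z z' D (entsC D C last tail l z') := rfl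
    rw [e]
    refine blk_valid hN hD h0 h1 hs.1 (Nat.le_zero.1 hd.1) hv ?_
    refine ih z' hs.2 hd.2 ?_
    exact hv.reach (segOK_reach (by omega : 0 < N) hs.1 h0 h1)

lemma ents_valid {N m0 m1 D : ℕ} {m : ℝ} (hN : 2 ≤ N) (hD : 1 ≤ D)
    (h0 : (m0 : ℝ) / 1024 ≤ m) (h1 : m ≤ (m1 : ℝ) / 1024) (G : GrpL) :
    groupsOK N m0 m1 G = true → divG D G = true → AllV N m (ents D G) := by
  induction G with
  | nil => intro _ _; trivial
  | cons C z0 tr fin ch t ih =>
    intro hg hd
    have e1 : groupsOK N m0 m1 (GrpL.cons C z0 tr fin ch t) =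
      bAnd (trainOK N m0 m1 C z0 tr fin) (bAnd (segs N m0 m1 C ch fin) (groupsOK N m0 m1 t)) := rfl
    have e2 : divG D (GrpL.cons C z0 tr fin ch t) = bAnd (divC D ch fin) (divG D t) := rfl
    have e3 : ents D (GrpL.cons C z0 tr fin ch t) =
      entsC D C (isNil t) (ents D t) ch fin := rfl
    rw [e1, bAnd_eq, bAnd_eq, Bool.and_eq_true, Bool.and_eq_true] at hg
    rw [e2, bAnd_eq, Bool.and_eq_true] at hd
    rw [e3]
    exact entsC_valid hN hD h0 h1 (ih hg.2.2 hd.2) ch fin hg.2.1 hd.1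
      (trainOK_valid hN h0 h1 hg.1)

lemma rev_valid {N : ℕ} {m : ℝ} (E : EntL) : ∀ acc, AllV N m E → AllV N m acc →
    AllV N m (rev E acc) := by
  induction E with
  | nil => intro acc _ h; exact h
  | cons C f t ih =>
    intro acc h1 h2
    have e : rev (EntL.cons C f t) acc = rev t (EntL.cons C f acc) := rfl
    rw [e]
    exact ih _ h1.2 ⟨h1.1, h2⟩

/-- reflected configuration -/
noncomputable def refl (N : ℕ) (y : ℕ → ℝ) : ℕ → ℝ := fun k =>
  if k = 0 then - y 0 else 2 * π - y (N - k)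

/-- Oriented equilibrium. -/
structure Ori (N : ℕ) (m : ℝ) (y : ℕ → ℝ) : Prop where
  sol : Sol N m y
  sol' : Sol N m (refl N y)
  y0 : 0 ≤ y 0
  ori : y 0 ≤ 2 * π - y (N - 1)

lemma Ori.le_last {N : ℕ} {m : ℝ} {y : ℕ → ℝ} (hy : Ori N m y) (j : ℕ)
    (hj : j < N) : y j ≤ 2 * π - y 0 := by
  have : y j ≤ y (N - 1) := by
    rcases Nat.lt_or_ge j (N - 1) with h | h
    · exact (hy.sol.mono j (N - 1) h (by omega)).le
    · have : j = N - 1 := by omega
      rw [this]
  linarith [hy.ori]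

lemma Ori.refl_le {N : ℕ} {m : ℝ} {y : ℕ → ℝ} (hy : Ori N m y) (j : ℕ) (hj0 : 0 < j)
    (hj : j < N) : refl N y j ≤ 2 * π - y 0 := by
  unfold refl
  rw [if_neg (by omega)]
  have := hy.sol.mono 0 (N - j) (by omega) (by omega)
  linarith

lemma Ori.pairH {N : ℕ} {m : ℝ} {y : ℕ → ℝ} (hN : 2 ≤ N) (hy : Ori N m y) {Cu Cw : ℕ}
    {u w : ℕ → ℕ} (hu : Valid N m (P Cu) (PP u)) (hw : Valid N m (P Cw) (PP w))
    (h1 : w 0 + 65536 ≤ Cu) (h2 : w 0 + 65536 ≤ Cw) (hyu : y 0 ≤ P (u 0))
    (hyw : - y 0 ≤ P (w 0)) : PairH N u w y := by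
  have hcap : 2 * π - y 0 ≤ P (w 0 + 65536) := by
    rw [← P_add_two_pi]; linarith
  have hcu := hcap.trans (P_le h1)
  have hcw := hcap.trans (P_le h2)
  have ku := hu y hy.sol (fun j hj0 hj => (hy.le_last j hj).trans hcu) hyu
  have kw := hw (refl N y) hy.sol' (fun j hj0 hj => (hy.refl_le j hj0 hj).trans hcw) (by
    have : refl N y 0 = - y 0 := by unfold refl; rw [if_pos rfl]
    rw [this]; exact hyw)
  refine ⟨hy.y0, ?_, ?_, ?_, hyw, ?_⟩
  · have := hy.sol.mono 0 (N - 1) (by omega) (by omega)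
    have := hy.ori
    linarith
  · intro k hk0 hk
    have h3 := hy.sol.mono 0 k hk0 hk
    have h4 := hy.le_last k hk
    have h5 := hy.y0
    constructor <;> linarith
  · intro k hk
    rcases Nat.eq_zero_or_pos k with h | h
    · rw [h]; exact hyu
    · exact ku k h hk
  · intro k hk0 hk
    have := kw (N - k) (by omega) (by omega)
    have e : refl N y (N - k) = 2 * π - y k := by
      unfold refl
      rw [if_neg (by omega)]
      congr 2
      omega
    rw [e] at this
    exact this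

lemma cover_cons (N m0 Cu Cw cur : ℕ) (u w : ℕ → ℕ) (ut wt : EntL) :
    cover N m0 (EntL.cons Cu u ut) (EntL.cons Cw w wt) cur =
      bAnd (Nat.ble cur (u 0))
        (bAnd (Nat.ble (w 0 + 65536) Cu)
        (bAnd (Nat.ble (w 0 + 65536) Cw)
        (bAnd (bOr (mtest N m0 u w) (t2test N u w))
        (bOr (Nat.ble 65536 (w 0))
          (cover N m0 ut wt (131072 - w 0)))))) := rfl

lemma cover_sound {N m0 : ℕ} {m : ℝ} {y : ℕ → ℝ} (hN : 2 ≤ N) (hy : Ori N m y)
    (hM : ∀ u w, PairH N u w y → mtest N m0 u w = true → False)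
    (hT : ∀ u w, PairH N u w y → t2test N u w = true → False) (us : EntL) :
    ∀ ws cur, AllV N m us → AllV N m ws → cover N m0 us ws cur = true → y 0 ≤ P cur → False := by
  induction us with
  | nil => intro ws cur _ _ h _; exact absurd h (by simp [cover])
  | cons Cu u ut ih =>
    intro ws cur hus hws h hcur
    cases ws with
    | nil => exact absurd h (by simp [cover])
    | cons Cw w wt =>
      rw [cover_cons] at h
      simp only [bAnd_eq, bOr_eq, Bool.and_eq_true, Bool.or_eq_true, Nat.ble_eq] at h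
      obtain ⟨h1, h2, h3, h4, h5⟩ := h
      by_cases hs : - y 0 ≤ P (w 0)
      · have hp := hy.pairH hN hus.1 hws.1 h2 h3 (hcur.trans (P_le h1)) hs
        rcases h4 with h4 | h4
        · exact hM u w hp h4
        · exact hT u w hp h4
      · push Not at hs
        have hw0 : ¬ 65536 ≤ w 0 := by
          intro hcon
          have := (P_nonneg_iff (w 0)).2 hcon
          have := hy.y0
          linarith
        have h6 := h5.resolve_left hw0
        refine ih wt _ hus.2 hws.2 h6 ?_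
        have e : P (131072 - w 0) = - P (w 0) := by
          unfold P
          rw [Nat.cast_sub (by omega)]
          push_cast; ring
        rw [e]; linarith

lemma finish_cons (N m0 C : ℕ) (f : ℕ → ℕ) (t E : EntL) :
    finish N m0 E (EntL.cons C f t) =
      bAnd (Nat.blt (f 1 + f 0) 131072)
      (bAnd (Nat.ble (f 0 + 65536) C) (cover N m0 E t (131072 - f 0))) := rfl

lemma cellOK_iff (N m0 m1 D : ℕ) (G : GrpL) : cellOK N m0 m1 D G = true ↔
    1 ≤ D ∧ divG D G = true ∧ groupsOK N m0 m1 G = true ∧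
      finish N m0 (ents D G) (rev (ents D G) EntL.nil) = true := by
  have e : cellOK N m0 m1 D G = bAnd (Nat.ble 1 D) (bAnd (divG D G)
    (bAnd (groupsOK N m0 m1 G) (finish N m0 (ents D G) (rev (ents D G) EntL.nil)))) := rfl
  rw [e]
  simp only [bAnd_eq, Bool.and_eq_true, Nat.ble_eq]

theorem cell_sound {N m0 m1 D : ℕ} {G : GrpL} {m : ℝ} {y : ℕ → ℝ} (hN : 2 ≤ N)
    (hc : cellOK N m0 m1 D G = true) (h0 : (m0 : ℝ) / 1024 ≤ m) (h1 : m ≤ (m1 : ℝ) / 1024)
    (hy : Ori N m y) (hm : m = - ∑ k ∈ range N, cos (y k))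
    (ht : ∀ c : ℝ, Ring.LA N / 4 ≤
      ∑ k ∈ range N, (sin (y k) ^ 2 + (y k - 2 * π * k / N - c) * sin (y k))) : False := by
  rw [cellOK_iff] at hc
  obtain ⟨hD, hd, hg, hf⟩ := hc
  have hE := ents_valid hN hD h0 h1 G hg hd
  have hR := rev_valid (ents D G) EntL.nil hE trivial
  have hM : ∀ u w, PairH N u w y → mtest N m0 u w = true → False := by
    intro u w hp h
    have := mtest_sound hp h
    linarith
  have hT : ∀ u w, PairH N u w y → t2test N u w = true → False := by
    intro u w hp h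
    obtain ⟨c, hc⟩ := t2_sound hN hp h
    have := ht c
    linarith
  cases hRe : rev (ents D G) EntL.nil with
  | nil =>
    rw [hRe] at hf
    exact absurd hf (by simp [finish])
  | cons C f t =>
    rw [hRe] at hf hR
    rw [finish_cons] at hf
    simp only [bAnd_eq, Bool.and_eq_true, Nat.ble_eq, nat_blt_eq] at hf
    obtain ⟨h2, h3, h4⟩ := hf
    have e : P (131072 - f 0) = - P (f 0) := by
      unfold P
      rw [Nat.cast_sub (by omega)]
      push_cast; ring
    by_cases hs : y 0 ≤ P (131072 - f 0)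
    · exact cover_sound hN hy hM hT _ t _ hE hR.2 h4 hs
    · push Not at hs
      rw [e] at hs
      have hcap : 2 * π - y 0 ≤ P C := by
        refine le_trans ?_ (P_le h3)
        rw [← P_add_two_pi]; linarith
      have kw := hR.1 (refl N y) hy.sol' (fun j hj0 hj => (hy.refl_le j hj0 hj).trans hcap) (by
        have e2 : refl N y 0 = - y 0 := by unfold refl; rw [if_pos rfl]
        rw [e2]
        show - y 0 ≤ P (f 0)
        linarith)
      have k1 := kw 1 (by omega) (by omega)
      have e3 : refl N y 1 = 2 * π - y (N - 1) := by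
        unfold refl; rw [if_neg (by omega)]
      rw [e3] at k1
      have k2 : P (f 1) + P (f 0) < 0 := by
        unfold P
        have : (f 1 : ℝ) + f 0 < 131072 := by exact_mod_cast h2
        have := hh_pos
        nlinarith
      have k3 : 2 * π - y (N - 1) ≤ P (f 1) := k1
      have := hy.ori
      linarith

end Pool.Agent.Helper99.Ring9
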