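import Mathlib
import Pool.Agent.Helper99.Ring9.Cell
import Pool.Agent.Helper99.RingGeom

namespace Pool.Agent.Helper99.Ring9

open Real Finset

/-- Full equilibrium. -/
structure Full (N : ℕ) (m : ℝ) (y : ℕ → ℝ) : Prop where
  mono : ∀ i j, i < j → j < N → y i < y j
  wrap : ∀ j, j < N → y j < y 0 + 2 * π
  eq : ∀ k, k < N → Fr N y k + m * sin (y k) = 0

lemma Full.sol {N : ℕ} {m : ℝ} {y : ℕ → ℝ} (h : Full N m y) : Sol N m y :=
  ⟨h.mono, h.wrap, fun k _ hk => h.eq k hk⟩

lemma fr_refl {N : ℕ} (y : ℕ → ℝ) (k : ℕ) (hk0 : 0 < k) (hk : k < N) :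
    Fr N (refl N y) k = - Fr N y (N - k) := by
  unfold Fr
  rw [← sum_neg_distrib]
  refine sum_nbij' (fun j => if j = 0 then 0 else N - j) (fun j => if j = 0 then 0 else N - j)
    ?_ ?_ ?_ ?_ ?_
  · intro j hj
    rw [mem_erase, mem_range] at hj
    simp only [mem_erase, mem_range]
    split_ifs <;> omega
  · intro j hj
    rw [mem_erase, mem_range] at hj
    simp only [mem_erase, mem_range]
    split_ifs <;> omega
  · intro j hj
    rw [mem_erase, mem_range] at hj
    split_ifs <;> omega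
  · intro j hj
    rw [mem_erase, mem_range] at hj
    split_ifs <;> omega
  · intro j hj
    rw [mem_erase, mem_range] at hj
    rw [← ph_two_pi_sub]
    congr 1
    by_cases h0 : j = 0
    · subst h0
      simp only [if_true]
      unfold Df refl
      rw [if_neg (by omega), if_pos rfl, if_neg (by omega), if_neg (by omega)]
      ring
    · simp only [if_neg h0]
      unfold Df refl
      rw [if_neg (by omega), if_neg h0]
      rcases lt_or_gt_of_ne hj.1 with h | h
      · rw [if_neg (by omega), if_pos (by omega)]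
        ring
      · rw [if_pos (by omega), if_neg (by omega)]
        ring

lemma Full.refl {N : ℕ} {m : ℝ} {y : ℕ → ℝ} (h : Full N m y) : Sol N m (refl N y) := by
  refine ⟨?_, ?_, ?_⟩
  · intro i j hij hj
    unfold Ring9.refl
    rw [if_neg (by omega : ¬ j = 0)]
    by_cases hi : i = 0
    · rw [if_pos hi]
      have := h.wrap (N - j) (by omega)
      linarith
    · rw [if_neg hi]
      have := h.mono (N - j) (N - i) (by omega) (by omega)
      linarith
  · intro j hj
    unfold Ring9.refl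
    rw [if_pos rfl]
    by_cases hi : j = 0
    · rw [if_pos hi]
      have := pi_pos
      linarith
    · rw [if_neg hi]
      have := h.mono 0 (N - j) (by omega) (by omega)
      linarith
  · intro k hk0 hk
    rw [fr_refl y k hk0 hk]
    have h1 := h.eq (N - k) (by omega)
    have e : Ring9.refl N y k = 2 * π - y (N - k) := by
      unfold Ring9.refl; rw [if_neg (by omega)]
    rw [e, sin_two_pi_sub]
    linarith

/-- reversed configuration -/
noncomputable def rv (N : ℕ) (y : ℕ → ℝ) : ℕ → ℝ := fun k => 2 * π - y (N - 1 - k)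

lemma fr_rv {N : ℕ} (y : ℕ → ℝ) (k : ℕ) (hk : k < N) :
    Fr N (rv N y) k = - Fr N y (N - 1 - k) := by
  unfold Fr
  rw [← sum_neg_distrib]
  refine sum_nbij' (fun j => N - 1 - j) (fun j => N - 1 - j) ?_ ?_ ?_ ?_ ?_
  · intro j hj
    rw [mem_erase, mem_range] at hj ⊢
    omega
  · intro j hj
    rw [mem_erase, mem_range] at hj ⊢
    omega
  · intro j hj
    rw [mem_erase, mem_range] at hj
    omega
  · intro j hj
    rw [mem_erase, mem_range] at hj
    omega
  · intro j hj
    rw [mem_erase, mem_range] at hj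
    rw [← ph_two_pi_sub]
    congr 1
    unfold Df rv
    rcases lt_or_gt_of_ne hj.1 with h | h
    · rw [if_neg (by omega), if_pos (by omega)]
      ring
    · rw [if_pos (by omega), if_neg (by omega)]
      ring

lemma Full.rv {N : ℕ} {m : ℝ} {y : ℕ → ℝ} (hN : 2 ≤ N) (h : Full N m y) :
    Full N m (rv N y) := by
  refine ⟨?_, ?_, ?_⟩
  · intro i j hij hj
    unfold Ring9.rv
    have := h.mono (N - 1 - j) (N - 1 - i) (by omega) (by omega)
    linarith
  · intro j hj
    unfold Ring9.rv
    have h1 := h.wrap (N - 1 - 0) (by omega)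
    have h2 : y 0 ≤ y (N - 1 - j) := by
      rcases Nat.eq_zero_or_pos (N - 1 - j) with h3 | h3
      · rw [h3]
      · exact (h.mono 0 _ h3 (by omega)).le
    linarith
  · intro k hk
    rw [fr_rv y k hk]
    have h1 := h.eq (N - 1 - k) (by omega)
    have e : Ring9.rv N y k = 2 * π - y (N - 1 - k) := rfl
    rw [e, sin_two_pi_sub]
    linarith

/-- The inequality for a configuration. -/
structure Ineq (N : ℕ) (m : ℝ) (y : ℕ → ℝ) : Prop where
  s : ∑ k ∈ range N, sin (y k) = 0
  c : m = - ∑ k ∈ range N, cos (y k)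
  t : Ring.LA N / 4 ≤
      ∑ k ∈ range N, (sin (y k) ^ 2 + (y k - 2 * π * k / N) * sin (y k))

lemma Ineq.all {N : ℕ} {m : ℝ} {y : ℕ → ℝ} (h : Ineq N m y) (c : ℝ) : Ring.LA N / 4 ≤
      ∑ k ∈ range N, (sin (y k) ^ 2 + (y k - 2 * π * k / N - c) * sin (y k)) := by
  have e : ∑ k ∈ range N, (sin (y k) ^ 2 + (y k - 2 * π * k / N - c) * sin (y k)) =
      ∑ k ∈ range N, (sin (y k) ^ 2 + (y k - 2 * π * k / N) * sin (y k)) -
        c * ∑ k ∈ range N, sin (y k) := by
    rw [mul_sum, ← sum_sub_distrib]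
    refine sum_congr rfl fun k _ => ?_
    ring
  rw [e, h.s]
  have := h.t
  linarith

lemma Ineq.rv {N : ℕ} {m : ℝ} {y : ℕ → ℝ} (hN : 2 ≤ N) (h : Ineq N m y) :
    Ineq N m (rv N y) := by
  have hN0 : (N : ℝ) ≠ 0 := by
    have : 0 < N := by omega
    positivity
  refine ⟨?_, ?_, ?_⟩
  · have e : ∀ k ∈ range N, sin (Ring9.rv N y k) = (fun j => - sin (y j)) (N - 1 - k) := by
      intro k _
      unfold Ring9.rv
      rw [sin_two_pi_sub]
    rw [sum_congr rfl e, sum_range_reflect (fun j => - sin (y j)) N, sum_neg_distrib, h.s, neg_zero]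
  · have e : ∀ k ∈ range N, cos (Ring9.rv N y k) = (fun j => cos (y j)) (N - 1 - k) := by
      intro k _
      unfold Ring9.rv
      rw [cos_two_pi_sub]
    rw [sum_congr rfl e, sum_range_reflect (fun j => cos (y j)) N]
    exact h.c
  · have e : ∀ k ∈ range N, (sin (Ring9.rv N y k) ^ 2 +
        (Ring9.rv N y k - 2 * π * k / N) * sin (Ring9.rv N y k)) =
        (fun j : ℕ => sin (y j) ^ 2 + (y j - 2 * π * j / N - 2 * π / N) * sin (y j))
          (N - 1 - k) := by
      intro k hk
      rw [mem_range] at hk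
      unfold Ring9.rv
      rw [sin_two_pi_sub]
      have hc : ((N - 1 - k : ℕ) : ℝ) = (N : ℝ) - 1 - k := by
        rw [Nat.cast_sub (by omega), Nat.cast_sub (by omega)]
        push_cast; ring
      simp only
      rw [hc]
      have e2 : 2 * π * ((N : ℝ) - 1 - k) / N = 2 * π - 2 * π / N - 2 * π * k / N := by
        field_simp
      rw [e2]
      ring
    rw [sum_congr rfl e, sum_range_reflect
      (fun j : ℕ => sin (y j) ^ 2 + (y j - 2 * π * j / N - 2 * π / N) * sin (y j)) N]
    exact h.all _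

/-- cells for all `m ∈ (0, N]` -/
def AllCells (N : ℕ) : Prop := ∀ m : ℝ, 0 < m → m ≤ N →
  ∃ m0 m1 D : ℕ, ∃ G : GrpL, cellOK N m0 m1 D G = true ∧ (m0 : ℝ) / 1024 ≤ m ∧
    m ≤ (m1 : ℝ) / 1024

lemma no_full {N : ℕ} {m : ℝ} {y : ℕ → ℝ} (hN : 2 ≤ N) (hA : AllCells N) (hm : 0 < m)
    (hmN : m ≤ N) (hf : Full N m y) (hi : Ineq N m y) (h0 : 0 ≤ y 0) (h2 : y (N - 1) ≤ 2 * π) :
    False := by
  obtain ⟨m0, m1, D, G, hc, h1, h3⟩ := hA m hm hmN
  rcases le_total (y 0) (2 * π - y (N - 1)) with h | h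
  · exact cell_sound hN hc h1 h3 ⟨hf.sol, hf.refl, h0, h⟩ hi.c hi.all
  · have hf' := hf.rv hN
    have hi' := hi.rv hN
    refine cell_sound hN hc h1 h3 ⟨hf'.sol, hf'.refl, ?_, ?_⟩ hi'.c hi'.all
    · unfold rv
      rw [Nat.sub_zero]
      linarith
    · unfold rv
      rw [Nat.sub_zero, Nat.sub_self]
      linarith

lemma regular_of_zero {N : ℕ} [NeZero N] (θ : Fin N → ℝ) (hs : ∑ j, sin (θ j) = 0)
    (hm : ∑ j, cos (θ j) = 0) (hc : Ring.Crit θ)
    (hb : ∀ i j, i < j → 0 < Ring.bb θ i j ∧ Ring.bb θ i j < π) :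
    ∀ i j, i < j → Ring.bb θ i j = Ring.aa i j := by
  have hN : (0 : ℝ) < N := by
    have := Nat.pos_of_ne_zero (NeZero.ne N)
    exact_mod_cast this
  have ha : ∀ i j : Fin N, i < j → 0 < Ring.aa i j ∧ Ring.aa i j < π := by
    intro i j hij
    have h1 : ((i : ℕ) : ℝ) < ((j : ℕ) : ℝ) := by exact_mod_cast hij
    have h2 : ((j : ℕ) : ℝ) < N := by exact_mod_cast j.2
    have h3 : (0 : ℝ) ≤ ((i : ℕ) : ℝ) := by positivity
    unfold Ring.aa
    constructor
    · apply div_pos (mul_pos pi_pos (by linarith)) hN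
    · rw [div_lt_iff₀ hN]
      exact mul_lt_mul_of_pos_left (by linarith) pi_pos
  have h1 := Ring.ray_identity θ hs hc
  rw [hm] at h1
  have h3 : Ring.PS (fun i j => (Ring.w (Ring.aa i j) - Ring.w (Ring.bb θ i j)) *
      (Ring.bb θ i j - Ring.aa i j)) = 0 := by
    rw [h1]; ring
  have h4 := Ring.PS_eq_zero (F := fun i j => (Ring.w (Ring.aa i j) - Ring.w (Ring.bb θ i j)) *
      (Ring.bb θ i j - Ring.aa i j))
    (by
      intro i j hij
      by_cases h : Ring.aa i j = Ring.bb θ i j
      · simp only [h]; simp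
      · exact (Ring.w_gap_pos _ _ (ha i j hij).1 (ha i j hij).2 (hb i j hij).1 (hb i j hij).2 h).le)
    h3
  intro i j hij
  by_contra hne
  have h5 := h4 i j hij
  have h6 := Ring.w_gap_pos _ _ (ha i j hij).1 (ha i j hij).2 (hb i j hij).1 (hb i j hij).2
    (Ne.symm hne)
  linarith

/-- force on a site from the critical equations -/
lemma crit_force {N : ℕ} (θ : Fin N → ℝ) (hs : ∑ j, sin (θ j) = 0) (hc : Ring.Crit θ)
    (y : ℕ → ℝ) (hy : ∀ k : Fin N, y k = θ k + π) (k : Fin N) :
    Fr N y k + (∑ j, cos (θ j)) * sin (y k) = 0 := by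
  have h1 := hc k
  have h2 := Ring.row_sin θ k
  rw [hs, zero_mul, zero_sub] at h2
  have h3 : Fr N y k = ∑ j : Fin N, if j = k then 0 else ph (Df y k j) := by
    unfold Fr
    have e : (range N).erase (k : ℕ) = (range N).filter (fun j => j ≠ (k : ℕ)) := by
      ext j
      simp only [mem_erase, mem_range, mem_filter]
      tauto
    rw [e, sum_filter, ← Fin.sum_univ_eq_sum_range
      (fun j => if j ≠ (k : ℕ) then ph (Df y k j) else 0) N]
    refine sum_congr rfl fun j _ => ?_
    by_cases h : j = k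
    · subst h; simp
    · rw [if_neg h, if_pos]
      intro h4
      exact h (Fin.ext h4)
  have h4 : (∑ j : Fin N, if j = k then 0 else ph (Df y k j)) =
      ((∑ j, if k < j then Ring.Vp (Ring.bb θ k j) else 0) -
        (∑ j, if j < k then Ring.Vp (Ring.bb θ j k) else 0)) -
      ((∑ j, if k < j then sin (θ j - θ k) else 0) -
        (∑ j, if j < k then sin (θ k - θ j) else 0)) := by
    rw [← sum_sub_distrib, ← sum_sub_distrib, ← sum_sub_distrib]
    refine sum_congr rfl fun j _ => ?_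
    rcases lt_trichotomy k j with h | h | h
    · have hne : ¬ j = k := h.ne'
      rw [if_neg hne, if_pos h, if_neg (not_lt.2 h.le), if_pos h, if_neg (not_lt.2 h.le)]
      have hkj : (k : ℕ) < (j : ℕ) := h
      unfold Df
      rw [if_pos hkj, hy, hy]
      have e : θ k + π - (θ j + π) + 2 * π = 2 * π - (θ j - θ k) := by ring
      rw [e, ph_two_pi_sub]
      unfold Ring.Vp Ring.bb ph
      have e2 : 2 * ((θ j - θ k) / 2) = θ j - θ k := by ring
      rw [e2]
      ring
    · subst h
      simp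
    · have hne : ¬ j = k := h.ne
      rw [if_neg hne, if_neg (not_lt.2 h.le), if_pos h, if_neg (not_lt.2 h.le), if_pos h]
      have hkj : ¬ (k : ℕ) < (j : ℕ) := not_lt.2 (le_of_lt h)
      unfold Df
      rw [if_neg hkj, hy, hy]
      have e : θ k + π - (θ j + π) + 0 = θ k - θ j := by ring
      rw [e]
      unfold Ring.Vp Ring.bb ph
      have e2 : 2 * ((θ k - θ j) / 2) = θ k - θ j := by ring
      rw [e2]
      ring
  rw [h3, h4, h1, h2, hy, sin_add_pi]
  ring

theorem core_of_cells {N : ℕ} (hN : 2 ≤ N) (hA : AllCells N) : Ring.CoreStatement N := by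
  intro θ hmono hr hs hm hc
  have hNZ : NeZero N := ⟨by omega⟩
  have hb : ∀ i j, i < j → 0 < Ring.bb θ i j ∧ Ring.bb θ i j < π := by
    intro i j hij
    have := hmono hij
    have h1 := (hr i).1
    have h2 := (hr j).2
    unfold Ring.bb
    constructor <;> linarith
  rcases hm.eq_or_lt with hm0 | hmpos
  · exact regular_of_zero θ hs hm0.symm hc hb
  rcases Ring.key_dichotomy θ hs hm hc hb with h | h
  · exact h
  exfalso
  set M := ∑ j, cos (θ j) with hM
  set y : ℕ → ℝ := fun k => if h : k < N then θ ⟨k, h⟩ + π else 0 with hy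
  have hyk : ∀ k : Fin N, y k = θ k + π := by
    intro k
    rw [hy]
    simp only [k.2, dif_pos]
  have hyk' : ∀ k (hk : k < N), y k = θ ⟨k, hk⟩ + π := fun k hk => hyk ⟨k, hk⟩
  have hMN : M ≤ N := by
    have : M ≤ ∑ j : Fin N, (1 : ℝ) := sum_le_sum fun j _ => cos_le_one _
    simpa using this
  have hfull : Full N M y := by
    refine ⟨?_, ?_, ?_⟩
    · intro i j hij hj
      rw [hyk' i (by omega), hyk' j hj]
      have : θ ⟨i, by omega⟩ < θ ⟨j, hj⟩ := hmono (by exact hij)
      linarith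
    · intro j hj
      rw [hyk' j hj, hyk' 0 (by omega)]
      have h1 := (hr ⟨j, hj⟩).2
      have h2 := (hr ⟨0, by omega⟩).1
      linarith
    · intro k hk
      exact crit_force θ hs hc y hyk ⟨k, hk⟩
  have hineq : Ineq N M y := by
    refine ⟨?_, ?_, ?_⟩
    · rw [← Fin.sum_univ_eq_sum_range (fun k => sin (y k)) N]
      have : ∀ k : Fin N, sin (y k) = - sin (θ k) := by
        intro k; rw [hyk, sin_add_pi]
      rw [sum_congr rfl (fun k _ => this k), sum_neg_distrib, hs, neg_zero]
    · rw [← Fin.sum_univ_eq_sum_range (fun k => cos (y k)) N]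
      have : ∀ k : Fin N, cos (y k) = - cos (θ k) := by
        intro k; rw [hyk, cos_add_pi]
      rw [sum_congr rfl (fun k _ => this k), sum_neg_distrib, neg_neg]
    · rw [← Fin.sum_univ_eq_sum_range
        (fun k : ℕ => (sin (y k) ^ 2 + (y k - 2 * π * k / N) * sin (y k))) N]
      have e : ∑ k : Fin N, (sin (y k) ^ 2 + (y k - 2 * π * ((k : ℕ) : ℝ) / N) * sin (y k)) =
          ∑ k, (sin (θ k) ^ 2 - Ring.DD θ k * sin (θ k)) - π * ∑ k, sin (θ k) := by
        rw [mul_sum, ← sum_sub_distrib (f := fun k => sin (θ k) ^ 2 - Ring.DD θ k * sin (θ k))]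
        refine sum_congr rfl fun k _ => ?_
        rw [hyk, sin_add_pi]
        unfold Ring.DD
        ring
      rw [e, hs]
      linarith
  refine no_full hN hA hmpos hMN hfull hineq ?_ ?_
  · rw [hyk' 0 (by omega)]
    have := (hr ⟨0, by omega⟩).1
    linarith
  · rw [hyk' (N - 1) (by omega)]
    have := (hr ⟨N - 1, by omega⟩).2
    linarith

end Pool.Agent.Helper99.Ring9
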