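import Mathlib
import Pool.Agent.Helper99.Ring9.Core9
import Pool.Agent.Helper99.Ring9.Data.N9a
import Pool.Agent.Helper99.Ring9.Data.N9b
import Pool.Agent.Helper99.Ring9.Data.N9c
import Pool.Agent.Helper99.Ring9.Data.N9d
import Pool.Agent.Helper99.Ring9.Data.N10a
import Pool.Agent.Helper99.Ring9.Data.N10b
import Pool.Agent.Helper99.Ring9.Data.N11
import Pool.Agent.Helper99.Ring9.Data.N12
import Pool.Agent.Helper99.Ring9.Data.N13
import Pool.Agent.Helper99.Ring9.Data.N14
import Pool.Agent.Helper99.Ring9.Data.N15
import Pool.Agent.Helper99.Ring9.Data.N16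
import Pool.Agent.Helper99.Ring9.Data.N17
import Pool.Agent.Helper99.Ring9.Data.N18
import Pool.Agent.Helper99.Ring9.Data.N19
import Pool.Agent.Helper99.Ring9.Data.N20
import Pool.Agent.Helper99.Ring9.Data.N21
import Pool.Agent.Helper99.Ring9.Data.N22
import Pool.Agent.Helper99.Ring9.Data.N23
import Pool.Agent.Helper99.Ring9.Data.N24
import Pool.Agent.Helper99.Ring9.Data.N25
import Pool.Agent.Helper99.Ring9.Data.N26
import Pool.Agent.Helper99.Ring9.Data.N27
import Pool.Agent.Helper99.Ring9.Data.N28
import Pool.Agent.Helper99.Ring9.Data.N29
import Pool.Agent.Helper99.Ring9.Data.N30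
import Pool.Agent.Helper99.Ring9.Data.N31
import Pool.Agent.Helper99.Ring9.Data.N32
import Pool.Agent.Helper99.Ring9.Data.N33
import Pool.Agent.Helper99.Ring9.Data.N34
import Pool.Agent.Helper99.Ring9.Data.N35
import Pool.Agent.Helper99.Ring9.Data.N36
import Pool.Agent.Helper99.Ring9.Data.N37
import Pool.Agent.Helper99.Ring9.Data.N38
import Pool.Agent.Helper99.Ring9.Data.N39
import Pool.Agent.Helper99.Ring9.Data.N40
import Pool.Agent.Helper99.Ring9.Data.N41
import Pool.Agent.Helper99.Ring9.Data.N42
import Pool.Agent.Helper99.Ring9.Data.N43
import Pool.Agent.Helper99.Ring9.Data.N44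
import Pool.Agent.Helper99.Ring9.Data.N45
import Pool.Agent.Helper99.Ring9.Data.N46
import Pool.Agent.Helper99.Ring9.Data.N47
import Pool.Agent.Helper99.Ring9.Data.N48
import Pool.Agent.Helper99.Ring9.Data.N49
import Pool.Agent.Helper99.Ring9.Data.N50
import Pool.Agent.Helper99.Ring9.Data.N51
import Pool.Agent.Helper99.Ring9.Data.N52
import Pool.Agent.Helper99.Ring9.Data.N53
import Pool.Agent.Helper99.Ring9.Data.N54
import Pool.Agent.Helper99.Ring9.Data.N55
import Pool.Agent.Helper99.Ring9.Data.N56
import Pool.Agent.Helper99.Ring9.Data.N57
import Pool.Agent.Helper99.Ring9.Data.N58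
import Pool.Agent.Helper99.Ring9.Data.N59
import Pool.Agent.Helper99.Ring9.Data.N60
import Pool.Agent.Helper99.Ring9.Data.N61
import Pool.Agent.Helper99.Ring9.Data.N62
import Pool.Agent.Helper99.Ring9.Data.N63
import Pool.Agent.Helper99.Ring9.Data.N64
import Pool.Agent.Helper99.Ring9.Data.N65
import Pool.Agent.Helper99.Ring9.Data.N66
import Pool.Agent.Helper99.Ring9.Data.N67
import Pool.Agent.Helper99.Ring9.Data.N68
import Pool.Agent.Helper99.Ring9.Data.N69
import Pool.Agent.Helper99.Ring9.Data.N70
import Pool.Agent.Helper99.Ring9.Data.N71
import Pool.Agent.Helper99.Ring9.Data.N72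
import Pool.Agent.Helper99.Ring9.Data.N73
import Pool.Agent.Helper99.Ring9.Data.N74
import Pool.Agent.Helper99.Ring9.Data.N75
import Pool.Agent.Helper99.Ring9.Data.N76
import Pool.Agent.Helper99.Ring9.Data.N77
import Pool.Agent.Helper99.Ring9.Data.N78
import Pool.Agent.Helper99.Ring9.Data.N79
import Pool.Agent.Helper99.Ring9.Data.N80
import Pool.Agent.Helper99.Ring9.Data.N81
import Pool.Agent.Helper99.Ring9.Data.N82
import Pool.Agent.Helper99.Ring9.Data.N83
import Pool.Agent.Helper99.Ring9.Data.N84
import Pool.Agent.Helper99.Ring9.Data.N85
import Pool.Agent.Helper99.Ring9.Data.N86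

namespace Pool.Agent.Helper99.Ring9

open Real

/-- cells covering `(a, b] / 1024` -/
def Cov (N a b : ℕ) : Prop := ∀ m : ℝ, (a : ℝ) / 1024 < m → m ≤ (b : ℝ) / 1024 →
  ∃ m0 m1 D : ℕ, ∃ G : GrpL, cellOK N m0 m1 D G = true ∧ (m0 : ℝ) / 1024 ≤ m ∧
    m ≤ (m1 : ℝ) / 1024

lemma Cov.one {N a b : ℕ} (h : CellEx N a b) : Cov N a b := by
  intro m h0 h1
  obtain ⟨D, G, hG⟩ := h
  exact ⟨a, b, D, G, hG, h0.le, h1⟩

lemma Cov.snoc {N a b c : ℕ} (h1 : Cov N a b) (h2 : CellEx N b c) : Cov N a c := by
  intro m ha hc
  rcases le_or_gt m ((b : ℝ) / 1024) with h | h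
  · exact h1 m ha h
  · exact Cov.one h2 m h hc

lemma Cov.all {N b : ℕ} (h : Cov N 0 b) (hb : 1024 * N ≤ b) : AllCells N := by
  intro m h0 h1
  apply h m
  · simpa using h0
  · have : ((1024 * N : ℕ) : ℝ) ≤ b := by exact_mod_cast hb
    push_cast at this
    linarith

theorem all9 : AllCells 9 := by
  have h := Cov.one n9_c0
  replace h := h.snoc n9_c1
  replace h := h.snoc n9_c2
  replace h := h.snoc n9_c3
  replace h := h.snoc n9_c4
  replace h := h.snoc n9_c5
  replace h := h.snoc n9_c6
  replace h := h.snoc n9_c7
  replace h := h.snoc n9_c8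
  replace h := h.snoc n9_c9
  replace h := h.snoc n9_c10
  replace h := h.snoc n9_c11
  replace h := h.snoc n9_c12
  replace h := h.snoc n9_c13
  replace h := h.snoc n9_c14
  replace h := h.snoc n9_c15
  replace h := h.snoc n9_c16
  replace h := h.snoc n9_c17
  replace h := h.snoc n9_c18
  replace h := h.snoc n9_c19
  replace h := h.snoc n9_c20
  replace h := h.snoc n9_c21
  replace h := h.snoc n9_c22
  replace h := h.snoc n9_c23
  replace h := h.snoc n9_c24
  replace h := h.snoc n9_c25
  replace h := h.snoc n9_c26
  replace h := h.snoc n9_c27
  replace h := h.snoc n9_c28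
  replace h := h.snoc n9_c29
  replace h := h.snoc n9_c30
  replace h := h.snoc n9_c31
  replace h := h.snoc n9_c32
  replace h := h.snoc n9_c33
  replace h := h.snoc n9_c34
  replace h := h.snoc n9_c35
  replace h := h.snoc n9_c36
  replace h := h.snoc n9_c37
  replace h := h.snoc n9_c38
  replace h := h.snoc n9_c39
  replace h := h.snoc n9_c40
  replace h := h.snoc n9_c41
  replace h := h.snoc n9_c42
  replace h := h.snoc n9_c43
  replace h := h.snoc n9_c44
  replace h := h.snoc n9_c45
  replace h := h.snoc n9_c46
  replace h := h.snoc n9_c47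
  replace h := h.snoc n9_c48
  replace h := h.snoc n9_c49
  replace h := h.snoc n9_c50
  replace h := h.snoc n9_c51
  replace h := h.snoc n9_c52
  replace h := h.snoc n9_c53
  replace h := h.snoc n9_c54
  replace h := h.snoc n9_c55
  replace h := h.snoc n9_c56
  replace h := h.snoc n9_c57
  replace h := h.snoc n9_c58
  replace h := h.snoc n9_c59
  replace h := h.snoc n9_c60
  replace h := h.snoc n9_c61
  replace h := h.snoc n9_c62
  replace h := h.snoc n9_c63
  replace h := h.snoc n9_c64
  replace h := h.snoc n9_c65
  replace h := h.snoc n9_c66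
  replace h := h.snoc n9_c67
  replace h := h.snoc n9_c68
  replace h := h.snoc n9_c69
  replace h := h.snoc n9_c70
  replace h := h.snoc n9_c71
  replace h := h.snoc n9_c72
  replace h := h.snoc n9_c73
  replace h := h.snoc n9_c74
  replace h := h.snoc n9_c75
  replace h := h.snoc n9_c76
  replace h := h.snoc n9_c77
  replace h := h.snoc n9_c78
  replace h := h.snoc n9_c79
  replace h := h.snoc n9_c80
  replace h := h.snoc n9_c81
  replace h := h.snoc n9_c82
  replace h := h.snoc n9_c83
  replace h := h.snoc n9_c84
  replace h := h.snoc n9_c85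
  replace h := h.snoc n9_c86
  replace h := h.snoc n9_c87
  replace h := h.snoc n9_c88
  replace h := h.snoc n9_c89
  replace h := h.snoc n9_c90
  replace h := h.snoc n9_c91
  replace h := h.snoc n9_c92
  replace h := h.snoc n9_c93
  replace h := h.snoc n9_c94
  replace h := h.snoc n9_c95
  replace h := h.snoc n9_c96
  replace h := h.snoc n9_c97
  replace h := h.snoc n9_c98
  replace h := h.snoc n9_c99
  exact h.all (by norm_num)

theorem all10 : AllCells 10 := by
  have h := Cov.one n10_c0
  replace h := h.snoc n10_c1
  replace h := h.snoc n10_c2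
  replace h := h.snoc n10_c3
  replace h := h.snoc n10_c4
  replace h := h.snoc n10_c5
  replace h := h.snoc n10_c6
  replace h := h.snoc n10_c7
  replace h := h.snoc n10_c8
  replace h := h.snoc n10_c9
  replace h := h.snoc n10_c10
  replace h := h.snoc n10_c11
  replace h := h.snoc n10_c12
  replace h := h.snoc n10_c13
  replace h := h.snoc n10_c14
  replace h := h.snoc n10_c15
  replace h := h.snoc n10_c16
  replace h := h.snoc n10_c17
  replace h := h.snoc n10_c18
  replace h := h.snoc n10_c19
  replace h := h.snoc n10_c20
  replace h := h.snoc n10_c21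
  replace h := h.snoc n10_c22
  replace h := h.snoc n10_c23
  replace h := h.snoc n10_c24
  replace h := h.snoc n10_c25
  replace h := h.snoc n10_c26
  replace h := h.snoc n10_c27
  replace h := h.snoc n10_c28
  replace h := h.snoc n10_c29
  replace h := h.snoc n10_c30
  replace h := h.snoc n10_c31
  replace h := h.snoc n10_c32
  replace h := h.snoc n10_c33
  replace h := h.snoc n10_c34
  replace h := h.snoc n10_c35
  replace h := h.snoc n10_c36
  replace h := h.snoc n10_c37
  exact h.all (by norm_num)

theorem all11 : AllCells 11 := by
  have h := Cov.one n11_c0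
  replace h := h.snoc n11_c1
  replace h := h.snoc n11_c2
  replace h := h.snoc n11_c3
  replace h := h.snoc n11_c4
  replace h := h.snoc n11_c5
  replace h := h.snoc n11_c6
  replace h := h.snoc n11_c7
  replace h := h.snoc n11_c8
  replace h := h.snoc n11_c9
  replace h := h.snoc n11_c10
  replace h := h.snoc n11_c11
  replace h := h.snoc n11_c12
  replace h := h.snoc n11_c13
  replace h := h.snoc n11_c14
  replace h := h.snoc n11_c15
  replace h := h.snoc n11_c16
  replace h := h.snoc n11_c17
  replace h := h.snoc n11_c18
  replace h := h.snoc n11_c19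
  replace h := h.snoc n11_c20
  replace h := h.snoc n11_c21
  replace h := h.snoc n11_c22
  replace h := h.snoc n11_c23
  replace h := h.snoc n11_c24
  exact h.all (by norm_num)

theorem all12 : AllCells 12 := by
  have h := Cov.one n12_c0
  replace h := h.snoc n12_c1
  replace h := h.snoc n12_c2
  replace h := h.snoc n12_c3
  replace h := h.snoc n12_c4
  replace h := h.snoc n12_c5
  replace h := h.snoc n12_c6
  replace h := h.snoc n12_c7
  replace h := h.snoc n12_c8
  replace h := h.snoc n12_c9
  replace h := h.snoc n12_c10
  replace h := h.snoc n12_c11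
  replace h := h.snoc n12_c12
  replace h := h.snoc n12_c13
  replace h := h.snoc n12_c14
  replace h := h.snoc n12_c15
  replace h := h.snoc n12_c16
  replace h := h.snoc n12_c17
  replace h := h.snoc n12_c18
  replace h := h.snoc n12_c19
  exact h.all (by norm_num)

theorem all13 : AllCells 13 := by
  have h := Cov.one n13_c0
  replace h := h.snoc n13_c1
  replace h := h.snoc n13_c2
  replace h := h.snoc n13_c3
  replace h := h.snoc n13_c4
  replace h := h.snoc n13_c5
  replace h := h.snoc n13_c6
  replace h := h.snoc n13_c7
  replace h := h.snoc n13_c8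
  replace h := h.snoc n13_c9
  replace h := h.snoc n13_c10
  replace h := h.snoc n13_c11
  replace h := h.snoc n13_c12
  replace h := h.snoc n13_c13
  replace h := h.snoc n13_c14
  replace h := h.snoc n13_c15
  replace h := h.snoc n13_c16
  replace h := h.snoc n13_c17
  exact h.all (by norm_num)

theorem all14 : AllCells 14 := by
  have h := Cov.one n14_c0
  replace h := h.snoc n14_c1
  replace h := h.snoc n14_c2
  replace h := h.snoc n14_c3
  replace h := h.snoc n14_c4
  replace h := h.snoc n14_c5
  replace h := h.snoc n14_c6
  replace h := h.snoc n14_c7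
  replace h := h.snoc n14_c8
  replace h := h.snoc n14_c9
  replace h := h.snoc n14_c10
  replace h := h.snoc n14_c11
  replace h := h.snoc n14_c12
  replace h := h.snoc n14_c13
  replace h := h.snoc n14_c14
  exact h.all (by norm_num)

theorem all15 : AllCells 15 := by
  have h := Cov.one n15_c0
  replace h := h.snoc n15_c1
  replace h := h.snoc n15_c2
  replace h := h.snoc n15_c3
  replace h := h.snoc n15_c4
  replace h := h.snoc n15_c5
  replace h := h.snoc n15_c6
  replace h := h.snoc n15_c7
  replace h := h.snoc n15_c8
  replace h := h.snoc n15_c9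
  replace h := h.snoc n15_c10
  replace h := h.snoc n15_c11
  replace h := h.snoc n15_c12
  exact h.all (by norm_num)

theorem all16 : AllCells 16 := by
  have h := Cov.one n16_c0
  replace h := h.snoc n16_c1
  replace h := h.snoc n16_c2
  replace h := h.snoc n16_c3
  replace h := h.snoc n16_c4
  replace h := h.snoc n16_c5
  replace h := h.snoc n16_c6
  replace h := h.snoc n16_c7
  replace h := h.snoc n16_c8
  replace h := h.snoc n16_c9
  replace h := h.snoc n16_c10
  replace h := h.snoc n16_c11
  exact h.all (by norm_num)

theorem all17 : AllCells 17 := by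
  have h := Cov.one n17_c0
  replace h := h.snoc n17_c1
  replace h := h.snoc n17_c2
  replace h := h.snoc n17_c3
  replace h := h.snoc n17_c4
  replace h := h.snoc n17_c5
  replace h := h.snoc n17_c6
  replace h := h.snoc n17_c7
  replace h := h.snoc n17_c8
  replace h := h.snoc n17_c9
  replace h := h.snoc n17_c10
  exact h.all (by norm_num)

theorem all18 : AllCells 18 := by
  have h := Cov.one n18_c0
  replace h := h.snoc n18_c1
  replace h := h.snoc n18_c2
  replace h := h.snoc n18_c3
  replace h := h.snoc n18_c4
  replace h := h.snoc n18_c5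
  replace h := h.snoc n18_c6
  replace h := h.snoc n18_c7
  replace h := h.snoc n18_c8
  replace h := h.snoc n18_c9
  exact h.all (by norm_num)

theorem all19 : AllCells 19 := by
  have h := Cov.one n19_c0
  replace h := h.snoc n19_c1
  replace h := h.snoc n19_c2
  replace h := h.snoc n19_c3
  replace h := h.snoc n19_c4
  replace h := h.snoc n19_c5
  replace h := h.snoc n19_c6
  replace h := h.snoc n19_c7
  replace h := h.snoc n19_c8
  replace h := h.snoc n19_c9
  exact h.all (by norm_num)

theorem all20 : AllCells 20 := by
  have h := Cov.one n20_c0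
  replace h := h.snoc n20_c1
  replace h := h.snoc n20_c2
  replace h := h.snoc n20_c3
  replace h := h.snoc n20_c4
  replace h := h.snoc n20_c5
  replace h := h.snoc n20_c6
  replace h := h.snoc n20_c7
  replace h := h.snoc n20_c8
  exact h.all (by norm_num)

theorem all21 : AllCells 21 := by
  have h := Cov.one n21_c0
  replace h := h.snoc n21_c1
  replace h := h.snoc n21_c2
  replace h := h.snoc n21_c3
  replace h := h.snoc n21_c4
  replace h := h.snoc n21_c5
  replace h := h.snoc n21_c6
  replace h := h.snoc n21_c7
  replace h := h.snoc n21_c8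
  exact h.all (by norm_num)

theorem all22 : AllCells 22 := by
  have h := Cov.one n22_c0
  replace h := h.snoc n22_c1
  replace h := h.snoc n22_c2
  replace h := h.snoc n22_c3
  replace h := h.snoc n22_c4
  replace h := h.snoc n22_c5
  replace h := h.snoc n22_c6
  replace h := h.snoc n22_c7
  exact h.all (by norm_num)

theorem all23 : AllCells 23 := by
  have h := Cov.one n23_c0
  replace h := h.snoc n23_c1
  replace h := h.snoc n23_c2
  replace h := h.snoc n23_c3
  replace h := h.snoc n23_c4
  replace h := h.snoc n23_c5
  replace h := h.snoc n23_c6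
  replace h := h.snoc n23_c7
  exact h.all (by norm_num)

theorem all24 : AllCells 24 := by
  have h := Cov.one n24_c0
  replace h := h.snoc n24_c1
  replace h := h.snoc n24_c2
  replace h := h.snoc n24_c3
  replace h := h.snoc n24_c4
  replace h := h.snoc n24_c5
  replace h := h.snoc n24_c6
  replace h := h.snoc n24_c7
  replace h := h.snoc n24_c8
  exact h.all (by norm_num)

theorem all25 : AllCells 25 := by
  have h := Cov.one n25_c0
  replace h := h.snoc n25_c1
  replace h := h.snoc n25_c2
  replace h := h.snoc n25_c3
  replace h := h.snoc n25_c4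
  replace h := h.snoc n25_c5
  replace h := h.snoc n25_c6
  replace h := h.snoc n25_c7
  exact h.all (by norm_num)

theorem all26 : AllCells 26 := by
  have h := Cov.one n26_c0
  replace h := h.snoc n26_c1
  replace h := h.snoc n26_c2
  replace h := h.snoc n26_c3
  replace h := h.snoc n26_c4
  replace h := h.snoc n26_c5
  replace h := h.snoc n26_c6
  exact h.all (by norm_num)

theorem all27 : AllCells 27 := by
  have h := Cov.one n27_c0
  replace h := h.snoc n27_c1
  replace h := h.snoc n27_c2
  replace h := h.snoc n27_c3
  replace h := h.snoc n27_c4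
  replace h := h.snoc n27_c5
  replace h := h.snoc n27_c6
  exact h.all (by norm_num)

theorem all28 : AllCells 28 := by
  have h := Cov.one n28_c0
  replace h := h.snoc n28_c1
  replace h := h.snoc n28_c2
  replace h := h.snoc n28_c3
  replace h := h.snoc n28_c4
  replace h := h.snoc n28_c5
  replace h := h.snoc n28_c6
  exact h.all (by norm_num)

theorem all29 : AllCells 29 := by
  have h := Cov.one n29_c0
  replace h := h.snoc n29_c1
  replace h := h.snoc n29_c2
  replace h := h.snoc n29_c3
  replace h := h.snoc n29_c4
  replace h := h.snoc n29_c5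
  replace h := h.snoc n29_c6
  exact h.all (by norm_num)

theorem all30 : AllCells 30 := by
  have h := Cov.one n30_c0
  replace h := h.snoc n30_c1
  replace h := h.snoc n30_c2
  replace h := h.snoc n30_c3
  replace h := h.snoc n30_c4
  replace h := h.snoc n30_c5
  exact h.all (by norm_num)

theorem all31 : AllCells 31 := by
  have h := Cov.one n31_c0
  replace h := h.snoc n31_c1
  replace h := h.snoc n31_c2
  replace h := h.snoc n31_c3
  replace h := h.snoc n31_c4
  replace h := h.snoc n31_c5
  exact h.all (by norm_num)

theorem all32 : AllCells 32 := by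
  have h := Cov.one n32_c0
  replace h := h.snoc n32_c1
  replace h := h.snoc n32_c2
  replace h := h.snoc n32_c3
  replace h := h.snoc n32_c4
  replace h := h.snoc n32_c5
  exact h.all (by norm_num)

theorem all33 : AllCells 33 := by
  have h := Cov.one n33_c0
  replace h := h.snoc n33_c1
  replace h := h.snoc n33_c2
  replace h := h.snoc n33_c3
  replace h := h.snoc n33_c4
  replace h := h.snoc n33_c5
  exact h.all (by norm_num)

theorem all34 : AllCells 34 := by
  have h := Cov.one n34_c0
  replace h := h.snoc n34_c1
  replace h := h.snoc n34_c2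
  replace h := h.snoc n34_c3
  replace h := h.snoc n34_c4
  replace h := h.snoc n34_c5
  exact h.all (by norm_num)

theorem all35 : AllCells 35 := by
  have h := Cov.one n35_c0
  replace h := h.snoc n35_c1
  replace h := h.snoc n35_c2
  replace h := h.snoc n35_c3
  replace h := h.snoc n35_c4
  replace h := h.snoc n35_c5
  exact h.all (by norm_num)

theorem all36 : AllCells 36 := by
  have h := Cov.one n36_c0
  replace h := h.snoc n36_c1
  replace h := h.snoc n36_c2
  replace h := h.snoc n36_c3
  replace h := h.snoc n36_c4
  replace h := h.snoc n36_c5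
  exact h.all (by norm_num)

theorem all37 : AllCells 37 := by
  have h := Cov.one n37_c0
  replace h := h.snoc n37_c1
  replace h := h.snoc n37_c2
  replace h := h.snoc n37_c3
  replace h := h.snoc n37_c4
  exact h.all (by norm_num)

theorem all38 : AllCells 38 := by
  have h := Cov.one n38_c0
  replace h := h.snoc n38_c1
  replace h := h.snoc n38_c2
  replace h := h.snoc n38_c3
  replace h := h.snoc n38_c4
  exact h.all (by norm_num)

theorem all39 : AllCells 39 := by
  have h := Cov.one n39_c0
  replace h := h.snoc n39_c1
  replace h := h.snoc n39_c2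
  replace h := h.snoc n39_c3
  replace h := h.snoc n39_c4
  exact h.all (by norm_num)

theorem all40 : AllCells 40 := by
  have h := Cov.one n40_c0
  replace h := h.snoc n40_c1
  replace h := h.snoc n40_c2
  replace h := h.snoc n40_c3
  replace h := h.snoc n40_c4
  exact h.all (by norm_num)

theorem all41 : AllCells 41 := by
  have h := Cov.one n41_c0
  replace h := h.snoc n41_c1
  replace h := h.snoc n41_c2
  replace h := h.snoc n41_c3
  replace h := h.snoc n41_c4
  exact h.all (by norm_num)

theorem all42 : AllCells 42 := by
  have h := Cov.one n42_c0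
  replace h := h.snoc n42_c1
  replace h := h.snoc n42_c2
  replace h := h.snoc n42_c3
  replace h := h.snoc n42_c4
  exact h.all (by norm_num)

theorem all43 : AllCells 43 := by
  have h := Cov.one n43_c0
  replace h := h.snoc n43_c1
  replace h := h.snoc n43_c2
  replace h := h.snoc n43_c3
  replace h := h.snoc n43_c4
  exact h.all (by norm_num)

theorem all44 : AllCells 44 := by
  have h := Cov.one n44_c0
  replace h := h.snoc n44_c1
  replace h := h.snoc n44_c2
  replace h := h.snoc n44_c3
  replace h := h.snoc n44_c4
  exact h.all (by norm_num)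

theorem all45 : AllCells 45 := by
  have h := Cov.one n45_c0
  replace h := h.snoc n45_c1
  replace h := h.snoc n45_c2
  replace h := h.snoc n45_c3
  replace h := h.snoc n45_c4
  exact h.all (by norm_num)

theorem all46 : AllCells 46 := by
  have h := Cov.one n46_c0
  replace h := h.snoc n46_c1
  replace h := h.snoc n46_c2
  replace h := h.snoc n46_c3
  replace h := h.snoc n46_c4
  exact h.all (by norm_num)

theorem all47 : AllCells 47 := by
  have h := Cov.one n47_c0
  replace h := h.snoc n47_c1
  replace h := h.snoc n47_c2
  replace h := h.snoc n47_c3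
  exact h.all (by norm_num)

theorem all48 : AllCells 48 := by
  have h := Cov.one n48_c0
  replace h := h.snoc n48_c1
  replace h := h.snoc n48_c2
  replace h := h.snoc n48_c3
  exact h.all (by norm_num)

theorem all49 : AllCells 49 := by
  have h := Cov.one n49_c0
  replace h := h.snoc n49_c1
  replace h := h.snoc n49_c2
  replace h := h.snoc n49_c3
  exact h.all (by norm_num)

theorem all50 : AllCells 50 := by
  have h := Cov.one n50_c0
  replace h := h.snoc n50_c1
  replace h := h.snoc n50_c2
  replace h := h.snoc n50_c3
  exact h.all (by norm_num)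

theorem all51 : AllCells 51 := by
  have h := Cov.one n51_c0
  replace h := h.snoc n51_c1
  replace h := h.snoc n51_c2
  replace h := h.snoc n51_c3
  exact h.all (by norm_num)

theorem all52 : AllCells 52 := by
  have h := Cov.one n52_c0
  replace h := h.snoc n52_c1
  replace h := h.snoc n52_c2
  replace h := h.snoc n52_c3
  exact h.all (by norm_num)

theorem all53 : AllCells 53 := by
  have h := Cov.one n53_c0
  replace h := h.snoc n53_c1
  replace h := h.snoc n53_c2
  replace h := h.snoc n53_c3
  exact h.all (by norm_num)

theorem all54 : AllCells 54 := by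
  have h := Cov.one n54_c0
  replace h := h.snoc n54_c1
  replace h := h.snoc n54_c2
  replace h := h.snoc n54_c3
  exact h.all (by norm_num)

theorem all55 : AllCells 55 := by
  have h := Cov.one n55_c0
  replace h := h.snoc n55_c1
  replace h := h.snoc n55_c2
  replace h := h.snoc n55_c3
  exact h.all (by norm_num)

theorem all56 : AllCells 56 := by
  have h := Cov.one n56_c0
  replace h := h.snoc n56_c1
  replace h := h.snoc n56_c2
  replace h := h.snoc n56_c3
  exact h.all (by norm_num)

theorem all57 : AllCells 57 := by
  have h := Cov.one n57_c0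
  replace h := h.snoc n57_c1
  replace h := h.snoc n57_c2
  exact h.all (by norm_num)

theorem all58 : AllCells 58 := by
  have h := Cov.one n58_c0
  replace h := h.snoc n58_c1
  replace h := h.snoc n58_c2
  replace h := h.snoc n58_c3
  exact h.all (by norm_num)

theorem all59 : AllCells 59 := by
  have h := Cov.one n59_c0
  replace h := h.snoc n59_c1
  replace h := h.snoc n59_c2
  exact h.all (by norm_num)

theorem all60 : AllCells 60 := by
  have h := Cov.one n60_c0
  replace h := h.snoc n60_c1
  replace h := h.snoc n60_c2
  exact h.all (by norm_num)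

theorem all61 : AllCells 61 := by
  have h := Cov.one n61_c0
  replace h := h.snoc n61_c1
  replace h := h.snoc n61_c2
  exact h.all (by norm_num)

theorem all62 : AllCells 62 := by
  have h := Cov.one n62_c0
  replace h := h.snoc n62_c1
  replace h := h.snoc n62_c2
  exact h.all (by norm_num)

theorem all63 : AllCells 63 := by
  have h := Cov.one n63_c0
  replace h := h.snoc n63_c1
  replace h := h.snoc n63_c2
  exact h.all (by norm_num)

theorem all64 : AllCells 64 := by
  have h := Cov.one n64_c0
  replace h := h.snoc n64_c1
  replace h := h.snoc n64_c2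
  exact h.all (by norm_num)

theorem all65 : AllCells 65 := by
  have h := Cov.one n65_c0
  replace h := h.snoc n65_c1
  replace h := h.snoc n65_c2
  exact h.all (by norm_num)

theorem all66 : AllCells 66 := by
  have h := Cov.one n66_c0
  replace h := h.snoc n66_c1
  replace h := h.snoc n66_c2
  exact h.all (by norm_num)

theorem all67 : AllCells 67 := by
  have h := Cov.one n67_c0
  replace h := h.snoc n67_c1
  replace h := h.snoc n67_c2
  exact h.all (by norm_num)

theorem all68 : AllCells 68 := by
  have h := Cov.one n68_c0
  replace h := h.snoc n68_c1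
  replace h := h.snoc n68_c2
  exact h.all (by norm_num)

theorem all69 : AllCells 69 := by
  have h := Cov.one n69_c0
  replace h := h.snoc n69_c1
  replace h := h.snoc n69_c2
  exact h.all (by norm_num)

theorem all70 : AllCells 70 := by
  have h := Cov.one n70_c0
  replace h := h.snoc n70_c1
  replace h := h.snoc n70_c2
  exact h.all (by norm_num)

theorem all71 : AllCells 71 := by
  have h := Cov.one n71_c0
  replace h := h.snoc n71_c1
  replace h := h.snoc n71_c2
  exact h.all (by norm_num)

theorem all72 : AllCells 72 := by
  have h := Cov.one n72_c0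
  replace h := h.snoc n72_c1
  replace h := h.snoc n72_c2
  exact h.all (by norm_num)

theorem all73 : AllCells 73 := by
  have h := Cov.one n73_c0
  replace h := h.snoc n73_c1
  replace h := h.snoc n73_c2
  exact h.all (by norm_num)

theorem all74 : AllCells 74 := by
  have h := Cov.one n74_c0
  replace h := h.snoc n74_c1
  replace h := h.snoc n74_c2
  exact h.all (by norm_num)

theorem all75 : AllCells 75 := by
  have h := Cov.one n75_c0
  replace h := h.snoc n75_c1
  replace h := h.snoc n75_c2
  exact h.all (by norm_num)

theorem all76 : AllCells 76 := by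
  have h := Cov.one n76_c0
  replace h := h.snoc n76_c1
  replace h := h.snoc n76_c2
  replace h := h.snoc n76_c3
  exact h.all (by norm_num)

theorem all77 : AllCells 77 := by
  have h := Cov.one n77_c0
  replace h := h.snoc n77_c1
  replace h := h.snoc n77_c2
  exact h.all (by norm_num)

theorem all78 : AllCells 78 := by
  have h := Cov.one n78_c0
  replace h := h.snoc n78_c1
  replace h := h.snoc n78_c2
  exact h.all (by norm_num)

theorem all79 : AllCells 79 := by
  have h := Cov.one n79_c0
  replace h := h.snoc n79_c1
  replace h := h.snoc n79_c2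
  exact h.all (by norm_num)

theorem all80 : AllCells 80 := by
  have h := Cov.one n80_c0
  replace h := h.snoc n80_c1
  replace h := h.snoc n80_c2
  exact h.all (by norm_num)

theorem all81 : AllCells 81 := by
  have h := Cov.one n81_c0
  replace h := h.snoc n81_c1
  replace h := h.snoc n81_c2
  exact h.all (by norm_num)

theorem all82 : AllCells 82 := by
  have h := Cov.one n82_c0
  replace h := h.snoc n82_c1
  replace h := h.snoc n82_c2
  exact h.all (by norm_num)

theorem all83 : AllCells 83 := by
  have h := Cov.one n83_c0
  replace h := h.snoc n83_c1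
  replace h := h.snoc n83_c2
  exact h.all (by norm_num)

theorem all84 : AllCells 84 := by
  have h := Cov.one n84_c0
  replace h := h.snoc n84_c1
  replace h := h.snoc n84_c2
  exact h.all (by norm_num)

theorem all85 : AllCells 85 := by
  have h := Cov.one n85_c0
  replace h := h.snoc n85_c1
  replace h := h.snoc n85_c2
  exact h.all (by norm_num)

theorem all86 : AllCells 86 := by
  have h := Cov.one n86_c0
  replace h := h.snoc n86_c1
  replace h := h.snoc n86_c2
  exact h.all (by norm_num)

theorem allCells (N : ℕ) (h9 : 9 ≤ N) (h86 : N ≤ 86) : AllCells N := by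
  interval_cases N
  · exact all9
  · exact all10
  · exact all11
  · exact all12
  · exact all13
  · exact all14
  · exact all15
  · exact all16
  · exact all17
  · exact all18
  · exact all19
  · exact all20
  · exact all21
  · exact all22
  · exact all23
  · exact all24
  · exact all25
  · exact all26
  · exact all27
  · exact all28
  · exact all29
  · exact all30
  · exact all31
  · exact all32
  · exact all33
  · exact all34
  · exact all35
  · exact all36
  · exact all37
  · exact all38
  · exact all39
  · exact all40
  · exact all41
  · exact all42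
  · exact all43
  · exact all44
  · exact all45
  · exact all46
  · exact all47
  · exact all48
  · exact all49
  · exact all50
  · exact all51
  · exact all52
  · exact all53
  · exact all54
  · exact all55
  · exact all56
  · exact all57
  · exact all58
  · exact all59
  · exact all60
  · exact all61
  · exact all62
  · exact all63
  · exact all64
  · exact all65
  · exact all66
  · exact all67
  · exact all68
  · exact all69
  · exact all70
  · exact all71
  · exact all72
  · exact all73
  · exact all74
  · exact all75
  · exact all76
  · exact all77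
  · exact all78
  · exact all79
  · exact all80
  · exact all81
  · exact all82
  · exact all83
  · exact all84
  · exact all85
  · exact all86

end Pool.Agent.Helper99.Ring9
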